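import Mathlib

/-!
# Fourier coefficients of Boolean functions on finite abelian groups: Galois conjugation and rank
-/

set_option autoImplicit false

namespace Pool.Agent.Q174.CY

open Finset Polynomial

section four

variable {Γ : Type*} [AddCommGroup Γ] [Fintype Γ]

/-- a Fourier coefficient (not normalised) -/
noncomputable def coef (f : Γ → Bool) (χ : AddChar Γ ℂ) : ℂ := ∑ b, if f b then χ (-b) else 0

lemma coef_pow_ne_zero (f : Γ → Bool) (χ : AddChar Γ ℂ) {a : ℕ}
    (ha : Nat.Coprime a (orderOf χ)) (h : coef f χ ≠ 0) : coef f (χ ^ a) ≠ 0 := by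
  intro h0
  apply h
  set m := orderOf χ with hm
  have hm0 : 0 < m := orderOf_pos χ
  haveI : NeZero m := ⟨hm0.ne'⟩
  set ζ : ℂ := Complex.exp (2 * Real.pi * Complex.I / m) with hζdef
  have hζ : IsPrimitiveRoot ζ m := Complex.isPrimitiveRoot_exp m hm0.ne'
  have hk : ∀ x, ∃ k < m, ζ ^ k = χ x := fun x => hζ.eq_pow_of_pow_eq_one (by
    rw [← AddChar.pow_apply, hm, pow_orderOf_eq_one]
    rfl)
  choose k hk1 hk2 using hk
  set P : ℤ[X] := ∑ b, if f b then X ^ (k (-b)) else 0 with hP
  have e1 : aeval ζ P = coef f χ := by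
    rw [hP, map_sum]
    refine Finset.sum_congr rfl fun b _ => ?_
    split_ifs
    · rw [map_pow, aeval_X, hk2]
    · exact map_zero _
  have e2 : aeval (ζ ^ a) P = coef f (χ ^ a) := by
    rw [hP, map_sum]
    refine Finset.sum_congr rfl fun b _ => ?_
    split_ifs
    · rw [map_pow, aeval_X, AddChar.pow_apply, ← hk2, ← pow_mul, ← pow_mul, mul_comm]
    · exact map_zero _
  have hint : IsIntegral ℤ (ζ ^ a) := (hζ.isIntegral hm0).pow a
  have h1 : minpoly ℤ (ζ ^ a) ∣ P := minpoly.isIntegrallyClosed_dvd hint (by rw [e2, h0])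
  rw [← hζ.minpoly_eq_pow_coprime ha] at h1
  obtain ⟨Q, hQ⟩ := h1
  rw [← e1, hQ, map_mul, minpoly.aeval, zero_mul]

lemma inversion (f : Γ → Bool) (x : Γ) : (if f x then (1 : ℂ) else 0) =
    ∑ χ : AddChar Γ ℂ, ((Fintype.card Γ : ℂ)⁻¹ * coef f χ) * χ x := by
  classical
  have h1 : ∑ χ : AddChar Γ ℂ, ((Fintype.card Γ : ℂ)⁻¹ * coef f χ) * χ x =
      (Fintype.card Γ : ℂ)⁻¹ * ∑ b, if f b then ∑ χ : AddChar Γ ℂ, χ (x - b) else 0 := by
    rw [Finset.mul_sum]
    have h2 : ∀ b, (Fintype.card Γ : ℂ)⁻¹ * (if f b then ∑ χ : AddChar Γ ℂ, χ (x - b) else 0) =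
        ∑ χ : AddChar Γ ℂ, (Fintype.card Γ : ℂ)⁻¹ * (if f b then χ (-b) else 0) * χ x := by
      intro b
      split_ifs
      · rw [Finset.mul_sum]
        refine Finset.sum_congr rfl fun χ _ => ?_
        rw [sub_eq_add_neg, AddChar.map_add_eq_mul]
        ring
      · simp
    rw [Finset.sum_congr rfl fun b _ => h2 b, Finset.sum_comm]
    refine Finset.sum_congr rfl fun χ _ => ?_
    rw [coef, Finset.mul_sum, Finset.sum_mul]
  have h3 : ∀ b, (if f b then ∑ χ : AddChar Γ ℂ, χ (x - b) else 0) =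
      if b = x then (if f x then (Fintype.card Γ : ℂ) else 0) else 0 := by
    intro b
    rw [AddChar.sum_apply_eq_ite]
    by_cases hb : b = x
    · subst hb
      simp
    · have : x - b ≠ 0 := fun h => hb (sub_eq_zero.mp h).symm
      simp [hb, this]
  rw [h1, Finset.sum_congr rfl fun b _ => h3 b, Finset.sum_ite_eq' univ x]
  simp only [mem_univ, if_true]
  have h4 : (Fintype.card Γ : ℂ) ≠ 0 := by
    have := Fintype.card_pos (α := Γ)
    exact_mod_cast this.ne'
  split_ifs
  · rw [inv_mul_cancel₀ h4]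
  · rw [mul_zero]

open Classical in
/-- the active characters -/
noncomputable def active (f : Γ → Bool) : Finset (AddChar Γ ℂ) := univ.filter fun χ => coef f χ ≠ 0

lemma mem_active {f : Γ → Bool} {χ : AddChar Γ ℂ} : χ ∈ active f ↔ coef f χ ≠ 0 := by
  classical
  simp [active]

/-- at most rank many active characters -/
lemma card_active_le {r : ℕ} (f : Γ → Bool) (u v : Fin r → Γ → ℝ)
    (h : ∀ a b, (if f (a - b) then (1 : ℝ) else 0) = ∑ k, u k a * v k b) :
    (active f).card ≤ r := by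
  classical
  set W : Submodule ℂ (Γ → ℂ) := Submodule.span ℂ (Set.range fun k : Fin r => fun a : Γ =>
    (u k a : ℂ)) with hW
  have hmem : ∀ χ : {χ // χ ∈ active f}, (⇑χ.1 : Γ → ℂ) ∈ W := by
    rintro ⟨χ, hχ⟩
    rw [mem_active] at hχ
    have h1 : (⇑χ : Γ → ℂ) = ∑ k : Fin r, ((coef f χ)⁻¹ * ∑ y, (v k y : ℂ) * χ y) •
        fun a : Γ => (u k a : ℂ) := by
      funext a
      rw [Finset.sum_apply]
      simp only [Pi.smul_apply, smul_eq_mul]
      have h2 : ∑ y, (if f (a - y) then (1 : ℂ) else 0) * χ y = χ a * coef f χ := by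
        have h3 : ∑ y, (if f (a - y) then (1 : ℂ) else 0) * χ y =
            ∑ z, (if f z then (1 : ℂ) else 0) * χ (a - z) := by
          refine Fintype.sum_equiv (Equiv.subLeft a) _ _ fun y => ?_
          simp only [Equiv.subLeft_apply, sub_sub_cancel]
        rw [h3, coef, Finset.mul_sum]
        refine Finset.sum_congr rfl fun z _ => ?_
        split_ifs
        · rw [one_mul, sub_eq_add_neg, AddChar.map_add_eq_mul]
        · rw [zero_mul, mul_zero]
      have h4 : ∀ y, (if f (a - y) then (1 : ℂ) else 0) = ∑ k, (u k a : ℂ) * (v k y : ℂ) := by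
        intro y
        have := congrArg (fun t : ℝ => (t : ℂ)) (h a y)
        simp only [Complex.ofReal_sum, Complex.ofReal_mul] at this
        rw [← this]
        split_ifs <;> simp
      have h5 : χ a = (coef f χ)⁻¹ * (χ a * coef f χ) := by
        field_simp
      rw [h5, ← h2]
      simp_rw [h4]
      rw [Finset.mul_sum]
      simp_rw [Finset.sum_mul, Finset.mul_sum, Finset.sum_mul]
      rw [Finset.sum_comm]
      refine Finset.sum_congr rfl fun k _ => Finset.sum_congr rfl fun y _ => ?_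
      ring
    rw [h1]
    exact Submodule.sum_mem _ fun k _ => Submodule.smul_mem _ _ (Submodule.subset_span ⟨k, rfl⟩)
  have hli : LinearIndependent ℂ fun χ : {χ // χ ∈ active f} => (⟨⇑χ.1, hmem χ⟩ : W) := by
    apply LinearIndependent.of_comp W.subtype
    exact (AddChar.linearIndependent Γ ℂ).comp (fun χ : {χ // χ ∈ active f} => χ.1)
      Subtype.val_injective
  have h1 := hli.fintype_card_le_finrank
  rw [Fintype.card_coe] at h1
  refine h1.trans ?_
  have h2 := finrank_range_le_card (R := ℂ) (fun k : Fin r => fun a : Γ => (u k a : ℂ))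
  rw [Fintype.card_fin] at h2
  exact h2

lemma totient_le_card_active {f : Γ → Bool} {χ : AddChar Γ ℂ} (hχ : χ ∈ active f) :
    Nat.totient (orderOf χ) ≤ (active f).card := by
  classical
  rw [Nat.totient_eq_card_coprime]
  refine Finset.card_le_card_of_injOn (fun a => χ ^ a) ?_ ?_
  · intro a ha
    rw [Finset.mem_coe, mem_filter] at ha
    rw [Finset.mem_coe, mem_active]
    exact coef_pow_ne_zero f χ ha.2.symm (mem_active.mp hχ)
  · intro a ha b hb hab
    rw [Finset.mem_coe, mem_filter, mem_range] at ha hb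
    exact pow_injOn_Iio_orderOf ha.1 hb.1 hab

end four

section nt

lemma card_primeFactors_le {m r : ℕ} (hm : m ≠ 0) (h : Nat.totient m ≤ r) :
    m.primeFactors.card ≤ Nat.log 2 r + 1 := by
  have h1 := Nat.totient_mul_prod_primeFactors m
  have h2 : ∏ p ∈ m.primeFactors, p ≤ m := Nat.le_of_dvd (Nat.pos_of_ne_zero hm)
    (Nat.prod_primeFactors_dvd m)
  have h3 : 0 < ∏ p ∈ m.primeFactors, p := Finset.prod_pos fun p hp =>
    (Nat.prime_of_mem_primeFactors hp).pos
  have h4 : ∏ p ∈ m.primeFactors, (p - 1) ≤ Nat.totient m := by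
    by_contra hcon
    push Not at hcon
    have h5 : Nat.totient m * ∏ p ∈ m.primeFactors, p < m * ∏ p ∈ m.primeFactors, (p - 1) :=
      calc Nat.totient m * ∏ p ∈ m.primeFactors, p
          < (∏ p ∈ m.primeFactors, (p - 1)) * ∏ p ∈ m.primeFactors, p :=
            Nat.mul_lt_mul_of_pos_right hcon h3
        _ ≤ (∏ p ∈ m.primeFactors, (p - 1)) * m := Nat.mul_le_mul_left _ h2
        _ = _ := mul_comm _ _
    omega
  have h5 : 2 ^ (m.primeFactors.card - 1) ≤ ∏ p ∈ m.primeFactors, (p - 1) := by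
    have h6 : ∏ p ∈ m.primeFactors.erase 2, (p - 1) ≤ ∏ p ∈ m.primeFactors, (p - 1) := by
      by_cases h2m : 2 ∈ m.primeFactors
      · rw [← Finset.mul_prod_erase _ _ h2m]
        simp
      · rw [Finset.erase_eq_of_notMem h2m]
    refine le_trans ?_ h6
    calc 2 ^ (m.primeFactors.card - 1) ≤ 2 ^ (m.primeFactors.erase 2).card :=
          Nat.pow_le_pow_right (by norm_num) (Finset.pred_card_le_card_erase)
      _ = ∏ _p ∈ m.primeFactors.erase 2, 2 := by rw [Finset.prod_const]
      _ ≤ _ := by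
          refine Finset.prod_le_prod' fun p hp => ?_
          rw [Finset.mem_erase] at hp
          have h7 := (Nat.prime_of_mem_primeFactors hp.2).two_le
          omega
  have h6 : 2 ^ (m.primeFactors.card - 1) ≤ r := h5.trans (h4.trans h)
  have h7 : m.primeFactors.card - 1 ≤ Nat.log 2 r := Nat.le_log_of_pow_le (by norm_num) h6
  omega

lemma prime_pow_le {m r p : ℕ} (hp : p.Prime) (h : Nat.totient m ≤ r) {k : ℕ} (hm : m ≠ 0)
    (hk : p ^ k ∣ m) : p ^ k ≤ 2 * r := by
  have h1 : Nat.totient (p ^ k) ≤ Nat.totient m :=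
    Nat.le_of_dvd (Nat.totient_pos.mpr (Nat.pos_of_ne_zero hm)) (Nat.totient_dvd_of_dvd hk)
  have h2 : p ^ k ≤ 2 * Nat.totient (p ^ k) := by
    cases k with
    | zero => simp
    | succ k =>
      rw [Nat.totient_prime_pow_succ hp]
      have h3 := hp.two_le
      obtain ⟨q, rfl⟩ : ∃ q, p = q + 2 := ⟨p - 2, by omega⟩
      have h4 : q + 2 - 1 = q + 1 := by omega
      rw [h4, pow_succ]
      have h5 : 0 ≤ (q + 2) ^ k := by positivity
      nlinarith
  omega

end nt

end Pool.Agent.Q174.CY
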