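import Pool.Agent.Q174.CY.Deg
import Pool.Agent.Q174.CY.Four

/-!
# Certificates for Boolean functions on finite abelian groups
-/

set_option autoImplicit false

namespace Pool.Agent.Q174.CY

open Finset

section idem

variable {ι : Type*} [DecidableEq ι]

/-- the modulus of a set of indices -/
def modl (q : ι → ℕ) (T : Finset ι) : ℕ := ∏ p ∈ T, q p

lemma modl_union {q : ι → ℕ} {S T : Finset ι} (h : Disjoint S T) :
    modl q (S ∪ T) = modl q S * modl q T := Finset.prod_union h

omit [DecidableEq ι] in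
lemma modl_dvd {q : ι → ℕ} {S T : Finset ι} (h : S ⊆ T) : modl q S ∣ modl q T :=
  Finset.prod_dvd_prod_of_subset _ _ _ h

omit [DecidableEq ι] in
lemma modl_coprime {q : ι → ℕ} (hq : ∀ p p', p ≠ p' → Nat.Coprime (q p) (q p')) {S T : Finset ι}
    (h : Disjoint S T) : Nat.Coprime (modl q S) (modl q T) := by
  refine Nat.Coprime.prod_left fun p hp => Nat.Coprime.prod_right fun p' hp' => hq p p' ?_
  rintro rfl
  exact Finset.disjoint_left.mp h hp hp'

lemma exists_idem [Fintype ι] (q : ι → ℕ) (hq : ∀ p p', p ≠ p' → Nat.Coprime (q p) (q p')) :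
    ∃ e : ι → ℕ, (∀ p, modl q (univ.erase p) ∣ e p) ∧
      (∑ p, e p) ≡ 1 [MOD modl q univ] := by
  have h : ∀ p, ∃ k, modl q (univ.erase p) ∣ k ∧ k ≡ 1 [MOD q p] := by
    intro p
    have hco : Nat.Coprime (modl q (univ.erase p)) (q p) := by
      have := modl_coprime hq (S := univ.erase p) (T := {p})
        (by rw [Finset.disjoint_singleton_right]; exact Finset.notMem_erase _ _)
      simpa [modl] using this
    obtain ⟨k, hk⟩ := Nat.chineseRemainder hco 0 1
    exact ⟨k, (Nat.modEq_zero_iff_dvd).mp hk.1, hk.2⟩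
  choose e he using h
  refine ⟨e, fun p => (he p).1, ?_⟩
  have key : ∀ p, (∑ p', e p') ≡ 1 [MOD q p] := by
    intro p
    rw [← Finset.add_sum_erase univ e (mem_univ p)]
    have h1 : (∑ p' ∈ univ.erase p, e p') ≡ 0 [MOD q p] := by
      rw [Nat.modEq_zero_iff_dvd]
      refine Finset.dvd_sum fun p' hp' => ?_
      refine dvd_trans ?_ (he p').1
      refine Finset.dvd_prod_of_mem _ ?_
      rw [Finset.mem_erase] at hp' ⊢
      exact ⟨hp'.1.symm, mem_univ _⟩
    exact (he p).2.add h1
  have h2 : ((modl q univ : ℕ) : ℤ) ∣ ((∑ p', e p' : ℕ) : ℤ) - 1 := by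
    unfold modl
    push_cast
    refine Finset.prod_dvd_of_coprime ?_ ?_
    · intro p _ p' _ hpp
      exact Nat.isCoprime_iff_coprime.mpr (hq p p' hpp)
    · intro p _
      have := (Nat.modEq_iff_dvd.mp (key p).symm)
      simpa using this
  exact (Nat.modEq_iff_dvd.mpr (by simpa using h2)).symm

end idem

section grp

variable {Γ : Type*} [AddCommGroup Γ] [Fintype Γ]

lemma f_ext {f : Γ → Bool} {a b : Γ} (h : ∀ χ ∈ active f, χ a = χ b) : f a = f b := by
  have h1 : (if f a then (1 : ℂ) else 0) = if f b then (1 : ℂ) else 0 := by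
    rw [inversion f a, inversion f b]
    refine Finset.sum_congr rfl fun χ _ => ?_
    by_cases hχ : χ ∈ active f
    · rw [h χ hχ]
    · rw [mem_active, not_not] at hχ
      rw [hχ, mul_zero, zero_mul, zero_mul]
  by_cases h8 : f a = true <;> by_cases h9 : f b = true
  · rw [h8, h9]
  · simp [h8, h9] at h1
  · simp [h8, h9] at h1
  · rw [Bool.not_eq_true] at h8 h9
    rw [h8, h9]

variable {ι : Type*} [DecidableEq ι] [Fintype ι]

omit [Fintype Γ] in
lemma char_pow {χ : AddChar Γ ℂ} {N : ℕ} (h : orderOf χ ∣ N) (x : Γ) : χ x ^ N = 1 := by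
  obtain ⟨k, rfl⟩ := h
  rw [pow_mul, ← AddChar.pow_apply, pow_orderOf_eq_one]
  simp

/-- **Certificates in abelian groups**, abstract moduli -/
theorem cert_abs {t : ℕ} (f : Γ → Bool) (q : ι → ℕ)
    (hq : ∀ p p', p ≠ p' → Nat.Coprime (q p) (q p'))
    (hord : ∀ χ ∈ active f, orderOf χ ∣ modl q univ)
    (hsupp : ∀ χ ∈ active f, (univ.filter fun p => ¬ Nat.Coprime (q p) (orderOf χ)).card ≤ t)
    (z : Γ) : ∃ C : Finset ι, C.card ≤ t ^ 3 ∧ ∀ u, f (z + modl q C • u) = f z := by
  classical
  obtain ⟨e, he, hesum⟩ := exists_idem q hq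
  -- characters
  have hone : ∀ χ ∈ active f, ∀ p, Nat.Coprime (q p) (orderOf χ) → ∀ y, χ (e p • y) = 1 := by
    intro χ hχ p hp y
    rw [AddChar.map_nsmul_eq_pow]
    refine char_pow ?_ y
    refine dvd_trans ?_ (he p)
    have h1 : modl q univ = q p * modl q (univ.erase p) :=
      (Finset.mul_prod_erase univ q (mem_univ p)).symm
    have h2 := hord χ hχ
    rw [h1] at h2
    exact hp.symm.dvd_of_dvd_mul_left h2
  have hdiag : ∀ χ ∈ active f, ∀ x : Γ, χ (∑ p, e p • x) = χ x := by
    intro χ hχ x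
    rw [← Finset.sum_smul, AddChar.map_nsmul_eq_pow]
    have h1 := hesum.of_dvd (hord χ hχ)
    have h2 : (∑ p, e p) ≡ 1 [MOD orderOf (χ x)] := by
      refine h1.of_dvd (orderOf_dvd_of_pow_eq_one ?_)
      exact char_pow dvd_rfl x
    have h3 : (∑ p, e p) % orderOf (χ x) = 1 % orderOf (χ x) := h2
    rw [← pow_mod_orderOf, h3, pow_mod_orderOf, pow_one]
  have hprod : ∀ (χ : AddChar Γ ℂ) (w : ι → Γ), χ (∑ p, e p • w p) = ∏ p, χ (e p • w p) := by
    intro χ w
    have h1 : ∀ s : Finset ι, χ (∑ p ∈ s, e p • w p) = ∏ p ∈ s, χ (e p • w p) := by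
      intro s
      induction s using Finset.induction_on with
      | empty => simp
      | insert a s ha ih => rw [Finset.sum_insert ha, Finset.prod_insert ha,
          AddChar.map_add_eq_mul, ih]
    exact h1 univ
  set F : (ι → Γ) → Bool := fun w => f (∑ p, e p • w p) with hF
  have hlow : Low t F := by
    refine ⟨fun S w => ∑ χ ∈ (active f).filter
      (fun χ => (univ.filter fun p => ¬ Nat.Coprime (q p) (orderOf χ)) = S),
      (((Fintype.card Γ : ℂ)⁻¹ * coef f χ) * ∏ p, χ (e p • w p)).re, ?_, ?_⟩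
    · intro S w w' hww
      refine Finset.sum_congr rfl fun χ hχ => ?_
      rw [mem_filter] at hχ
      have h1 : ∏ p, χ (e p • w p) = ∏ p, χ (e p • w' p) := by
        refine Finset.prod_congr rfl fun p _ => ?_
        by_cases hp : Nat.Coprime (q p) (orderOf χ)
        · rw [hone χ hχ.1 p hp, hone χ hχ.1 p hp]
        · have : p ∈ S := by
            rw [← hχ.2, mem_filter]
            exact ⟨mem_univ _, hp⟩
          rw [hww p this]
      rw [h1]
    · intro w
      have h1 : (if F w then (1 : ℝ) else 0) = ((if F w then (1 : ℂ) else 0) : ℂ).re := by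
        split_ifs <;> simp
      rw [h1]
      simp only [hF]
      rw [inversion f, Complex.re_sum]
      rw [Finset.sum_fiberwise_of_maps_to (s := active f)
        (t := univ.filter fun S : Finset ι => S.card ≤ t)
        (g := fun χ => univ.filter fun p => ¬ Nat.Coprime (q p) (orderOf χ))
        (f := fun χ => (((Fintype.card Γ : ℂ)⁻¹ * coef f χ) * ∏ p, χ (e p • w p)).re)]
      · symm
        apply Finset.sum_subset_zero_on_sdiff (Finset.subset_univ _)
        · intro χ hχ
          rw [mem_sdiff, mem_active, not_not] at hχ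
          rw [hχ.2, mul_zero, zero_mul, Complex.zero_re]
        · intro χ _
          rw [hprod]
      · intro χ hχ
        rw [mem_filter]
        exact ⟨mem_univ _, hsupp χ hχ⟩
  obtain ⟨C, hC, hcert⟩ := cert hlow (fun _ => z)
  refine ⟨C, hC, fun u => ?_⟩
  have h1 := hcert (fun p => if p ∈ C then z else z + modl q C • u)
    (fun p hp => by simp [hp])
  have h2 : F (fun _ => z) = f z := by
    simp only [hF]
    exact f_ext fun χ hχ => hdiag χ hχ z
  have h3 : F (fun p => if p ∈ C then z else z + modl q C • u) = f (z + modl q C • u) := by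
    simp only [hF]
    refine f_ext fun χ hχ => ?_
    rw [← hdiag χ hχ (z + modl q C • u), hprod, hprod]
    refine Finset.prod_congr rfl fun p _ => ?_
    split_ifs with hp
    · rw [smul_add, AddChar.map_add_eq_mul]
      have h4 : χ (e p • modl q C • u) = 1 := by
        rw [← mul_smul, AddChar.map_nsmul_eq_pow]
        refine char_pow ((hord χ hχ).trans ?_) u
        have h5 : modl q univ = modl q (univ.erase p) * q p :=
          (Finset.prod_erase_mul univ q (mem_univ p)).symm
        rw [h5]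
        exact Nat.mul_dvd_mul (he p) (Finset.dvd_prod_of_mem _ hp)
      rw [h4, mul_one]
    · rfl
  rw [← h3, h1, h2]

end grp

section primes

/-- the primes up to `2 r` -/
def PP (r : ℕ) : Finset ℕ := (range (2 * r + 1)).filter Nat.Prime

/-- the largest power of `p` which is at most `2 r` -/
def qq (r : ℕ) (p : {p // p ∈ PP r}) : ℕ := p.1 ^ Nat.log p.1 (2 * r)

lemma PP_prime {r : ℕ} (p : {p // p ∈ PP r}) : p.1.Prime := by
  exact (mem_filter.mp p.2).2

lemma PP_le {r : ℕ} (p : {p // p ∈ PP r}) : p.1 ≤ 2 * r := by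
  have := mem_range.mp (mem_filter.mp p.2).1
  omega

lemma qq_coprime (r : ℕ) (p p' : {p // p ∈ PP r}) (h : p ≠ p') :
    Nat.Coprime (qq r p) (qq r p') := by
  refine Nat.Coprime.pow _ _ ?_
  exact (Nat.coprime_primes (PP_prime p) (PP_prime p')).mpr fun he => h (Subtype.ext he)

lemma qq_le (r : ℕ) (p : {p // p ∈ PP r}) : qq r p ≤ 2 ^ (Nat.log 2 r + 2) := by
  have h1 : r ≠ 0 := by
    have := PP_le p
    have := (PP_prime p).two_le
    omega
  have h2 : qq r p ≤ 2 * r := Nat.pow_log_le_self _ (by omega)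
  have h3 := Nat.lt_pow_succ_log_self (b := 2) (by norm_num) r
  rw [Nat.succ_eq_add_one] at h3
  have h4 : 2 ^ (Nat.log 2 r + 2) = 2 * 2 ^ (Nat.log 2 r + 1) := by ring
  omega

lemma qq_pos (r : ℕ) (p : {p // p ∈ PP r}) : 0 < qq r p := pow_pos (PP_prime p).pos _

variable {Γ : Type*} [AddCommGroup Γ] [Fintype Γ]

/-- **Certificates in abelian groups.** -/
theorem cert_grp {r : ℕ} (f : Γ → Bool) (hr : (active f).card ≤ r) (z : Γ) :
    ∃ C : Finset {p // p ∈ PP r}, C.card ≤ (Nat.log 2 r + 1) ^ 3 ∧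
      ∀ u, f (z + modl (qq r) C • u) = f z := by
  classical
  refine cert_abs f (qq r) (qq_coprime r) (fun χ hχ => ?_) (fun χ hχ => ?_) z
  · have h1 := (totient_le_card_active hχ).trans hr
    have h0 : orderOf χ ≠ 0 := (orderOf_pos χ).ne'
    rw [← Nat.prod_factorization_pow_eq_self h0]
    rw [Finsupp.prod, Nat.support_factorization]
    refine Finset.prod_dvd_of_isRelPrime ?_ ?_
    · intro p hp p' hp' hne
      rw [Finset.mem_coe] at hp hp'
      exact Nat.coprime_iff_isRelPrime.mp <| Nat.Coprime.pow _ _ <|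
        (Nat.coprime_primes (Nat.prime_of_mem_primeFactors hp)
          (Nat.prime_of_mem_primeFactors hp')).mpr hne
    · intro p hp
      have hpp := Nat.prime_of_mem_primeFactors hp
      have hle := prime_pow_le hpp h1 h0 (Nat.ordProj_dvd (orderOf χ) p)
      have hpos : 1 ≤ (orderOf χ).factorization p :=
        hpp.factorization_pos_of_dvd h0 (Nat.dvd_of_mem_primeFactors hp)
      have hpr : p ≤ 2 * r := by
        refine le_trans ?_ hle
        calc p = p ^ 1 := (pow_one p).symm
          _ ≤ _ := Nat.pow_le_pow_right hpp.pos hpos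
      have hmem : p ∈ PP r := by
        rw [PP, mem_filter, mem_range]
        exact ⟨by omega, hpp⟩
      refine dvd_trans ?_ (Finset.dvd_prod_of_mem (qq r) (mem_univ (⟨p, hmem⟩ : {p // p ∈ PP r})))
      refine pow_dvd_pow _ ?_
      exact Nat.le_log_of_pow_le hpp.one_lt hle
  · have h1 := (totient_le_card_active hχ).trans hr
    have h0 : orderOf χ ≠ 0 := (orderOf_pos χ).ne'
    refine le_trans ?_ (card_primeFactors_le h0 h1)
    refine Finset.card_le_card_of_injOn (fun p => p.1) ?_ (Subtype.val_injective.injOn)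
    intro p hp
    rw [Finset.mem_coe, mem_filter] at hp
    rw [Finset.mem_coe, Nat.mem_primeFactors]
    refine ⟨PP_prime p, ?_, h0⟩
    by_contra hcon
    exact hp.2 (Nat.Coprime.pow_left _ ((Nat.Prime.coprime_iff_not_dvd (PP_prime p)).mpr hcon))

lemma modl_le {r : ℕ} (C : Finset {p // p ∈ PP r}) :
    modl (qq r) C ≤ 2 ^ ((Nat.log 2 r + 2) * C.card) := by
  calc modl (qq r) C ≤ ∏ _p ∈ C, 2 ^ (Nat.log 2 r + 2) :=
        Finset.prod_le_prod' fun p _ => qq_le r p
    _ = _ := by rw [Finset.prod_const, ← pow_mul]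

lemma modl_pos {r : ℕ} (C : Finset {p // p ∈ PP r}) : 0 < modl (qq r) C :=
  Finset.prod_pos fun p _ => qq_pos r p

end primes

end Pool.Agent.Q174.CY
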