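import Pool.Agent.Q174.CY.Cert

/-!
# Graphs with a commutative group of automorphisms with few orbits
-/

set_option autoImplicit false

namespace Pool.Agent.Q174.CY

open Finset

lemma rank_fact {X Y : Type*} [Fintype X] [Fintype Y] (A : Matrix X Y ℝ) {r : ℕ}
    (hr : A.rank = r) :
    ∃ (u : Fin r → X → ℝ) (v : Fin r → Y → ℝ), ∀ x y, A x y = ∑ k, u k x * v k y := by
  classical
  have h1 : A.rank = Module.finrank ℝ (Submodule.span ℝ (Set.range A.col)) :=
    A.rank_eq_finrank_span_cols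
  set W := Submodule.span ℝ (Set.range A.col) with hW
  rw [h1] at hr
  subst hr
  set b := Module.finBasis ℝ W with hb
  have hmem : ∀ y, A.col y ∈ W := fun y => Submodule.subset_span ⟨y, rfl⟩
  refine ⟨fun k x => (b k : X → ℝ) x, fun k y => b.repr ⟨A.col y, hmem y⟩ k, fun x y => ?_⟩
  have h2 := b.sum_repr ⟨A.col y, hmem y⟩
  have h3 := congrArg (fun w : W => (w : X → ℝ) x) h2
  simp only [Submodule.coe_sum, Submodule.coe_smul, Finset.sum_apply, Pi.smul_apply,
    smul_eq_mul] at h3
  have h4 : A.col y x = A x y := rfl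
  rw [← h4, ← h3]
  exact Finset.sum_congr rfl fun k _ => mul_comm _ _

/-- the commutative group generated by commuting elements, as an additive group -/
lemma closure_repr {K : Type} [Group K] [Finite K] {d : ℕ} (σ : Fin d → K)
    (hc : ∀ i j, σ i * σ j = σ j * σ i) :
    ∃ (Γ : Type) (_ : AddCommGroup Γ) (_ : Fintype Γ) (φ : Γ → K),
      (∀ a b, φ (a + b) = φ a * φ b) ∧ φ 0 = 1 ∧
      (∀ a, φ a ∈ Subgroup.closure (Set.range σ)) ∧
      (∀ g ∈ Subgroup.closure (Set.range σ), ∃ a, φ a = g) ∧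
      ∃ s : Fin d → Γ, (∀ i, φ (s i) = σ i) ∧
      ∀ a : Γ, ∃ n : Fin d → ℤ, a = ∑ i, n i • s i := by
  have hcomm := Subgroup.isMulCommutative_closure (k := Set.range σ)
    (by rintro _ ⟨i, rfl⟩ _ ⟨j, rfl⟩; exact hc i j)
  let inst : CommGroup (Subgroup.closure (Set.range σ)) :=
    { (inferInstance : Group (Subgroup.closure (Set.range σ))) with
      mul_comm := fun a b => hcomm.is_comm.comm a b }
  have hfin : Finite (Additive (Subgroup.closure (Set.range σ))) :=
    inferInstanceAs (Finite (Subgroup.closure (Set.range σ)))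
  refine ⟨Additive (Subgroup.closure (Set.range σ)), Additive.addCommGroup, Fintype.ofFinite _,
    fun a => (a.toMul : K), fun _ _ => rfl, rfl, fun a => a.toMul.2,
    fun g hg => ⟨Additive.ofMul ⟨g, hg⟩, rfl⟩,
    fun i => Additive.ofMul ⟨σ i, Subgroup.subset_closure ⟨i, rfl⟩⟩, fun _ => rfl, ?_⟩
  set s : Fin d → Additive (Subgroup.closure (Set.range σ)) :=
    fun i => Additive.ofMul ⟨σ i, Subgroup.subset_closure ⟨i, rfl⟩⟩ with hs
  have key : ∀ g (hg : g ∈ Subgroup.closure (Set.range σ)), ∃ n : Fin d → ℤ,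
      (Additive.ofMul (⟨g, hg⟩ : Subgroup.closure (Set.range σ))) = ∑ i, n i • s i := by
    intro g hg
    induction hg using Subgroup.closure_induction with
    | mem x hx =>
      obtain ⟨i, rfl⟩ := hx
      refine ⟨Pi.single i 1, ?_⟩
      rw [Finset.sum_eq_single i]
      · rw [Pi.single_eq_same, one_smul]
      · intro j _ hj
        rw [Pi.single_eq_of_ne hj, zero_smul]
      · intro h
        exact absurd (mem_univ i) h
    | one =>
      refine ⟨0, ?_⟩
      simp only [Pi.zero_apply, zero_smul, Finset.sum_const_zero]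
      rfl
    | mul x y hx hy ihx ihy =>
      obtain ⟨n, hn⟩ := ihx
      obtain ⟨m, hm⟩ := ihy
      refine ⟨n + m, ?_⟩
      simp only [Pi.add_apply, add_smul, Finset.sum_add_distrib]
      rw [← hn, ← hm]
      rfl
    | inv x hx ihx =>
      obtain ⟨n, hn⟩ := ihx
      refine ⟨-n, ?_⟩
      simp only [Pi.neg_apply, neg_smul, Finset.sum_neg_distrib]
      rw [← hn]
      rfl
  intro a
  exact key _ a.toMul.2

open Classical in
lemma colorable_abs {V : Type} [Fintype V] (G : SimpleGraph V) {d k : ℕ} {Γ : Type}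
    [AddCommGroup Γ] [Fintype Γ] (act : Γ → V → V)
    (hadd : ∀ a c v, act (a + c) v = act a (act c v)) (hzero : ∀ v, act 0 v = v)
    (hadj : ∀ a u v, G.Adj (act a u) (act a v) ↔ G.Adj u v) (s : Fin d → Γ)
    (hrep : ∀ a : Γ, ∃ n : Fin d → ℤ, a = ∑ i, n i • s i) (b : Fin k → V)
    (horb : ∀ v, ∃ j, ∃ a, act a (b j) = v) :
    G.Colorable (k * 2 ^ (d * (Nat.log 2 (G.adjMatrix ℝ).rank + 2) ^ 4)) := by
  have hsub : ∀ a c u v, G.Adj (act a u) (act c v) ↔ G.Adj (act (a - c) u) v := by
    intro a c u v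
    rw [← hadj c (act (a - c) u) v, ← hadd, add_sub_cancel]
  set r := (G.adjMatrix ℝ).rank with hr
  obtain ⟨U, W, hUW⟩ := rank_fact (G.adjMatrix ℝ) hr.symm
  set f : Fin k → Γ → Bool := fun j a => decide (G.Adj (act a (b j)) (b j)) with hf
  have hcard : ∀ j, (active (f j)).card ≤ r := by
    intro j
    refine card_active_le (f j) (fun l a => U l (act a (b j))) (fun l a => W l (act a (b j))) ?_
    intro a c
    rw [← hUW, SimpleGraph.adjMatrix_apply]
    have h1 : f j (a - c) = decide (G.Adj (act a (b j)) (act c (b j))) := by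
      simp only [hf, hsub a c]
    rw [h1]
    by_cases h2 : G.Adj (act a (b j)) (act c (b j))
    · simp [h2]
    · simp [h2]
  have hM : ∀ j, ∃ M : ℕ, 0 < M ∧ M ≤ 2 ^ (Nat.log 2 r + 2) ^ 4 ∧
      ∀ w : Γ, ¬ G.Adj (act (M • w) (b j)) (b j) := by
    intro j
    obtain ⟨C, hC, hC'⟩ := cert_grp (f j) (hcard j) 0
    refine ⟨modl (qq r) C, modl_pos C, (modl_le C).trans ?_, fun w => ?_⟩
    · refine Nat.pow_le_pow_right (by norm_num) ?_
      calc (Nat.log 2 r + 2) * C.card ≤ (Nat.log 2 r + 2) * (Nat.log 2 r + 1) ^ 3 :=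
            Nat.mul_le_mul_left _ hC
        _ ≤ (Nat.log 2 r + 2) * (Nat.log 2 r + 2) ^ 3 :=
            Nat.mul_le_mul_left _ (Nat.pow_le_pow_left (by omega) 3)
        _ = _ := by ring
    · have h1 := hC' w
      rw [zero_add] at h1
      simp only [hf, hzero, G.loopless.irrefl, decide_false, decide_eq_false_iff_not] at h1
      exact h1
  choose M hM0 hMle hMadj using hM
  choose jj g hgv using horb
  choose n hn using fun v => hrep (g v)
  -- the colouring
  have hlt : ∀ v i, (n v i % (M (jj v) : ℤ)).toNat < 2 ^ (Nat.log 2 r + 2) ^ 4 := by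
    intro v i
    have h1 : (0 : ℤ) < M (jj v) := by exact_mod_cast hM0 (jj v)
    have h2 := Int.emod_lt_of_pos (n v i) h1
    have h3 := Int.emod_nonneg (n v i) h1.ne'
    have h4 := hMle (jj v)
    omega
  have hcol : G.Coloring (Fin k × (Fin d → Fin (2 ^ (Nat.log 2 r + 2) ^ 4))) := by
    refine SimpleGraph.Coloring.mk
      (fun v => (jj v, fun i => ⟨(n v i % (M (jj v) : ℤ)).toNat, hlt v i⟩)) ?_
    intro u v huv heq
    rw [Prod.mk.injEq] at heq
    obtain ⟨h1, h2⟩ := heq
    have h3 : ∀ i, (M (jj u) : ℤ) ∣ n u i - n v i := by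
      intro i
      have h4 := congrFun h2 i
      rw [Fin.mk.injEq] at h4
      rw [← h1] at h4
      have h5 : (0 : ℤ) < M (jj u) := by exact_mod_cast hM0 (jj u)
      have h6 := Int.emod_nonneg (n u i) h5.ne'
      have h7 := Int.emod_nonneg (n v i) h5.ne'
      have h8 : n u i % (M (jj u) : ℤ) = n v i % (M (jj u) : ℤ) := by omega
      exact Int.ModEq.dvd (Int.ModEq.symm h8)
    choose w hw using h3
    have h5 : g u - g v = M (jj u) • ∑ i, w i • s i := by
      rw [hn u, hn v, ← Finset.sum_sub_distrib, Finset.smul_sum]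
      refine Finset.sum_congr rfl fun i _ => ?_
      rw [← sub_smul, hw i, mul_smul, natCast_zsmul]
    have h6 : act (g u) (b (jj u)) = u := hgv u
    have h7 : act (g v) (b (jj u)) = v := by rw [h1]; exact hgv v
    have h8 : G.Adj (act (g u) (b (jj u))) (act (g v) (b (jj u))) := by
      rw [h6, h7]
      exact huv
    rw [hsub, h5] at h8
    exact hMadj _ _ h8
  have h1 := hcol.colorable
  rw [Fintype.card_prod, Fintype.card_fin, Fintype.card_fun, Fintype.card_fin, Fintype.card_fin,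
    ← pow_mul, mul_comm _ d] at h1
  exact h1

open Classical in
/-- **Few orbits.** -/
theorem colorable_of_orbits {V : Type} [Fintype V] (G : SimpleGraph V) (d k : ℕ)
    (σ : Fin d → Equiv.Perm V) (b : Fin k → V) (hc : ∀ i j, σ i * σ j = σ j * σ i)
    (haut : ∀ i u v, G.Adj (σ i u) (σ i v) ↔ G.Adj u v)
    (horb : ∀ v, ∃ j, ∃ g ∈ Subgroup.closure (Set.range σ), g (b j) = v) :
    G.Colorable (k * 2 ^ (d * (Nat.log 2 (G.adjMatrix ℝ).rank + 2) ^ 4)) := by
  obtain ⟨Γ, _, _, φ, hadd, hzero, hmem, hsurj, s, -, hrep⟩ := closure_repr σ hc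
  have haut' : ∀ g ∈ Subgroup.closure (Set.range σ), ∀ u v, G.Adj (g u) (g v) ↔ G.Adj u v := by
    intro g hg
    induction hg using Subgroup.closure_induction with
    | mem x hx =>
      obtain ⟨i, rfl⟩ := hx
      exact haut i
    | one => exact fun u v => Iff.rfl
    | mul x y hx hy ihx ihy =>
      intro u v
      rw [Equiv.Perm.mul_apply, Equiv.Perm.mul_apply, ihx, ihy]
    | inv x hx ihx =>
      intro u v
      rw [← ihx (x⁻¹ u), ← Equiv.Perm.mul_apply, ← Equiv.Perm.mul_apply, mul_inv_cancel,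
        Equiv.Perm.one_apply, Equiv.Perm.one_apply]
  refine colorable_abs G (fun a v => φ a v) ?_ ?_ ?_ s hrep b ?_
  · intro a c v
    rw [hadd]
    rfl
  · intro v
    rw [hzero]
    rfl
  · exact fun a u v => haut' _ (hmem a) u v
  · intro v
    obtain ⟨j, g, hg, h⟩ := horb v
    obtain ⟨a, ha⟩ := hsurj g hg
    exact ⟨j, a, by rw [ha]; exact h⟩

end Pool.Agent.Q174.CY
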