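import Pool.Agent.Q174.CY.Orb

/-!
# Graphs with a group of automorphisms with few orbits: symmetric groups and quasirandom products
-/

set_option autoImplicit false

namespace Pool.Agent.Q174.CY

open Finset Equiv

/-- a function with `f 1 = false` vanishes on the differences of the classes of a partition of the
group into at most `2 ^ c` classes -/
def Cls {Γ : Type*} [Group Γ] (f : Γ → Bool) (c : ℕ) : Prop :=
  ∃ col : Γ → Fin (2 ^ c), ∀ g h, col g = col h → f (g⁻¹ * h) = false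

lemma cls_of {Γ : Type*} [Group Γ] {f : Γ → Bool} {c : ℕ} {Z : Type*} [Finite Z]
    (hZ : Nat.card Z ≤ 2 ^ c) (col : Γ → Z) (h : ∀ g h, col g = col h → f (g⁻¹ * h) = false) :
    Cls f c := by
  classical
  have hfin : Fintype Z := Fintype.ofFinite Z
  rw [Nat.card_eq_fintype_card] at hZ
  let e := (Fintype.equivFin Z).toEmbedding.trans (Fin.castLEEmb hZ)
  exact ⟨fun g => e (col g), fun g h' heq => h g h' (e.injective heq)⟩

lemma Cls.mono {Γ : Type*} [Group Γ] {f : Γ → Bool} {c c' : ℕ} (h : Cls f c) (hc : c ≤ c') :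
    Cls f c' := by
  obtain ⟨col, hcol⟩ := h
  exact ⟨fun g => Fin.castLE (Nat.pow_le_pow_right (by norm_num) hc) (col g),
    fun g h' heq => hcol g h' (Fin.castLE_injective _ heq)⟩

open Classical in
theorem colorable_orb {V Γ : Type} [Fintype V] [Group Γ] [MulAction Γ V] (G : SimpleGraph V)
    (hG : ∀ (g : Γ) u v, G.Adj (g • u) (g • v) ↔ G.Adj u v) {k c : ℕ} (b : Fin k → V)
    (hb : ∀ v, ∃ j, ∃ g : Γ, g • b j = v)
    (hcls : ∀ f : Γ → Bool, RankLE f (G.adjMatrix ℝ).rank → f 1 = false → Cls f c) :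
    G.Colorable (k * 2 ^ c) := by
  obtain ⟨U, W, hUW⟩ := rank_fact (G.adjMatrix ℝ) rfl
  choose j g hg using hb
  have hcol : ∀ i : Fin k, ∃ col : Γ → Fin (2 ^ c), ∀ g h, col g = col h →
      ¬ G.Adj (b i) ((g⁻¹ * h) • b i) := by
    intro i
    obtain ⟨col, hcol⟩ := hcls (fun z => decide (G.Adj (b i) (z • b i)))
      ⟨fun k a => U k (a⁻¹ • b i), fun k a => W k (a⁻¹ • b i), fun a c => by
        rw [← hUW, SimpleGraph.adjMatrix_apply]
        have h2 : G.Adj (b i) ((a * c⁻¹) • b i) ↔ G.Adj (a⁻¹ • b i) (c⁻¹ • b i) := by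
          rw [← hG a (a⁻¹ • b i) (c⁻¹ • b i), smul_inv_smul, mul_smul]
        simp only [decide_eq_true_eq, h2]⟩
      (by rw [one_smul]; simp)
    exact ⟨col, fun g h heq => by simpa using hcol g h heq⟩
  choose col hcol using hcol
  have h1 : G.Coloring (Fin k × Fin (2 ^ c)) := by
    refine SimpleGraph.Coloring.mk (fun v => (j v, col (j v) (g v))) ?_
    intro u v huv heq
    rw [Prod.mk.injEq] at heq
    obtain ⟨e1, e2⟩ := heq
    rw [← e1] at e2
    have h2 := hcol (j u) (g u) (g v) e2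
    apply h2
    have h3 := hg v
    rw [← e1] at h3
    rw [mul_smul, h3, ← hG (g u), smul_inv_smul, hg u]
    exact huv
  have h2 := h1.colorable
  rwa [Fintype.card_prod, Fintype.card_fin, Fintype.card_fin] at h2

/-- symmetric groups -/
theorem cls_sym {Ω : Type*} [Fintype Ω] [DecidableEq Ω] {f : Perm Ω → Bool} {r : ℕ}
    (hf : RankLE f r) (h1 : f 1 = false) : Cls f (6 * (Nat.log 2 r + 3) ^ 4) := by
  classical
  set t := Nat.log 2 r with ht
  set s := t + 3 with hs
  by_cases hinv : ∀ x σ, Perm.sign σ = 1 → f (x * σ) = f x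
  · refine (cls_of (c := 1) card_units_le (fun x : Perm Ω => Perm.sign x) fun g h hgh => ?_).mono ?_
    · have h2 := hinv 1 (g⁻¹ * h) (by
        rw [Perm.sign_mul, Perm.sign_inv, hgh]
        exact Int.units_mul_self _)
      rw [one_mul] at h2
      rw [h2, h1]
    · have : 1 ≤ s ^ 4 := Nat.one_le_pow _ _ (by omega)
      omega
  · push Not at hinv
    obtain ⟨x₀, σ₀, hσ₀, hne₀⟩ := hinv
    have hcardΩ := card_le_of_not_inv hf ⟨x₀, σ₀, hσ₀, hne₀⟩
    have hL : Fintype.card Ω ≤ 2 ^ s := by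
      have h3 := Nat.lt_pow_succ_log_self (b := 2) (by norm_num) r
      rw [Nat.succ_eq_add_one, ← ht] at h3
      have h4 : 2 ^ s = 4 * 2 ^ (t + 1) := by rw [hs]; ring
      have h5 : 1 ≤ 2 ^ (t + 1) := Nat.one_le_two_pow
      omega
    obtain ⟨C, hCcard, hC⟩ := cert_sym hf 1
    have hcc : C.card ≤ t ^ 2 * (6 * t + 2) := hCcard
    refine (cls_of (c := s * C.card + 1) (Z := ({ω // ω ∈ C} → Ω) × ℤˣ) ?_
      (fun x : Perm Ω => (fun ω : {ω // ω ∈ C} => x ω, Perm.sign x)) fun g h hgh => ?_).mono ?_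
    · rw [Nat.card_prod, Nat.card_eq_fintype_card, Fintype.card_fun, Fintype.card_coe, pow_succ,
        pow_mul]
      exact Nat.mul_le_mul (Nat.pow_le_pow_left hL _) card_units_le
    · rw [Prod.mk.injEq] at hgh
      have h2 := hC (g⁻¹ * h) (by
        rw [Perm.sign_mul, Perm.sign_inv, hgh.2]
        exact Int.units_mul_self _) (fun ω hω => by
          have h3 : g ω = h ω := congrFun hgh.1 ⟨ω, hω⟩
          rw [Perm.mul_apply, ← h3, ← Perm.mul_apply, inv_mul_cancel, Perm.one_apply])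
      rw [one_mul] at h2
      rw [h2, h1]
    · have h3 : C.card + 1 ≤ 6 * s ^ 3 := by
        have : t ^ 2 * (6 * t + 2) + 1 ≤ 6 * s ^ 3 := by
          rw [hs]
          nlinarith [Nat.zero_le t, Nat.zero_le (t ^ 2)]
        omega
      calc s * C.card + 1 ≤ s * C.card + s := by omega
        _ = s * (C.card + 1) := by ring
        _ ≤ s * (6 * s ^ 3) := Nat.mul_le_mul_left _ h3
        _ = 6 * s ^ 4 := by ring

/-- alternating groups -/
theorem cls_alt {Ω : Type*} [Fintype Ω] [DecidableEq Ω] {f : alternatingGroup Ω → Bool} {r : ℕ}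
    (hf : RankLE f r) (h1 : f 1 = false) : Cls f (6 * (Nat.log 2 r + 4) ^ 4) := by
  classical
  have h2 := cls_sym (extA_rank hf) (by
    have h3 : (1 : Perm Ω) ∈ alternatingGroup Ω := Subgroup.one_mem _
    simp only [extA, h3, dif_pos]
    exact h1)
  have h3 : Nat.log 2 (r + r) ≤ Nat.log 2 r + 1 := by
    rcases Nat.eq_zero_or_pos r with h0 | h0
    · subst h0; simp
    · rw [← two_mul, mul_comm, Nat.log_mul_base (by norm_num) (by omega)]
  obtain ⟨col, hcol⟩ := h2.mono (c' := 6 * (Nat.log 2 r + 4) ^ 4)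
    (Nat.mul_le_mul_left _ (Nat.pow_le_pow_left (by omega) 4))
  refine ⟨fun g => col g, fun g h heq => ?_⟩
  have h4 := hcol g h heq
  have hgh : (g : Perm Ω)⁻¹ * (h : Perm Ω) ∈ alternatingGroup Ω := (g⁻¹ * h).2
  simp only [extA, hgh, dif_pos] at h4
  exact h4

/-- products of quasirandom groups -/
theorem cls_prod {ι : Type} [DecidableEq ι] [Fintype ι] {K : ι → Type} [∀ i, Group (K i)]
    [∀ i, Finite (K i)] {f : (∀ i, K i) → Bool} {r a : ℕ} (hf : RankLE f r)
    (hK : ∀ i, Quasi a (K i)) (h1 : f 1 = false) : Cls f (a * (Nat.log 2 r + 1) ^ 4) := by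
  classical
  set t := Nat.log 2 r with ht
  have hlow : LowD t f := lowD_prod hf fun i => (hK i).1
  obtain ⟨C, hCcard, hC, hrel⟩ := certD hlow 1
  refine (cls_of (c := (t + 1) * a * C.card) (Z := ∀ i : {i // i ∈ C}, K i.1) ?_
    (fun x : ∀ i, K i => fun i : {i // i ∈ C} => x i.1) fun g h hgh => ?_).mono ?_
  · have hfin : ∀ i, Fintype (K i) := fun i => Fintype.ofFinite _
    rw [Nat.card_eq_fintype_card, Fintype.card_pi, pow_mul]
    refine (Finset.prod_le_pow_card (s := (univ : Finset {i // i ∈ C}))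
      (f := fun i => Fintype.card (K i.1)) (n := 2 ^ ((t + 1) * a)) fun i _ => ?_).trans ?_
    · obtain ⟨T, hiT, hT⟩ := hrel i.1 i.2
      obtain ⟨x', g, hg⟩ := relevant_of_minBad hT hiT
      rw [← Nat.card_eq_fintype_card]
      refine (card_le_of_relevant hf (hK i.1) hg).trans ?_
      rw [pow_mul]
      exact Nat.pow_le_pow_left (Nat.lt_pow_succ_log_self (by norm_num) r).le a
    · rw [Finset.card_univ, Fintype.card_coe]
  · have h2 := hC (g⁻¹ * h) fun i hi => by
      have h3 : g i = h i := congrFun hgh ⟨i, hi⟩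
      rw [Pi.mul_apply, Pi.inv_apply, h3, inv_mul_cancel, Pi.one_apply]
    rw [h2, h1]
  · have h3 : C.card ≤ (t + 1) ^ 3 := hCcard.trans (Nat.pow_le_pow_left (by omega) 3)
    calc (t + 1) * a * C.card ≤ (t + 1) * a * (t + 1) ^ 3 := Nat.mul_le_mul_left _ h3
      _ = _ := by ring

end Pool.Agent.Q174.CY
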