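import Pool.Agent.Q174.CY.Deg

/-!
# Commuting groups acting on a space of small dimension
-/

set_option autoImplicit false

namespace Pool.Agent.Q174.CY

open Finset

section dbl

variable {ι : Type*} [DecidableEq ι] {K : ι → Type*} [∀ i, Group (K i)] {V : Type*}
  [AddCommGroup V] [Module ℂ V]

/-- each noncommutative group doubles the dimension -/
theorem dbl (R : (∀ i, K i) →* Module.End ℂ V) (T : Finset ι) :
    ∀ W : Submodule ℂ V, FiniteDimensional ℂ W → W ≠ ⊥ →
      (∀ i ∈ T, ∀ k : K i, ∀ w ∈ W, R (Pi.mulSingle i k) w ∈ W) →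
      (∀ i ∈ T, ∀ w ∈ W, (∀ n ∈ commutator (K i), R (Pi.mulSingle i n) w = w) → w = 0) →
      2 ^ T.card ≤ Module.finrank ℂ W := by
  induction T using Finset.induction_on with
  | empty =>
    intro W _ hW _ _
    rw [Finset.card_empty, pow_zero]
    exact Submodule.one_le_finrank_iff.mpr hW
  | insert i T hi ih =>
    intro W hfin hW hinv hno
    -- a minimal invariant subspace
    set 𝒲 : Set (Submodule ℂ V) := {W' | W' ≤ W ∧ W' ≠ ⊥ ∧
      ∀ j ∈ T, ∀ k : K j, ∀ w ∈ W', R (Pi.mulSingle j k) w ∈ W'} with h𝒲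
    have hWmem : W ∈ 𝒲 := ⟨le_rfl, hW, fun j hj => hinv j (mem_insert_of_mem hj)⟩
    obtain ⟨W', hW'mem, hmin'⟩ := (measure fun W' : Submodule ℂ V =>
      Module.finrank ℂ W').wf.has_min 𝒲 ⟨W, hWmem⟩
    have hmin : ∀ W'' ∈ 𝒲, Module.finrank ℂ W' ≤ Module.finrank ℂ W'' := fun W'' h =>
      not_lt.mp (hmin' W'' h)
    obtain ⟨hle, hne, hT⟩ := hW'mem
    have hfin' : FiniteDimensional ℂ W' := Submodule.finiteDimensional_of_le hle
    have hcard := ih W' hfin' hne hT
      (fun j hj w hw => hno j (mem_insert_of_mem hj) w (hle hw))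
    -- commutation
    have hcomm : ∀ j ∈ T, ∀ (k : K j) (l : K i) (v : V),
        R (Pi.mulSingle j k) (R (Pi.mulSingle i l) v) =
        R (Pi.mulSingle i l) (R (Pi.mulSingle j k) v) := by
      intro j hj k l v
      have hji : j ≠ i := fun h => hi (h ▸ hj)
      have h1 := (Pi.mulSingle_commute hji k l).eq
      rw [← Module.End.mul_apply, ← Module.End.mul_apply, ← map_mul, ← map_mul, h1]
    have hinvert : ∀ (l : K i) (v : V), R (Pi.mulSingle i l⁻¹) (R (Pi.mulSingle i l) v) = v := by
      intro l v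
      rw [← Module.End.mul_apply, ← map_mul, ← Pi.mulSingle_mul, inv_mul_cancel,
        Pi.mulSingle_one, map_one, Module.End.one_apply]
    have hinvert' : ∀ (l : K i) (v : V), R (Pi.mulSingle i l) (R (Pi.mulSingle i l⁻¹) v) = v := by
      intro l v
      have := hinvert l⁻¹ v
      rwa [inv_inv] at this
    have hmapinv : ∀ l : K i, ∀ j ∈ T, ∀ k : K j, ∀ w ∈ W'.map (R (Pi.mulSingle i l)),
        R (Pi.mulSingle j k) w ∈ W'.map (R (Pi.mulSingle i l)) := by
      rintro l j hj k _ ⟨w, hw, rfl⟩
      exact ⟨R (Pi.mulSingle j k) w, hT j hj k w hw, (hcomm j hj k l w).symm⟩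
    have hmaple : ∀ l : K i, W'.map (R (Pi.mulSingle i l)) ≤ W := by
      rintro l _ ⟨w, hw, rfl⟩
      exact hinv i (mem_insert_self i T) l w (hle hw)
    by_cases hA : ∃ l : K i, W'.map (R (Pi.mulSingle i l)) ⊓ W' = ⊥
    · obtain ⟨l, hl⟩ := hA
      have hfin2 : FiniteDimensional ℂ (W'.map (R (Pi.mulSingle i l))) :=
        Submodule.finiteDimensional_of_le (hmaple l)
      have h1 := Submodule.finrank_sup_add_finrank_inf_eq (W'.map (R (Pi.mulSingle i l))) W'
      rw [hl, finrank_bot, add_zero] at h1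
      have h2 : Module.finrank ℂ (W'.map (R (Pi.mulSingle i l))) = Module.finrank ℂ W' :=
        (Submodule.equivMapOfInjective _ (fun a b hab => by
          rw [← hinvert l a, ← hinvert l b, hab]) W').symm.finrank_eq
      have h3 : Module.finrank ℂ ↥(W'.map (R (Pi.mulSingle i l)) ⊔ W') ≤ Module.finrank ℂ W :=
        Submodule.finrank_mono (sup_le (hmaple l) hle)
      rw [Finset.card_insert_of_notMem hi, pow_succ]
      omega
    · exfalso
      push Not at hA
      -- `W'` is invariant under `K i`
      have hWi : ∀ (l : K i), ∀ w ∈ W', R (Pi.mulSingle i l) w ∈ W' := by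
        intro l w hw
        have h1 : W'.map (R (Pi.mulSingle i l⁻¹)) ⊓ W' ∈ 𝒲 := by
          refine ⟨inf_le_right.trans hle, hA l⁻¹, fun j hj k v hv => ?_⟩
          exact ⟨hmapinv l⁻¹ j hj k v hv.1, hT j hj k v hv.2⟩
        have h2 : W'.map (R (Pi.mulSingle i l⁻¹)) ⊓ W' = W' :=
          Submodule.eq_of_le_of_finrank_le inf_le_right (hmin _ h1)
        have h3 : w ∈ W'.map (R (Pi.mulSingle i l⁻¹)) ⊓ W' := by rw [h2]; exact hw
        obtain ⟨⟨w', hw', rfl⟩, _⟩ := h3
        rw [hinvert']
        exact hw'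
      -- scalars
      have hscal : ∀ l : K i, ∃ c : ℂ, ∀ w ∈ W', R (Pi.mulSingle i l) w = c • w := by
        intro l
        have hnt : Nontrivial W' := Submodule.nontrivial_iff_ne_bot.mpr hne
        set g : Module.End ℂ W' := (R (Pi.mulSingle i l)).restrict (hWi l) with hg
        obtain ⟨c, hc⟩ := Module.End.exists_eigenvalue g
        obtain ⟨v, hv⟩ := hc.exists_hasEigenvector
        have hv1 : R (Pi.mulSingle i l) (v : V) = c • (v : V) := by
          have h1 := hv.apply_eq_smul
          have h2 := congrArg (fun z : W' => (z : V)) h1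
          simpa [hg, LinearMap.restrict_apply] using h2
        refine ⟨c, ?_⟩
        set E : Submodule ℂ V := W' ⊓ LinearMap.ker (R (Pi.mulSingle i l) - c • LinearMap.id)
          with hE
        have hmemE : ∀ w, w ∈ E ↔ w ∈ W' ∧ R (Pi.mulSingle i l) w = c • w := by
          intro w
          rw [hE, Submodule.mem_inf, LinearMap.mem_ker, LinearMap.sub_apply,
            LinearMap.smul_apply, LinearMap.id_apply, sub_eq_zero]
        have h1 : E ∈ 𝒲 := by
          refine ⟨inf_le_left.trans hle, ?_, fun j hj k w hw => ?_⟩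
          · intro hbot
            have h2 : (v : V) ∈ E := (hmemE _).mpr ⟨v.2, hv1⟩
            rw [hbot, Submodule.mem_bot] at h2
            exact hv.2 (Subtype.ext h2)
          · rw [hmemE] at hw ⊢
            refine ⟨hT j hj k w hw.1, ?_⟩
            rw [← hcomm j hj, hw.2, map_smul]
        have h2 : E = W' := Submodule.eq_of_le_of_finrank_le inf_le_left (hmin _ h1)
        intro w hw
        rw [← h2] at hw
        exact ((hmemE w).mp hw).2
      choose c hc using hscal
      obtain ⟨w₀, hw₀, hw₀ne⟩ := Submodule.exists_mem_ne_zero_of_ne_bot hne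
      have hcc : ∀ l, c l * c l⁻¹ = 1 := by
        intro l
        have h1 := hinvert' l w₀
        rw [hc _ w₀ hw₀, map_smul, hc _ w₀ hw₀, smul_smul] at h1
        have h2 : (c l⁻¹ * c l - 1) • w₀ = 0 := by rw [sub_smul, one_smul, h1, sub_self]
        have h3 := (smul_eq_zero.mp h2).resolve_right hw₀ne
        rw [mul_comm]
        exact sub_eq_zero.mp h3
      -- commutators act trivially
      let Z : Subgroup (K i) :=
        { carrier := {n | ∀ w ∈ W', R (Pi.mulSingle i n) w = w}
          mul_mem' := by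
            intro a b ha hb w hw
            rw [Pi.mulSingle_mul, map_mul, Module.End.mul_apply, hb w hw, ha w hw]
          one_mem' := by
            intro w hw
            rw [Pi.mulSingle_one, map_one, Module.End.one_apply]
          inv_mem' := by
            intro a ha w hw
            have h1 := hinvert a w
            rwa [ha w hw] at h1 }
      have hZ : commutator (K i) ≤ Z := by
        rw [commutator_def, Subgroup.commutator_le]
        intro a _ b _ w hw
        rw [commutatorElement_def, Pi.mulSingle_mul, Pi.mulSingle_mul, Pi.mulSingle_mul,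
          map_mul, map_mul, map_mul, Module.End.mul_apply, Module.End.mul_apply,
          Module.End.mul_apply, hc a _ (hWi b _ (hWi a⁻¹ _ (hWi b⁻¹ w hw))),
          hc b _ (hWi a⁻¹ _ (hWi b⁻¹ w hw)), hc a⁻¹ _ (hWi b⁻¹ w hw), hc b⁻¹ w hw,
          smul_smul, smul_smul, smul_smul]
        have h1 : c a * (c b * (c a⁻¹ * c b⁻¹)) = 1 := by
          calc c a * (c b * (c a⁻¹ * c b⁻¹)) = (c b * c b⁻¹) * (c a * c a⁻¹) := by ring
            _ = 1 := by rw [hcc, hcc, one_mul]
        have h2 : c a * c b * c a⁻¹ * c b⁻¹ = 1 := by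
          rw [← h1]; ring
        rw [h2, one_smul]
      exact hw₀ne (hno i (mem_insert_self i T) w₀ (hle hw₀) fun n hn => hZ hn w₀ hw₀)

end dbl

end Pool.Agent.Q174.CY
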