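import Pool.Agent.Q174.AF.Sens

/-!
# Boolean functions of low degree on a product space have small certificates
-/

set_option autoImplicit false

namespace Pool.Agent.Q174.CY

open Finset Polynomial Pool.Agent.Q174.AF

section cube

variable {ι : Type*} [DecidableEq ι]

/-- the Möbius coefficients -/
def mob (h : Finset ι → ℝ) (S : Finset ι) : ℝ := ∑ T ∈ S.powerset, (-1) ^ (S \ T).card * h T

lemma mob_sum (h : Finset ι → ℝ) (T : Finset ι) : h T = ∑ S ∈ T.powerset, mob h S := by
  have key : ∀ R ∈ T.powerset, (∑ S ∈ T.powerset, if R ⊆ S then (-1 : ℝ) ^ (S \ R).card else 0) =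
      if R = T then 1 else 0 := by
    intro R hR
    rw [mem_powerset] at hR
    have h1 := Finset.prod_add (fun i : ι => if i ∈ R then (1 : ℝ) else -1)
      (fun i => if i ∈ R then (0 : ℝ) else 1) T
    have h2 : ∏ i ∈ T, ((if i ∈ R then (1 : ℝ) else -1) + if i ∈ R then (0 : ℝ) else 1) =
        if R = T then 1 else 0 := by
      split_ifs with h
      · subst h
        exact Finset.prod_eq_one fun i hi => by simp [hi]
      · obtain ⟨i, hi, hi'⟩ : ∃ i ∈ T, i ∉ R := by
          by_contra hcon
          push Not at hcon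
          exact h (Finset.Subset.antisymm hR hcon)
        exact Finset.prod_eq_zero hi (by simp [hi'])
    rw [← h2, h1]
    refine Finset.sum_congr rfl fun S hS => ?_
    rw [mem_powerset] at hS
    split_ifs with h
    · have h3 : ∏ i ∈ T \ S, (if i ∈ R then (0 : ℝ) else 1) = 1 := by
        refine Finset.prod_eq_one fun i hi => ?_
        rw [mem_sdiff] at hi
        rw [if_neg (fun hh => hi.2 (h hh))]
      rw [h3, mul_one]
      have h4 : ∏ i ∈ S, (if i ∈ R then (1 : ℝ) else -1) = ∏ i ∈ S \ R, (-1 : ℝ) := by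
        rw [← Finset.prod_sdiff h]
        have h5 : ∏ i ∈ R, (if i ∈ R then (1 : ℝ) else -1) = 1 :=
          Finset.prod_eq_one fun i hi => by simp [hi]
        rw [h5, mul_one]
        refine Finset.prod_congr rfl fun i hi => ?_
        rw [mem_sdiff] at hi
        rw [if_neg hi.2]
      rw [h4, Finset.prod_const]
    · obtain ⟨i, hi, hi'⟩ : ∃ i ∈ R, i ∉ S := by
        by_contra hcon
        push Not at hcon
        exact h hcon
      rw [Finset.prod_eq_zero (s := T \ S) (i := i) (mem_sdiff.mpr ⟨hR hi, hi'⟩) (by simp [hi]),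
        mul_zero]
  symm
  calc ∑ S ∈ T.powerset, mob h S
      = ∑ S ∈ T.powerset, ∑ R ∈ T.powerset,
          h R * (if R ⊆ S then (-1 : ℝ) ^ (S \ R).card else 0) := by
        refine Finset.sum_congr rfl fun S hS => ?_
        rw [mem_powerset] at hS
        unfold mob
        apply Finset.sum_subset_zero_on_sdiff (Finset.powerset_mono.mpr hS)
        · intro R hR
          rw [mem_sdiff, mem_powerset, mem_powerset] at hR
          rw [if_neg hR.2, mul_zero]
        · intro R hR
          rw [mem_powerset] at hR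
          rw [if_pos hR, mul_comm]
    _ = ∑ R ∈ T.powerset, h R * ∑ S ∈ T.powerset,
          (if R ⊆ S then (-1 : ℝ) ^ (S \ R).card else 0) := by
        rw [Finset.sum_comm]
        simp_rw [Finset.mul_sum]
    _ = ∑ R ∈ T.powerset, h R * (if R = T then 1 else 0) :=
        Finset.sum_congr rfl fun R hR => by rw [key R hR]
    _ = h T := by simp

lemma mob_add (h₁ h₂ : Finset ι → ℝ) (S : Finset ι) :
    mob (fun T => h₁ T + h₂ T) S = mob h₁ S + mob h₂ S := by
  unfold mob
  rw [← Finset.sum_add_distrib]
  exact Finset.sum_congr rfl fun T _ => by ring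

lemma mob_finset_sum {κ : Type*} (s : Finset κ) (h : κ → Finset ι → ℝ) (S : Finset ι) :
    mob (fun T => ∑ k ∈ s, h k T) S = ∑ k ∈ s, mob (h k) S := by
  unfold mob
  rw [Finset.sum_comm]
  exact Finset.sum_congr rfl fun T _ => by rw [Finset.mul_sum]

/-- a function of `T ∩ J` has no Möbius coefficients outside of `J` -/
lemma mob_junta {h : Finset ι → ℝ} {J : Finset ι} (hJ : ∀ T T', T ∩ J = T' ∩ J → h T = h T')
    {S : Finset ι} (hS : ¬ S ⊆ J) : mob h S = 0 := by
  obtain ⟨i, hi, hi'⟩ : ∃ i ∈ S, i ∉ J := by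
    by_contra hcon
    push Not at hcon
    exact hS hcon
  unfold mob
  rw [← Finset.insert_erase hi, Finset.sum_powerset_insert (Finset.notMem_erase i S),
    ← Finset.sum_add_distrib]
  refine Finset.sum_eq_zero fun T hT => ?_
  rw [mem_powerset] at hT
  have hiT : i ∉ T := fun h => Finset.notMem_erase i S (hT h)
  have h1 : h (insert i T) = h T := by
    apply hJ
    rw [Finset.insert_inter_of_notMem hi']
  have h2 : insert i (S.erase i) \ T = insert i (S.erase i \ T) := by
    ext j
    simp only [mem_sdiff, mem_insert]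
    constructor
    · rintro ⟨h | h, h'⟩
      · exact Or.inl h
      · exact Or.inr ⟨h, h'⟩
    · rintro (h | ⟨h, h'⟩)
      · exact ⟨Or.inl h, by rw [h]; exact hiT⟩
      · exact ⟨Or.inr h, h'⟩
  have h3 : insert i (S.erase i) \ insert i T = S.erase i \ T := by
    ext j
    simp only [mem_sdiff, mem_insert, mem_erase]
    tauto
  rw [h1, h2, h3, Finset.card_insert_of_notMem (by simp)]
  ring

variable [Fintype ι]

/-- sensitivity at a point is at most the square of the degree -/
theorem sens_deg {d : ℕ} {h : Finset ι → ℝ} (h01 : ∀ T, h T = 0 ∨ h T = 1)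
    (hdeg : ∀ S, d < S.card → mob h S = 0) (hs : ∀ j, h {j} ≠ h ∅) : Fintype.card ι ≤ d ^ 2 := by
  classical
  have hc := mob_sum h
  -- values of the polynomial
  have hq : ∀ θ ∈ Set.Icc (0 : ℝ) 1,
      |2 * (∑ S : Finset ι, mob h S * θ ^ S.card) - 1| ≤ 1 := by
    intro θ hθ
    rw [← expand hc θ]
    have h1 : ∀ T : Finset ι, 0 ≤ θ ^ T.card * (1 - θ) ^ (Tᶜ).card := fun T =>
      mul_nonneg (pow_nonneg hθ.1 _) (pow_nonneg (by linarith [hθ.2]) _)
    have h2 : 0 ≤ ∑ T : Finset ι, h T * (θ ^ T.card * (1 - θ) ^ (Tᶜ).card) := by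
      refine Finset.sum_nonneg fun T _ => mul_nonneg ?_ (h1 T)
      rcases h01 T with h | h <;> rw [h] <;> norm_num
    have h3 : ∑ T : Finset ι, h T * (θ ^ T.card * (1 - θ) ^ (Tᶜ).card) ≤ 1 := by
      refine (Finset.sum_le_sum fun T _ => ?_).trans (weights (ι := ι) θ).le
      rcases h01 T with h | h <;> rw [h]
      · rw [zero_mul]; exact h1 T
      · rw [one_mul]
    rw [abs_le]
    constructor <;> linarith
  set Q : ℝ[X] := ∑ S : Finset ι, C (mob h S) * X ^ S.card with hQ
  have hQev : ∀ θ, Q.eval θ = ∑ S : Finset ι, mob h S * θ ^ S.card := by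
    intro θ
    rw [hQ, eval_finsetSum]
    exact Finset.sum_congr rfl fun S _ => by simp
  have hdegQ : Q.natDegree ≤ d := by
    rw [hQ]
    refine natDegree_sum_le_of_forall_le _ _ fun S _ => ?_
    by_cases hS : d < S.card
    · rw [hdeg S hS]
      simp
    · exact (natDegree_C_mul_X_pow_le _ _).trans (not_lt.mp hS)
  set P : ℝ[X] := C 2 * Q.comp (C (1 / 2) * (1 - X)) - 1 with hP
  have hPdeg : P.degree ≤ d := by
    rw [← natDegree_le_iff_degree_le]
    have h1 : (Q.comp (C (1 / 2) * (1 - X))).natDegree ≤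
        Q.natDegree * (C (1 / 2 : ℝ) * (1 - X)).natDegree := natDegree_comp_le
    have h2 : (C (1 / 2 : ℝ) * (1 - X)).natDegree ≤ 1 := by
      refine (natDegree_C_mul_le _ _).trans ?_
      refine (natDegree_sub_le _ _).trans ?_
      simp
    rw [hP]
    refine (natDegree_sub_le _ _).trans (max_le ?_ (by simp))
    refine (natDegree_C_mul_le _ _).trans ?_
    calc _ ≤ Q.natDegree * (C (1 / 2 : ℝ) * (1 - X)).natDegree := h1
      _ ≤ d * 1 := Nat.mul_le_mul hdegQ h2
      _ = d := mul_one d
  have hPb : ∀ x ∈ Set.Icc (-1 : ℝ) 1, |P.eval x| ≤ 1 := by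
    intro x hx
    rw [hP]
    simp only [eval_sub, eval_mul, eval_C, eval_comp, eval_one, eval_X]
    rw [hQev]
    apply hq
    constructor <;> linarith [hx.1, hx.2]
  have hM := markov hPdeg hPb
  have hder : (derivative P).eval 1 = - (derivative Q).eval 0 := by
    rw [hP, derivative_sub, derivative_C_mul, derivative_comp]
    simp only [derivative_mul, derivative_C, zero_mul, derivative_sub, derivative_one,
      derivative_X, zero_sub, zero_add, eval_mul, eval_C, eval_neg, eval_one, eval_sub, eval_X,
      sub_self, mul_zero, eval_comp, sub_zero]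
    ring
  have hQ0 : (derivative Q).eval 0 = ∑ S : Finset ι, if S.card = 1 then mob h S else 0 := by
    rw [hQ, derivative_sum, eval_finsetSum]
    refine Finset.sum_congr rfl fun S _ => ?_
    rw [derivative_C_mul_X_pow, eval_mul, eval_C, eval_pow, eval_X]
    rcases Nat.lt_trichotomy S.card 1 with h | h | h
    · have : S.card = 0 := by omega
      simp [this]
    · simp [h]
    · rw [if_neg (by omega), zero_pow (by omega), mul_zero]
  have hsum : ∑ S : Finset ι, (if S.card = 1 then mob h S else 0) = ∑ j : ι, mob h {j} := by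
    rw [← Finset.sum_filter]
    have h1 : (univ.filter fun S : Finset ι => S.card = 1) =
        univ.image (fun j : ι => ({j} : Finset ι)) := by
      ext S
      simp only [mem_filter, mem_univ, true_and, mem_image]
      constructor
      · intro h2
        obtain ⟨j, rfl⟩ := card_eq_one.mp h2
        exact ⟨j, rfl⟩
      · rintro ⟨j, rfl⟩
        exact card_singleton j
    rw [h1, Finset.sum_image]
    intro i _ j _ hij
    exact Finset.singleton_injective hij
  have hcj : ∀ j, mob h {j} = h {j} - h ∅ := by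
    intro j
    rw [hc {j}, hc ∅, show ({j} : Finset ι) = insert j ∅ by simp,
      Finset.sum_powerset_insert (by simp)]
    simp
  have hfin : |∑ j : ι, mob h {j}| = Fintype.card ι := by
    rcases h01 ∅ with h0 | h0
    · have h2 : ∀ j, mob h {j} = 1 := by
        intro j
        have h3 := hs j
        rw [hcj, h0]
        rcases h01 {j} with h4 | h4
        · rw [h0, h4] at h3
          exact absurd rfl h3
        · rw [h4, sub_zero]
      simp [h2]
    · have h2 : ∀ j, mob h {j} = -1 := by
        intro j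
        have h3 := hs j
        rw [hcj, h0]
        rcases h01 {j} with h4 | h4
        · rw [h4, zero_sub]
        · rw [h0, h4] at h3
          exact absurd rfl h3
      simp [h2]
  rw [hder, abs_neg, hQ0, hsum, hfin] at hM
  exact_mod_cast hM

end cube

section prod

variable {ι : Type*} [DecidableEq ι] [Fintype ι] {X : Type*}

/-- `y` on `T` and `x` elsewhere -/
def mix (x y : ι → X) (T : Finset ι) : ι → X := fun i => if i ∈ T then y i else x i

/-- `F` is a sum of real functions each of which depends on at most `t` coordinates -/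
def Low (t : ℕ) (F : (ι → X) → Bool) : Prop :=
  ∃ g : Finset ι → (ι → X) → ℝ, (∀ S z w, (∀ i ∈ S, z i = w i) → g S z = g S w) ∧
    ∀ z, (if F z then (1 : ℝ) else 0) = ∑ S ∈ univ.filter (fun S : Finset ι => S.card ≤ t), g S z

/-- changing the coordinates in `T` can change the value -/
def Bad (F : (ι → X) → Bool) (x : ι → X) (T : Finset ι) : Prop := ∃ y, F (mix x y T) ≠ F x

def MinBad (F : (ι → X) → Bool) (x : ι → X) (T : Finset ι) : Prop :=
  Bad F x T ∧ ∀ T' ⊂ T, ¬ Bad F x T'

omit [Fintype ι] in
lemma mix_empty (x y : ι → X) : mix x y ∅ = x := by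
  funext i
  simp [mix]

omit [Fintype ι] in
lemma not_bad_empty (F : (ι → X) → Bool) (x : ι → X) : ¬ Bad F x ∅ := by
  rintro ⟨y, hy⟩
  rw [mix_empty] at hy
  exact hy rfl

omit [Fintype ι] in
lemma exists_minBad {F : (ι → X) → Bool} {x : ι → X} {T : Finset ι} (h : Bad F x T) :
    ∃ T' ⊆ T, MinBad F x T' := by
  classical
  induction T using Finset.strongInduction with
  | H T ih =>
    by_cases h1 : ∀ T' ⊂ T, ¬ Bad F x T'
    · exact ⟨T, Finset.Subset.refl _, h, h1⟩
    · push Not at h1
      obtain ⟨T', h2, h3⟩ := h1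
      obtain ⟨T'', h4, h5⟩ := ih T' h2 h3
      exact ⟨T'', h4.trans h2.1, h5⟩

lemma minBad_card {t : ℕ} {F : (ι → X) → Bool} (hF : Low t F) {x : ι → X} {T : Finset ι}
    (h : MinBad F x T) : T.card ≤ t := by
  classical
  obtain ⟨g, hg, hsum⟩ := hF
  obtain ⟨⟨y, hy⟩, hmin⟩ := h
  by_contra hT
  push Not at hT
  set h : Finset ι → ℝ := fun S => if F (mix x y S) then (1 : ℝ) else 0 with hh
  have h1 : mob h T = 0 := by
    have h2 : h = fun S => ∑ R ∈ univ.filter (fun S : Finset ι => S.card ≤ t),
        g R (mix x y S) := funext fun S => hsum _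
    rw [h2, mob_finset_sum]
    refine Finset.sum_eq_zero fun R hR => ?_
    rw [mem_filter] at hR
    refine mob_junta (J := R) ?_ (fun hsub => ?_)
    · intro S S' hSS
      refine hg R _ _ fun i hi => ?_
      unfold mix
      have : i ∈ S ↔ i ∈ S' := by
        have := Finset.ext_iff.mp hSS i
        simpa [hi] using this
      simp only [this]
    · have := Finset.card_le_card hsub
      omega
  have hne : T.Nonempty := by
    rw [Finset.nonempty_iff_ne_empty]
    rintro rfl
    exact not_bad_empty F x ⟨y, hy⟩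
  have h3 : mob h T = h T - h ∅ := by
    have h4 := sum_neg_one T hne
    have h5 : ∑ S ∈ T.powerset, (-1 : ℝ) ^ (T \ S).card * h ∅ = 0 := by
      rw [← Finset.sum_mul, h4, zero_mul]
    have h6 : mob h T - ∑ S ∈ T.powerset, (-1 : ℝ) ^ (T \ S).card * h ∅ = h T - h ∅ := by
      unfold mob
      rw [← Finset.sum_sub_distrib, Finset.sum_eq_single T]
      · simp
      · intro S hS hST
        rw [mem_powerset] at hS
        have h7 : h S = h ∅ := by
          have h8 := hmin S (Finset.ssubset_iff_subset_ne.mpr ⟨hS, hST⟩)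
          unfold Bad at h8
          push Not at h8
          simp only [hh, h8 y, mix_empty]
        rw [h7, sub_self]
      · intro h7
        exact absurd (Finset.mem_powerset_self T) h7
    rw [h5, sub_zero] at h6
    exact h6
  rw [h1] at h3
  apply hy
  simp only [hh, mix_empty] at h3
  by_cases h8 : F (mix x y T) = true <;> by_cases h9 : F x = true
  · rw [h8, h9]
  · simp [h8, h9] at h3
  · simp [h8, h9] at h3
  · rw [Bool.not_eq_true] at h8 h9
    rw [h8, h9]

/-- disjoint bad sets -/
lemma bad_family {t : ℕ} {F : (ι → X) → Bool} (hF : Low t F) {x : ι → X}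
    (𝓕 : Finset (Finset ι)) (hbad : ∀ T ∈ 𝓕, Bad F x T)
    (hdis : ∀ T ∈ 𝓕, ∀ T' ∈ 𝓕, T ≠ T' → Disjoint T T') : 𝓕.card ≤ t ^ 2 := by
  classical
  obtain ⟨g, hg, hsum⟩ := hF
  haveI : Nonempty (ι → X) := ⟨x⟩
  choose! y hy using hbad
  -- a common `Y`
  set Y : ι → X := fun i => if h : ∃ T ∈ 𝓕, i ∈ T then y h.choose i else x i with hY
  have hYT : ∀ T ∈ 𝓕, ∀ i ∈ T, Y i = y T i := by
    intro T hT i hi
    have h : ∃ T ∈ 𝓕, i ∈ T := ⟨T, hT, hi⟩
    have h1 : h.choose = T := by
      by_contra hne
      exact Finset.disjoint_left.mp (hdis _ h.choose_spec.1 _ hT hne) h.choose_spec.2 hi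
    simp only [hY, dif_pos h, h1]
  have hmix : ∀ T ∈ 𝓕, mix x Y T = mix x (y T) T := by
    intro T hT
    funext i
    unfold mix
    split_ifs with hi
    · exact hYT T hT i hi
    · rfl
  set U : Finset {T // T ∈ 𝓕} → Finset ι := fun J => J.biUnion fun T => T.1 with hU
  set h : Finset {T // T ∈ 𝓕} → ℝ := fun J => if F (mix x Y (U J)) then (1 : ℝ) else 0 with hh
  have h1 : Fintype.card {T // T ∈ 𝓕} ≤ t ^ 2 := by
    refine sens_deg (h := h) (fun J => ?_) (fun J hJ => ?_) (fun j => ?_)
    · simp only [hh]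
      split_ifs
      · exact Or.inr rfl
      · exact Or.inl rfl
    · have h2 : h = fun J => ∑ R ∈ univ.filter (fun S : Finset ι => S.card ≤ t),
          g R (mix x Y (U J)) := funext fun S => hsum _
      rw [h2, mob_finset_sum]
      refine Finset.sum_eq_zero fun R hR => ?_
      rw [mem_filter] at hR
      refine mob_junta (J := univ.filter fun T : {T // T ∈ 𝓕} => ¬ Disjoint T.1 R) ?_
        (fun hsub => ?_)
      · intro S S' hSS
        refine hg R _ _ fun i hi => ?_
        unfold mix
        have : i ∈ U S ↔ i ∈ U S' := by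
          simp only [hU, mem_biUnion]
          constructor
          · rintro ⟨T, hT, hiT⟩
            have h3 : T ∈ S ∩ univ.filter fun T : {T // T ∈ 𝓕} => ¬ Disjoint T.1 R := by
              rw [mem_inter, mem_filter]
              exact ⟨hT, mem_univ _, fun hd => Finset.disjoint_left.mp hd hiT hi⟩
            rw [hSS, mem_inter] at h3
            exact ⟨T, h3.1, hiT⟩
          · rintro ⟨T, hT, hiT⟩
            have h3 : T ∈ S' ∩ univ.filter fun T : {T // T ∈ 𝓕} => ¬ Disjoint T.1 R := by
              rw [mem_inter, mem_filter]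
              exact ⟨hT, mem_univ _, fun hd => Finset.disjoint_left.mp hd hiT hi⟩
            rw [← hSS, mem_inter] at h3
            exact ⟨T, h3.1, hiT⟩
        simp only [this]
      · have h3 : J.card ≤ R.card := by
          refine (Finset.card_le_card hsub).trans ?_
          refine (Finset.card_le_card_biUnion (f := fun T : {T // T ∈ 𝓕} => T.1 ∩ R) ?_ ?_).trans
            (Finset.card_le_card (Finset.biUnion_subset.mpr fun T _ => Finset.inter_subset_right))
          · intro T _ T' _ hne
            refine Disjoint.mono Finset.inter_subset_left Finset.inter_subset_left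
              (hdis _ T.2 _ T'.2 fun he => hne (Subtype.ext he))
          · intro T hT
            rw [mem_filter] at hT
            rw [← Finset.not_disjoint_iff_nonempty_inter]
            exact hT.2
        omega
    · have h3 : U {j} = j.1 := by simp [hU]
      have h4 : U ∅ = ∅ := by simp [hU]
      simp only [hh, h3, h4, mix_empty]
      rw [hmix _ j.2]
      have h5 := hy j.1 j.2
      intro h6
      apply h5
      by_cases h8 : F (mix x (y j.1) j.1) = true <;> by_cases h9 : F x = true
      · rw [h8, h9]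
      · simp [h8, h9] at h6
      · simp [h8, h9] at h6
      · rw [Bool.not_eq_true] at h8 h9
        rw [h8, h9]
  rwa [Fintype.card_coe] at h1

/-- **Certificates.** -/
theorem cert {t : ℕ} {F : (ι → X) → Bool} (hF : Low t F) (x : ι → X) :
    ∃ C : Finset ι, C.card ≤ t ^ 3 ∧ ∀ w, (∀ i ∈ C, w i = x i) → F w = F x := by
  classical
  set 𝓐 : Finset (Finset (Finset ι)) := univ.filter fun 𝓕 : Finset (Finset ι) =>
    (∀ T ∈ 𝓕, MinBad F x T) ∧ ∀ T ∈ 𝓕, ∀ T' ∈ 𝓕, T ≠ T' → Disjoint T T' with h𝓐
  have hne : 𝓐.Nonempty := ⟨∅, by simp [h𝓐]⟩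
  obtain ⟨𝓕, h𝓕, hmax⟩ := Finset.exists_max_image 𝓐 (fun 𝓕 => 𝓕.card) hne
  simp only [h𝓐, mem_filter, mem_univ, true_and] at h𝓕 hmax
  obtain ⟨hmb, hdis⟩ := h𝓕
  refine ⟨𝓕.biUnion id, ?_, fun w hw => ?_⟩
  · calc (𝓕.biUnion id).card ≤ ∑ T ∈ 𝓕, (id T : Finset ι).card := Finset.card_biUnion_le
      _ ≤ ∑ _T ∈ 𝓕, t := Finset.sum_le_sum fun T hT => minBad_card hF (hmb T hT)
      _ = 𝓕.card * t := by rw [Finset.sum_const, smul_eq_mul]
      _ ≤ t ^ 2 * t := Nat.mul_le_mul_right _ (bad_family hF 𝓕 (fun T hT => (hmb T hT).1) hdis)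
      _ = t ^ 3 := by ring
  · by_contra hcon
    have h1 : Bad F x (univ.filter fun i => w i ≠ x i) := by
      refine ⟨w, ?_⟩
      have : mix x w (univ.filter fun i => w i ≠ x i) = w := by
        funext i
        unfold mix
        by_cases hi : w i = x i
        · simp [hi]
        · simp [hi]
      rw [this]
      exact hcon
    obtain ⟨T, hT, hTm⟩ := exists_minBad h1
    have hTC : ∀ T' ∈ 𝓕, Disjoint T T' := by
      intro T' hT'
      rw [Finset.disjoint_left]
      intro i hi hi'
      have h2 := hT hi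
      rw [mem_filter] at h2
      exact h2.2 (hw i (mem_biUnion.mpr ⟨T', hT', hi'⟩))
    have hTn : T ∉ 𝓕 := by
      intro h2
      have h3 := hTC T h2
      rw [Finset.disjoint_self_iff_empty] at h3
      rw [h3] at hTm
      exact not_bad_empty F x hTm.1
    have h4 := hmax (insert T 𝓕) ⟨?_, ?_⟩
    · rw [Finset.card_insert_of_notMem hTn] at h4
      omega
    · intro T' hT'
      rw [mem_insert] at hT'
      rcases hT' with rfl | hT'
      · exact hTm
      · exact hmb T' hT'
    · intro T₁ hT₁ T₂ hT₂ hne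
      rw [mem_insert] at hT₁ hT₂
      rcases hT₁ with rfl | hT₁ <;> rcases hT₂ with rfl | hT₂
      · exact absurd rfl hne
      · exact hTC T₂ hT₂
      · exact (hTC T₁ hT₁).symm
      · exact hdis T₁ hT₁ T₂ hT₂ hne

end prod

end Pool.Agent.Q174.CY
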