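import Pool.Agent.Q174.CY.Deg

/-!
# Certificates on product spaces, dependent version
-/

set_option autoImplicit false

namespace Pool.Agent.Q174.CY

open Finset Pool.Agent.Q174.AF

/-- the top Möbius coefficient of an AND type function -/
lemma mob_and {ι : Type*} [DecidableEq ι] {h : Finset ι → ℝ} {T : Finset ι} (hne : T.Nonempty)
    (hmin : ∀ S ⊂ T, h S = h ∅) : mob h T = h T - h ∅ := by
  have h4 := sum_neg_one T hne
  have h5 : ∑ S ∈ T.powerset, (-1 : ℝ) ^ (T \ S).card * h ∅ = 0 := by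
    rw [← Finset.sum_mul, h4, zero_mul]
  have h6 : mob h T - ∑ S ∈ T.powerset, (-1 : ℝ) ^ (T \ S).card * h ∅ = h T - h ∅ := by
    unfold mob
    rw [← Finset.sum_sub_distrib, Finset.sum_eq_single T]
    · simp
    · intro S hS hST
      rw [mem_powerset] at hS
      rw [hmin S (Finset.ssubset_iff_subset_ne.mpr ⟨hS, hST⟩), sub_self]
    · intro h7
      exact absurd (Finset.mem_powerset_self T) h7
  rw [h5, sub_zero] at h6
  exact h6

lemma bool_eq_of_ite {a b : Bool} (h : (if a then (1 : ℝ) else 0) = if b then (1 : ℝ) else 0) :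
    a = b := by
  cases a <;> cases b <;> simp at h ⊢

section prod

variable {ι : Type*} [DecidableEq ι] [Fintype ι] {X : ι → Type*}

/-- `y` on `T` and `x` elsewhere -/
def mixd (x y : ∀ i, X i) (T : Finset ι) : ∀ i, X i := fun i => if i ∈ T then y i else x i

/-- `F` has degree at most `t` on all cubes -/
def LowD (t : ℕ) (F : (∀ i, X i) → Bool) : Prop :=
  ∀ x y, ∀ S : Finset ι, t < S.card →
    mob (fun T => if F (mixd x y T) then (1 : ℝ) else 0) S = 0

/-- changing the coordinates in `T` can change the value -/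
def BadD (F : (∀ i, X i) → Bool) (x : ∀ i, X i) (T : Finset ι) : Prop :=
  ∃ y, F (mixd x y T) ≠ F x

def MinBadD (F : (∀ i, X i) → Bool) (x : ∀ i, X i) (T : Finset ι) : Prop :=
  BadD F x T ∧ ∀ T' ⊂ T, ¬ BadD F x T'

omit [Fintype ι] in
lemma mixd_empty (x y : ∀ i, X i) : mixd x y ∅ = x := by
  funext i
  simp [mixd]

omit [Fintype ι] in
lemma not_badD_empty (F : (∀ i, X i) → Bool) (x : ∀ i, X i) : ¬ BadD F x ∅ := by
  rintro ⟨y, hy⟩
  rw [mixd_empty] at hy
  exact hy rfl

omit [Fintype ι] in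
lemma exists_minBadD {F : (∀ i, X i) → Bool} {x : ∀ i, X i} {T : Finset ι} (h : BadD F x T) :
    ∃ T' ⊆ T, MinBadD F x T' := by
  classical
  induction T using Finset.strongInduction with
  | H T ih =>
    by_cases h1 : ∀ T' ⊂ T, ¬ BadD F x T'
    · exact ⟨T, Finset.Subset.refl _, h, h1⟩
    · push Not at h1
      obtain ⟨T', h2, h3⟩ := h1
      obtain ⟨T'', h4, h5⟩ := ih T' h2 h3
      exact ⟨T'', h4.trans h2.1, h5⟩

omit [Fintype ι] in
lemma minBadD_card {t : ℕ} {F : (∀ i, X i) → Bool} (hF : LowD t F) {x : ∀ i, X i}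
    {T : Finset ι} (h : MinBadD F x T) : T.card ≤ t := by
  classical
  obtain ⟨⟨y, hy⟩, hmin⟩ := h
  by_contra hT
  push Not at hT
  have h1 := hF x y T hT
  have hne : T.Nonempty := by
    rw [Finset.nonempty_iff_ne_empty]
    rintro rfl
    exact not_badD_empty F x ⟨y, hy⟩
  rw [mob_and hne] at h1
  · apply hy
    apply bool_eq_of_ite
    rw [mixd_empty] at h1
    linarith
  · intro S hS
    have h8 := hmin S hS
    unfold BadD at h8
    push Not at h8
    rw [h8 y, mixd_empty]

/-- disjoint bad sets -/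
lemma badD_family {t : ℕ} {F : (∀ i, X i) → Bool} (hF : LowD t F) {x : ∀ i, X i}
    (𝓕 : Finset (Finset ι)) (hbad : ∀ T ∈ 𝓕, BadD F x T)
    (hdis : ∀ T ∈ 𝓕, ∀ T' ∈ 𝓕, T ≠ T' → Disjoint T T') : 𝓕.card ≤ t ^ 2 := by
  classical
  have hnonempty : Nonempty (∀ i, X i) := ⟨x⟩
  choose! y hy using hbad
  -- a common `Y`
  set Y : ∀ i, X i := fun i => if h : ∃ T ∈ 𝓕, i ∈ T then y h.choose i else x i with hY
  have hYT : ∀ T ∈ 𝓕, ∀ i ∈ T, Y i = y T i := by
    intro T hT i hi
    have h : ∃ T ∈ 𝓕, i ∈ T := ⟨T, hT, hi⟩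
    have h1 : h.choose = T := by
      by_contra hne
      exact Finset.disjoint_left.mp (hdis _ h.choose_spec.1 _ hT hne) h.choose_spec.2 hi
    simp only [hY, dif_pos h, h1]
  have hmix : ∀ T ∈ 𝓕, mixd x Y T = mixd x (y T) T := by
    intro T hT
    funext i
    unfold mixd
    split_ifs with hi
    · exact hYT T hT i hi
    · rfl
  set c : Finset ι → ℝ := mob (fun T => if F (mixd x Y T) then (1 : ℝ) else 0) with hc
  have hc0 : ∀ S, t < S.card → c S = 0 := fun S hS => hF x Y S hS
  set U : Finset {T // T ∈ 𝓕} → Finset ι := fun J => J.biUnion fun T => T.1 with hU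
  set h : Finset {T // T ∈ 𝓕} → ℝ := fun J => if F (mixd x Y (U J)) then (1 : ℝ) else 0 with hh
  have h1 : Fintype.card {T // T ∈ 𝓕} ≤ t ^ 2 := by
    refine sens_deg (h := h) (fun J => ?_) (fun J hJ => ?_) (fun j => ?_)
    · simp only [hh]
      split_ifs
      · exact Or.inr rfl
      · exact Or.inl rfl
    · have h2 : h = fun J => ∑ S ∈ univ.filter (fun S : Finset ι => S.card ≤ t),
          if S ⊆ U J then c S else 0 := by
        funext J
        simp only [hh]
        rw [mob_sum (fun T => if F (mixd x Y T) then (1 : ℝ) else 0) (U J), ← Finset.sum_filter]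
        symm
        apply Finset.sum_subset
        · intro S hS
          rw [mem_filter] at hS
          rw [mem_powerset]
          exact hS.2
        · intro S hS hS'
          rw [mem_powerset] at hS
          rw [mem_filter, mem_filter, not_and] at hS'
          by_cases h3 : S.card ≤ t
          · exact absurd hS (hS' ⟨mem_univ _, h3⟩)
          · exact hc0 S (not_le.mp h3)
      rw [h2, mob_finset_sum]
      refine Finset.sum_eq_zero fun R hR => ?_
      rw [mem_filter] at hR
      refine mob_junta (J := univ.filter fun T : {T // T ∈ 𝓕} => ¬ Disjoint T.1 R) ?_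
        (fun hsub => ?_)
      · have hcov : ∀ S S' : Finset {T // T ∈ 𝓕},
            (S ∩ univ.filter fun T : {T // T ∈ 𝓕} => ¬ Disjoint T.1 R) =
              (S' ∩ univ.filter fun T : {T // T ∈ 𝓕} => ¬ Disjoint T.1 R) →
            R ⊆ U S → R ⊆ U S' := by
          intro S S' hSS hRS i hi
          have h3 := hRS hi
          simp only [hU, mem_biUnion] at h3 ⊢
          obtain ⟨T, hT, hiT⟩ := h3
          have h3 : T ∈ S ∩ univ.filter fun T : {T // T ∈ 𝓕} => ¬ Disjoint T.1 R := by
            rw [mem_inter, mem_filter]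
            exact ⟨hT, mem_univ _, fun hd => Finset.disjoint_left.mp hd hiT hi⟩
          rw [hSS, mem_inter] at h3
          exact ⟨T, h3.1, hiT⟩
        intro S S' hSS
        have h3 : R ⊆ U S ↔ R ⊆ U S' := ⟨hcov S S' hSS, hcov S' S hSS.symm⟩
        simp only [h3]
      · have h3 : J.card ≤ R.card := by
          refine (Finset.card_le_card hsub).trans ?_
          refine (Finset.card_le_card_biUnion (f := fun T : {T // T ∈ 𝓕} => T.1 ∩ R) ?_ ?_).trans
            (Finset.card_le_card (Finset.biUnion_subset.mpr fun T _ => Finset.inter_subset_right))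
          · intro T _ T' _ hne
            refine Disjoint.mono Finset.inter_subset_left Finset.inter_subset_left
              (hdis _ T.2 _ T'.2 fun he => hne (Subtype.ext he))
          · intro T hT
            rw [mem_filter] at hT
            rw [← Finset.not_disjoint_iff_nonempty_inter]
            exact hT.2
        omega
    · have h3 : U {j} = j.1 := by simp [hU]
      have h4 : U ∅ = ∅ := by simp [hU]
      simp only [hh, h3, h4, mixd_empty]
      rw [hmix _ j.2]
      intro h6
      exact hy j.1 j.2 (bool_eq_of_ite h6)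
  rwa [Fintype.card_coe] at h1

/-- **Certificates.** -/
theorem certD {t : ℕ} {F : (∀ i, X i) → Bool} (hF : LowD t F) (x : ∀ i, X i) :
    ∃ C : Finset ι, C.card ≤ t ^ 3 ∧ (∀ w, (∀ i ∈ C, w i = x i) → F w = F x) ∧
      ∀ i ∈ C, ∃ T, i ∈ T ∧ MinBadD F x T := by
  classical
  set 𝓐 : Finset (Finset (Finset ι)) := univ.filter fun 𝓕 : Finset (Finset ι) =>
    (∀ T ∈ 𝓕, MinBadD F x T) ∧ ∀ T ∈ 𝓕, ∀ T' ∈ 𝓕, T ≠ T' → Disjoint T T' with h𝓐
  have hne : 𝓐.Nonempty := ⟨∅, by simp [h𝓐]⟩
  obtain ⟨𝓕, h𝓕, hmax⟩ := Finset.exists_max_image 𝓐 (fun 𝓕 => 𝓕.card) hne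
  simp only [h𝓐, mem_filter, mem_univ, true_and] at h𝓕 hmax
  obtain ⟨hmb, hdis⟩ := h𝓕
  refine ⟨𝓕.biUnion id, ?_, fun w hw => ?_, fun i hi => ?_⟩
  · calc (𝓕.biUnion id).card ≤ ∑ T ∈ 𝓕, (id T : Finset ι).card := Finset.card_biUnion_le
      _ ≤ ∑ _T ∈ 𝓕, t := Finset.sum_le_sum fun T hT => minBadD_card hF (hmb T hT)
      _ = 𝓕.card * t := by rw [Finset.sum_const, smul_eq_mul]
      _ ≤ t ^ 2 * t := Nat.mul_le_mul_right _ (badD_family hF 𝓕 (fun T hT => (hmb T hT).1) hdis)
      _ = t ^ 3 := by ring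
  · by_contra hcon
    have h1 : BadD F x (univ.filter fun i => w i ≠ x i) := by
      refine ⟨w, ?_⟩
      have : mixd x w (univ.filter fun i => w i ≠ x i) = w := by
        funext i
        unfold mixd
        by_cases hi : w i = x i
        · simp [hi]
        · simp [hi]
      rw [this]
      exact hcon
    obtain ⟨T, hT, hTm⟩ := exists_minBadD h1
    have hTC : ∀ T' ∈ 𝓕, Disjoint T T' := by
      intro T' hT'
      rw [Finset.disjoint_left]
      intro i hi hi'
      have h2 := hT hi
      rw [mem_filter] at h2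
      exact h2.2 (hw i (mem_biUnion.mpr ⟨T', hT', hi'⟩))
    have hTn : T ∉ 𝓕 := by
      intro h2
      have h3 := hTC T h2
      rw [Finset.disjoint_self_iff_empty] at h3
      rw [h3] at hTm
      exact not_badD_empty F x hTm.1
    have h4 := hmax (insert T 𝓕) ⟨?_, ?_⟩
    · rw [Finset.card_insert_of_notMem hTn] at h4
      omega
    · intro T' hT'
      rw [mem_insert] at hT'
      rcases hT' with rfl | hT'
      · exact hTm
      · exact hmb T' hT'
    · intro T₁ hT₁ T₂ hT₂ hne
      rw [mem_insert] at hT₁ hT₂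
      rcases hT₁ with rfl | hT₁ <;> rcases hT₂ with rfl | hT₂
      · exact absurd rfl hne
      · exact hTC T₂ hT₂
      · exact (hTC T₁ hT₁).symm
      · exact hdis T₁ hT₁ T₂ hT₂ hne
  · rw [mem_biUnion] at hi
    obtain ⟨T, hT, hiT⟩ := hi
    exact ⟨T, hiT, hmb T hT⟩

end prod

end Pool.Agent.Q174.CY
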