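import Pool.Agent.Q174.CY.Dbl

/-!
# Boolean functions of small rank on finite groups: degree over commuting subgroups
-/

set_option autoImplicit false

namespace Pool.Agent.Q174.CY

open Finset

/-- the matrix `f (a b⁻¹)` has rank at most `r` -/
def RankLE {G : Type*} [Group G] (f : G → Bool) (r : ℕ) : Prop :=
  ∃ u v : Fin r → G → ℝ, ∀ a b, (if f (a * b⁻¹) then (1 : ℝ) else 0) = ∑ k, u k a * v k b

lemma RankLE.comp_hom {G H : Type*} [Group G] [Group H] {f : G → Bool} {r : ℕ} (h : RankLE f r)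
    (Φ : H →* G) (x : G) : RankLE (fun k => f (x * Φ k)) r := by
  obtain ⟨u, v, h⟩ := h
  refine ⟨fun k a => u k (x * Φ a), fun k b => v k (Φ b), fun a b => ?_⟩
  change (if f (x * Φ (a * b⁻¹)) then (1 : ℝ) else 0) = _
  rw [← h, map_mul, map_inv, mul_assoc]

section prod

variable {ι : Type*} [DecidableEq ι] [Fintype ι] {K : ι → Type*} [∀ i, Group (K i)]

/-- `n` on `S`, `1` elsewhere -/
def mixn (n : ∀ i, K i) (S : Finset ι) : ∀ i, K i := fun i => if i ∈ S then n i else 1

omit [Fintype ι] in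
lemma mixn_insert (n : ∀ i, K i) {S : Finset ι} {i : ι} (hi : i ∉ S) :
    mixn n (insert i S) = Pi.mulSingle i (n i) * mixn n S := by
  funext j
  unfold mixn
  rw [Pi.mul_apply]
  by_cases hj : j = i
  · subst hj
    simp [hi]
  · simp [hj]

omit [Fintype ι] in
lemma mixn_empty (n : ∀ i, K i) : mixn n ∅ = 1 := by
  funext j
  simp [mixn]

/-- right translation -/
noncomputable def Rt {G : Type*} [Group G] : G →* Module.End ℂ (G → ℂ) where
  toFun g := LinearMap.funLeft ℂ ℂ (fun x => x * g)
  map_one' := by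
    refine LinearMap.ext fun φ => funext fun x => ?_
    simp [LinearMap.funLeft_apply]
  map_mul' g h := by
    refine LinearMap.ext fun φ => funext fun x => ?_
    simp [LinearMap.funLeft_apply, mul_assoc]

lemma Rt_apply {G : Type*} [Group G] (g : G) (φ : G → ℂ) (x : G) : Rt g φ x = φ (x * g) := rfl

/-- the space of right translates -/
noncomputable def Tsp {G : Type*} [Group G] (f : G → Bool) : Submodule ℂ (G → ℂ) :=
  Submodule.span ℂ (Set.range fun g : G => fun x => if f (x * g) then (1 : ℂ) else 0)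

lemma Rt_mem_Tsp {G : Type*} [Group G] {f : G → Bool} (g : G) {φ : G → ℂ} (hφ : φ ∈ Tsp f) :
    Rt g φ ∈ Tsp f := by
  have h1 : (Tsp f).map (Rt g) ≤ Tsp f := by
    unfold Tsp
    rw [Submodule.map_span, Submodule.span_le]
    rintro _ ⟨_, ⟨h, rfl⟩, rfl⟩
    refine Submodule.subset_span ⟨g * h, ?_⟩
    funext x
    rw [Rt_apply]
    change (if f (x * (g * h)) then (1 : ℂ) else 0) = if f (x * g * h) then (1 : ℂ) else 0
    rw [mul_assoc]
  exact h1 ⟨φ, hφ, rfl⟩

lemma Tsp_le {G : Type*} [Group G] {f : G → Bool} {r : ℕ} (hf : RankLE f r) :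
    ∃ V : Submodule ℂ (G → ℂ), Tsp f ≤ V ∧ FiniteDimensional ℂ V ∧ Module.finrank ℂ V ≤ r := by
  obtain ⟨u, v, h⟩ := hf
  refine ⟨Submodule.span ℂ (Set.range fun k : Fin r => fun a : G => (u k a : ℂ)), ?_, ?_, ?_⟩
  · unfold Tsp
    rw [Submodule.span_le]
    rintro _ ⟨g, rfl⟩
    have h1 : (fun x => if f (x * g) then (1 : ℂ) else 0) =
        ∑ k : Fin r, (v k g⁻¹ : ℂ) • fun a : G => (u k a : ℂ) := by
      funext x
      rw [Finset.sum_apply]
      simp only [Pi.smul_apply, smul_eq_mul]
      have := congrArg (fun t : ℝ => (t : ℂ)) (h x g⁻¹)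
      simp only [Complex.ofReal_sum, Complex.ofReal_mul, inv_inv] at this
      rw [Finset.sum_congr rfl fun k _ => mul_comm ((v k g⁻¹ : ℝ) : ℂ) _, ← this]
      split_ifs <;> simp
    rw [SetLike.mem_coe]
    change (fun x => if f (x * g) then (1 : ℂ) else 0) ∈ _
    rw [h1]
    exact Submodule.sum_mem _ fun k _ => Submodule.smul_mem _ _ (Submodule.subset_span ⟨k, rfl⟩)
  · exact FiniteDimensional.span_of_finite ℂ (Set.finite_range _)
  · have h2 := finrank_range_le_card (R := ℂ) (fun k : Fin r => fun a : G => (u k a : ℂ))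
    rwa [Fintype.card_fin] at h2

omit [Fintype ι] in
lemma conj_single (g : ∀ i, K i) (j : ι) (l : K j) :
    Pi.mulSingle j l * g = g * Pi.mulSingle j ((g j)⁻¹ * l * g j) := by
  funext i
  rw [Pi.mul_apply, Pi.mul_apply]
  by_cases hi : i = j
  · subst hi
    simp [mul_assoc]
  · simp [hi]

omit [Fintype ι] in
/-- **Degree over commuting groups.** -/
theorem mob_prod [∀ i, Finite (K i)] {r : ℕ} (f : (∀ i, K i) → Bool) (hf : RankLE f r)
    (n : ∀ i, K i) (hn : ∀ i, n i ∈ commutator (K i)) (T : Finset ι) (hT : r < 2 ^ T.card) :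
    mob (fun S => if f (mixn n S) then (1 : ℝ) else 0) T = 0 := by
  classical
  have hft : ∀ i, Nonempty (Fintype (commutator (K i))) := fun i => ⟨Fintype.ofFinite _⟩
  let ft : ∀ i, Fintype (commutator (K i)) := fun i => (hft i).some
  -- the alternating sum
  set φ : Finset ι → (∀ i, K i) → ℂ := fun T x => ∑ S ∈ T.powerset,
    (-1) ^ (T \ S).card * if f (x * mixn n S) then (1 : ℂ) else 0 with hφ
  have hφ1 : φ T 1 = ((mob (fun S => if f (mixn n S) then (1 : ℝ) else 0) T : ℝ) : ℂ) := by
    simp only [hφ, mob, one_mul]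
    rw [Complex.ofReal_sum]
    refine Finset.sum_congr rfl fun S _ => ?_
    split_ifs <;> simp
  have hφmem : ∀ T, φ T ∈ Tsp f := by
    intro T
    have h1 : φ T = ∑ S ∈ T.powerset, ((-1 : ℂ) ^ (T \ S).card) •
        fun x => if f (x * mixn n S) then (1 : ℂ) else 0 := by
      funext x
      rw [Finset.sum_apply]
      rfl
    rw [h1]
    exact Submodule.sum_mem _ fun S _ => Submodule.smul_mem _ _
      (Submodule.subset_span ⟨mixn n S, rfl⟩)
  have hφins : ∀ (i : ι) (T : Finset ι), i ∉ T → ∀ x,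
      φ (insert i T) x = φ T (x * Pi.mulSingle i (n i)) - φ T x := by
    intro i T hi x
    simp only [hφ]
    rw [Finset.sum_powerset_insert hi, add_comm, ← sub_neg_eq_add]
    congr 1
    · refine Finset.sum_congr rfl fun S hS => ?_
      rw [mem_powerset] at hS
      have hiS : i ∉ S := fun h => hi (hS h)
      have h1 : insert i T \ insert i S = T \ S := by
        ext j
        simp only [mem_sdiff, mem_insert, not_or]
        constructor
        · rintro ⟨h | h, h2, h3⟩
          · exact absurd h h2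
          · exact ⟨h, h3⟩
        · rintro ⟨h, h2⟩
          exact ⟨Or.inr h, fun h3 => hi (h3 ▸ h), h2⟩
      rw [h1, mixn_insert n hiS, mul_assoc]
    · rw [← Finset.sum_neg_distrib]
      refine Finset.sum_congr rfl fun S hS => ?_
      rw [mem_powerset] at hS
      have hiS : i ∉ S := fun h => hi (hS h)
      have h1 : insert i T \ S = insert i (T \ S) := Finset.insert_sdiff_of_notMem _ hiS
      rw [h1, Finset.card_insert_of_notMem (by simp [hi]), pow_succ]
      ring
  by_contra hne
  -- the subspace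
  let W : Submodule ℂ ((∀ i, K i) → ℂ) :=
    { carrier := {ψ | ψ ∈ Tsp f ∧ ∀ i ∈ T, ∀ x,
        ∑ k : commutator (K i), ψ (x * Pi.mulSingle i (k : K i)) = 0}
      add_mem' := by
        rintro a b ⟨ha, ha'⟩ ⟨hb, hb'⟩
        refine ⟨Submodule.add_mem _ ha hb, fun i hi x => ?_⟩
        simp only [Pi.add_apply]
        rw [Finset.sum_add_distrib, ha' i hi x, hb' i hi x, add_zero]
      zero_mem' := ⟨Submodule.zero_mem _, fun i hi x => by simp⟩
      smul_mem' := by
        rintro c a ⟨ha, ha'⟩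
        refine ⟨Submodule.smul_mem _ _ ha, fun i hi x => ?_⟩
        simp only [Pi.smul_apply, smul_eq_mul]
        rw [← Finset.mul_sum, ha' i hi x, mul_zero] }
  have hWle : W ≤ Tsp f := fun ψ hψ => hψ.1
  have hφW : φ T ∈ W := by
    refine ⟨hφmem T, fun i hi x => ?_⟩
    rw [← Finset.insert_erase hi]
    simp only [hφins i (T.erase i) (Finset.notMem_erase i T)]
    rw [Finset.sum_sub_distrib, sub_eq_zero]
    refine Fintype.sum_equiv (Equiv.mulRight (⟨n i, hn i⟩ : commutator (K i))) _ _ fun k => ?_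
    rw [Equiv.coe_mulRight, Subgroup.coe_mul, Pi.mulSingle_mul, mul_assoc]
  obtain ⟨V, hV, hVfin, hVr⟩ := Tsp_le hf
  have hWfin : FiniteDimensional ℂ W := Submodule.finiteDimensional_of_le (hWle.trans hV)
  have hWne : W ≠ ⊥ := by
    intro h
    rw [h, Submodule.mem_bot] at hφW
    apply hne
    have h1 := congrFun hφW 1
    rw [hφ1, Pi.zero_apply] at h1
    exact_mod_cast h1
  have key := dbl (Rt (G := ∀ i, K i)) T W hWfin hWne ?_ ?_
  · have h1 := Submodule.finrank_mono (hWle.trans hV)
    omega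
  · rintro i hi k ψ ⟨hψ, hψ'⟩
    refine ⟨Rt_mem_Tsp _ hψ, fun j hj x => ?_⟩
    set g : ∀ i, K i := Pi.mulSingle i k with hg
    have h1 : ∀ l : commutator (K j), Rt g ψ (x * Pi.mulSingle j (l : K j)) =
        ψ (x * g * Pi.mulSingle j ((g j)⁻¹ * (l : K j) * g j)) := by
      intro l
      rw [Rt_apply, mul_assoc, conj_single, ← mul_assoc]
    rw [Finset.sum_congr rfl fun l _ => h1 l, ← hψ' j hj (x * g)]
    refine Fintype.sum_equiv (MulAut.conjNormal (g j)⁻¹ : MulAut (commutator (K j))).toEquiv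
      _ _ fun l => ?_
    have h2 : (((MulAut.conjNormal (g j)⁻¹ : MulAut (commutator (K j))) l :
        commutator (K j)) : K j) = (g j)⁻¹ * (l : K j) * g j := by
      rw [MulAut.conjNormal_apply, inv_inv]
    rw [← h2]
    rfl
  · rintro i hi ψ ⟨hψ, hψ'⟩ hfix
    funext x
    have h1 := hψ' i hi x
    have h2 : ∀ k : commutator (K i), ψ (x * Pi.mulSingle i (k : K i)) = ψ x := by
      intro k
      have := congrFun (hfix k k.2) x
      rwa [Rt_apply] at this
    rw [Finset.sum_congr rfl fun k _ => h2 k, Finset.sum_const, Finset.card_univ,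
      nsmul_eq_mul] at h1
    have h3 : ((Fintype.card (commutator (K i)) : ℕ) : ℂ) ≠ 0 := by
      have := Fintype.card_pos (α := commutator (K i))
      exact_mod_cast this.ne'
    exact (mul_eq_zero.mp h1).resolve_left h3

end prod

end Pool.Agent.Q174.CY
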