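import Pool.Agent.Q174.CY.Grp
import Pool.Agent.Q174.CY.Deg2

/-!
# Sensitivity of Boolean functions of small rank on finite groups
-/

set_option autoImplicit false

namespace Pool.Agent.Q174.CY

open Finset

section

variable {G : Type*} [Group G] {f : G → Bool} {r : ℕ} {ι : Type*} [DecidableEq ι] {K : ι → Type*}
  [∀ i, Group (K i)] [∀ i, Finite (K i)]

lemma mob_grp (hf : RankLE f r) (Φ : (∀ i, K i) →* G) (x : G) (n : ∀ i, K i)
    (hn : ∀ i, n i ∈ commutator (K i)) (T : Finset ι) (hT : Nat.log 2 r < T.card) :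
    mob (fun S => if f (x * Φ (mixn n S)) then (1 : ℝ) else 0) T = 0 :=
  mob_prod _ (hf.comp_hom Φ x) n hn T (Nat.lt_pow_of_log_lt (by norm_num) hT)

variable [Fintype ι]

/-- commuting sensitive elements of commutator subgroups -/
theorem grp_sens (hf : RankLE f r) (Φ : (∀ i, K i) →* G) (x : G) (n : ∀ i, K i)
    (hn : ∀ i, n i ∈ commutator (K i)) (hs : ∀ i, f (x * Φ (Pi.mulSingle i (n i))) ≠ f x) :
    Fintype.card ι ≤ (Nat.log 2 r) ^ 2 := by
  refine sens_deg (h := fun S => if f (x * Φ (mixn n S)) then (1 : ℝ) else 0) (fun T => ?_)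
    (fun S hS => mob_grp hf Φ x n hn S hS) (fun j => ?_)
  · split_ifs
    · exact Or.inr rfl
    · exact Or.inl rfl
  · have h1 : mixn n {j} = Pi.mulSingle j (n j) := by
      rw [show ({j} : Finset ι) = insert j ∅ by simp, mixn_insert n (by simp), mixn_empty, mul_one]
    simp only [h1, mixn_empty, map_one, mul_one]
    exact fun h => hs j (bool_eq_of_ite h)

/-- AND type behaviour -/
theorem grp_and (hf : RankLE f r) (Φ : (∀ i, K i) →* G) (x : G) (n : ∀ i, K i)
    (hn : ∀ i, n i ∈ commutator (K i)) (hs : ∀ S : Finset ι, S ≠ univ → f (x * Φ (mixn n S)) = f x)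
    (hne : f (x * Φ n) ≠ f x) : Fintype.card ι ≤ Nat.log 2 r := by
  by_contra hcon
  push Not at hcon
  rw [← Finset.card_univ] at hcon
  have h1 := mob_grp hf Φ x n hn univ hcon
  have hnon : (univ : Finset ι).Nonempty := by
    rw [← Finset.card_pos]
    omega
  rw [mob_and hnon] at h1
  · have h2 : mixn n univ = n := by
      funext i
      simp [mixn]
    rw [h2, mixn_empty, map_one, mul_one] at h1
    apply hne
    apply bool_eq_of_ite
    linarith
  · intro S hS
    rw [hs S hS.ne, mixn_empty, map_one, mul_one]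

end

/-- products of groups without linear characters -/
theorem lowD_prod {ι : Type*} [DecidableEq ι] {K : ι → Type*} [∀ i, Group (K i)]
    [∀ i, Finite (K i)] {r : ℕ} {f : (∀ i, K i) → Bool} (hf : RankLE f r)
    (hperf : ∀ i, commutator (K i) = ⊤) : LowD (Nat.log 2 r) f := by
  intro x y S hS
  have h1 := mob_grp hf (MonoidHom.id _) x (fun i => (x i)⁻¹ * y i)
    (fun i => by rw [hperf i]; exact Subgroup.mem_top _) S hS
  have h3 : (fun T => if f (mixd x y T) then (1 : ℝ) else 0) = fun T =>
      if f (x * (MonoidHom.id _) (mixn (fun i => (x i)⁻¹ * y i) T)) then (1 : ℝ) else 0 := by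
    funext T
    have h2 : mixd x y T = x * (MonoidHom.id _) (mixn (fun i => (x i)⁻¹ * y i) T) := by
      funext i
      rw [MonoidHom.id_apply, Pi.mul_apply]
      unfold mixd mixn
      split_ifs
      · rw [mul_inv_cancel_left]
      · rw [mul_one]
    rw [h2]
  rw [h3]
  exact h1

end Pool.Agent.Q174.CY
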