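import Pool.Agent.Q174.CY.Tree
import Pool.Agent.Q174.CY.Grp2

/-!
# Protocols for functions of small rank on products of quasirandom groups
-/

set_option autoImplicit false

namespace Pool.Agent.Q174.CY

open Finset Pool.Agent.Q174.TD

/-- no linear characters, and `|K| ≤ (dim V)^a` for every nontrivial representation `V` of `K` -/
def Quasi (a : ℕ) (K : Type) [Group K] : Prop :=
  commutator K = ⊤ ∧ ∀ (V : Type) [AddCommGroup V] [Module ℂ V] [FiniteDimensional ℂ V]
    (ρ : K →* Module.End ℂ V), (∃ g, ρ g ≠ 1) → Nat.card K ≤ Module.finrank ℂ V ^ a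

variable {ι : Type} [DecidableEq ι] {K : ι → Type} [∀ i, Group (K i)]

lemma card_le_of_relevant {f : (∀ i, K i) → Bool} {r a : ℕ} (hf : RankLE f r) {i : ι}
    (hK : Quasi a (K i)) {x : ∀ i, K i} {g : K i} (h : f (x * Pi.mulSingle i g) ≠ f x) :
    Nat.card (K i) ≤ r ^ a := by
  obtain ⟨V, hV, hVfin, hVr⟩ := Tsp_le hf
  have hfin : FiniteDimensional ℂ (Tsp f) := Submodule.finiteDimensional_of_le hV
  let ρ : K i →* Module.End ℂ (Tsp f) :=
    { toFun := fun g => (Rt (Pi.mulSingle i g)).restrict fun φ hφ => Rt_mem_Tsp _ hφ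
      map_one' := by
        refine LinearMap.ext fun φ => Subtype.ext ?_
        change Rt (Pi.mulSingle i 1) (φ : (∀ i, K i) → ℂ) = φ
        rw [Pi.mulSingle_one, map_one]
        rfl
      map_mul' := by
        intro g h
        refine LinearMap.ext fun φ => Subtype.ext ?_
        change Rt (Pi.mulSingle i (g * h)) (φ : (∀ i, K i) → ℂ) =
          Rt (Pi.mulSingle i g) (Rt (Pi.mulSingle i h) (φ : (∀ i, K i) → ℂ))
        rw [Pi.mulSingle_mul, map_mul]
        rfl }
  have hφ : (fun x => if f (x * 1) then (1 : ℂ) else 0) ∈ Tsp f :=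
    Submodule.subset_span ⟨1, rfl⟩
  have hne : ρ g ≠ 1 := by
    intro h1
    have h2 := congrArg (fun z : Tsp f => (z : (∀ i, K i) → ℂ) x) (LinearMap.congr_fun h1 ⟨_, hφ⟩)
    have h3 : (if f (x * Pi.mulSingle i g * 1) then (1 : ℂ) else 0) =
        if f (x * 1) then (1 : ℂ) else 0 := h2
    rw [mul_one, mul_one] at h3
    apply h
    cases h4 : f (x * Pi.mulSingle i g) <;> cases h5 : f x <;> simp [h4, h5] at h3 ⊢
  refine (hK.2 (Tsp f) ρ ⟨g, hne⟩).trans ?_
  exact Nat.pow_le_pow_left ((Submodule.finrank_mono hV).trans hVr) a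

omit [∀ i, Group (K i)] in
lemma relevant_of_minBad [∀ i, Group (K i)] {f : (∀ i, K i) → Bool} {x : ∀ i, K i}
    {T : Finset ι} (h : MinBadD f x T) {i : ι} (hi : i ∈ T) :
    ∃ (x' : ∀ i, K i) (g : K i), f (x' * Pi.mulSingle i g) ≠ f x' := by
  obtain ⟨⟨y, hy⟩, hmin⟩ := h
  refine ⟨mixd x y (T.erase i), (x i)⁻¹ * y i, ?_⟩
  have h1 : mixd x y (T.erase i) * Pi.mulSingle i ((x i)⁻¹ * y i) = mixd x y T := by
    funext j
    rw [Pi.mul_apply]
    unfold mixd
    by_cases hj : j = i
    · subst hj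
      simp [hi]
    · simp [hj]
  have h2 : f (mixd x y (T.erase i)) = f x := by
    by_contra h3
    exact hmin _ (Finset.erase_ssubset hi) ⟨y, h3⟩
  rw [h1, h2]
  exact hy

/-- **Protocols for products of quasirandom groups.** -/
theorem prot_prod [Fintype ι] [∀ i, Finite (K i)] {f : (∀ i, K i) → Bool} {r a : ℕ}
    (hf : RankLE f r) (hK : ∀ i, Quasi a (K i)) :
    Prot (fun x y => f (x * y⁻¹)) (2 * a * (Nat.log 2 r + 1) ^ 7) Set.univ Set.univ := by
  classical
  set t := Nat.log 2 r with ht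
  have hlow : LowD t f := lowD_prod hf fun i => (hK i).1
  choose C hCcard hC hrel using fun z => certD hlow z
  set L := (t + 1) * a with hL
  have key := cert_prot (F := fun x y => f (x * y⁻¹))
    (ans := fun (i : ι) (x y : ∀ i, K i) => (⟨i, x i * (y i)⁻¹⟩ : Σ i, K i)) (L + L) (t ^ 3)
    (fun x y => C (x * y⁻¹)) (fun x y => hCcard _) ?_ Set.univ Set.univ ?_
  · refine key.le ?_
    have h1 : t ^ 3 * t ^ 3 ≤ (t + 1) ^ 6 := by
      calc t ^ 3 * t ^ 3 = t ^ 6 := by ring
        _ ≤ _ := Nat.pow_le_pow_left (by omega) 6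
    calc _ ≤ (t + 1) ^ 6 * (L + L) := Nat.mul_le_mul_right _ h1
      _ = _ := by rw [hL]; ring
  · intro x y i hi k A B h
    obtain ⟨T, hiT, hT⟩ := hrel _ i hi
    obtain ⟨x', g, hg⟩ := relevant_of_minBad hT hiT
    have hcard : Nat.card (K i) ≤ 2 ^ L := by
      refine (card_le_of_relevant hf (hK i) hg).trans ?_
      rw [hL, pow_mul]
      exact Nat.pow_le_pow_left (Nat.lt_pow_succ_log_self (by norm_num) r).le a
    rw [← add_assoc]
    refine alice_send hcard (fun x : ∀ i, K i => x i) fun u => ?_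
    refine bob_send hcard (fun x : ∀ i, K i => x i) fun v => ?_
    refine h _ Set.inter_subset_left _ Set.inter_subset_left ?_
    rintro x ⟨_, hx⟩ y ⟨_, hy⟩ x' ⟨_, hx'⟩ y' ⟨_, hy'⟩
    have hx1 : x i = u := hx
    have hx2 : x' i = u := hx'
    have hy1 : y i = v := hy
    have hy2 : y' i = v := hy'
    simp only [hx1, hx2, hy1, hy2]
  · intro x _ y _ x' _ y' _ h1 h0
    by_contra hcon
    push Not at hcon
    set z := x * y⁻¹ with hz
    set z' := x' * y'⁻¹ with hz'
    have hag : ∀ i ∈ C z, i ∈ C z' → z i = z' i := by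
      intro i hi hi'
      have h3 := hcon i hi hi'
      have h4 : (⟨i, z i⟩ : Σ i, K i) = ⟨i, z' i⟩ := h3
      exact eq_of_heq (Sigma.mk.inj_iff.mp h4).2
    set w : ∀ i, K i := fun i => if i ∈ C z then z i else z' i with hw
    have e1 : f w = f z := hC z w fun i hi => by simp [hw, hi]
    have e2 : f w = f z' := by
      refine hC z' w fun i hi => ?_
      by_cases h3 : i ∈ C z
      · simp only [hw, h3, if_true]
        exact hag i h3 hi
      · simp [hw, h3]
    have h1' : f z = true := h1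
    have h0' : f z' = false := h0
    rw [e1, h1', h0'] at e2
    exact Bool.noConfusion e2

end Pool.Agent.Q174.CY
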