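import Pool.Agent.Q174.CY.Sym

/-!
# Few points if the function is not invariant under the alternating group
-/

set_option autoImplicit false

namespace Pool.Agent.Q174.CY

open Finset Equiv

/-- an element of prime order which does not act trivially gives a large rank -/
lemma prime_le {G : Type*} [Group G] {f : G → Bool} {r : ℕ} (hf : RankLE f r) {p : ℕ}
    (hp : p.Prime) {c : G} (hc : orderOf c = p) {x y : G} (hne : f (x * c * y) ≠ f (x * y)) :
    p ≤ r + 1 := by
  classical
  haveI : Fact p.Prime := ⟨hp⟩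
  haveI : NeZero p := ⟨hp.ne_zero⟩
  obtain ⟨u, v, h⟩ := hf
  set φ : ZMod p → Bool := fun a => f (x * c ^ a.val * y) with hφ
  have hpow : ∀ a b : ZMod p, c ^ (a - b).val = c ^ a.val * (c ^ b.val)⁻¹ := by
    intro a b
    rw [eq_mul_inv_iff_mul_eq, ← pow_add]
    have h1 : ((a - b).val + b.val) % p = a.val := by
      rw [← ZMod.val_add, sub_add_cancel]
    rw [← pow_mod_orderOf c ((a - b).val + b.val), hc, h1]
  have hcard : (active φ).card ≤ r := by
    refine card_active_le φ (fun k a => u k (x * c ^ a.val)) (fun k b => v k (y⁻¹ * c ^ b.val)) ?_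
    intro a b
    rw [← h]
    have h1 : x * c ^ a.val * (y⁻¹ * c ^ b.val)⁻¹ = x * c ^ (a - b).val * y := by
      rw [hpow]
      group
    rw [h1]
  have hne' : φ 1 ≠ φ 0 := by
    simp only [hφ, ZMod.val_zero, pow_zero, mul_one]
    rw [ZMod.val_one p, pow_one]
    exact hne
  have hex : ∃ χ ∈ active φ, χ (1 : ZMod p) ≠ χ 0 := by
    by_contra hcon
    push Not at hcon
    exact hne' (f_ext hcon)
  obtain ⟨χ, hχ, hχ1⟩ := hex
  rw [AddChar.map_zero_eq_one] at hχ1
  have h1 : orderOf χ ∣ p := by
    rw [orderOf_dvd_iff_pow_eq_one]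
    refine DFunLike.ext _ _ fun a => ?_
    rw [AddChar.pow_apply, ← AddChar.map_nsmul_eq_pow, nsmul_eq_mul, CharP.cast_eq_zero,
      zero_mul, AddChar.map_zero_eq_one]
    rfl
  have h2 : orderOf χ ≠ 1 := by
    intro h3
    rw [orderOf_eq_one_iff] at h3
    rw [h3] at hχ1
    exact hχ1 rfl
  have h3 : orderOf χ = p := (hp.eq_one_or_self_of_dvd _ h1).resolve_left h2
  have h4 := (totient_le_card_active hχ).trans hcard
  rw [h3, Nat.totient_prime hp] at h4
  omega

variable {Ω : Type*} [Fintype Ω] [DecidableEq Ω]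

theorem card_le_of_not_inv {f : Perm Ω → Bool} {r : ℕ} (hf : RankLE f r)
    (h : ∃ x σ, Perm.sign σ = 1 ∧ f (x * σ) ≠ f x) : Fintype.card Ω ≤ 2 * r + 3 := by
  obtain ⟨x, σ, hσ, hne⟩ := h
  have hr : 1 ≤ r := by
    rcases Nat.eq_zero_or_pos r with h0 | h0
    · exfalso
      subst h0
      obtain ⟨u, v, h⟩ := hf
      have h1 : ∀ a, f a = false := by
        intro a
        have h2 := h a 1
        rw [inv_one, mul_one] at h2
        by_contra h3
        rw [Bool.not_eq_false] at h3
        simp [h3] at h2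
      rw [h1, h1] at hne
      exact hne rfl
    · exact h0
  by_cases h5 : Fintype.card Ω < 5
  · omega
  push Not at h5
  let N : Subgroup (Perm Ω) :=
    { carrier := {σ | ∀ x y, f (x * σ * y) = f (x * y)}
      mul_mem' := by
        intro a b ha hb x y
        have h1 : x * (a * b) * y = x * a * (b * y) := by group
        rw [h1, ha, ← mul_assoc, hb]
      one_mem' := by
        intro x y
        rw [mul_one]
      inv_mem' := by
        intro a ha x y
        have h1 := ha (x * a⁻¹) y
        rw [inv_mul_cancel_right] at h1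
        exact h1.symm }
  have hN : N.Normal := by
    refine ⟨fun n hn g x y => ?_⟩
    have h1 := hn (x * g) (g⁻¹ * y)
    have h2 : x * (g * n * g⁻¹) * y = x * g * n * (g⁻¹ * y) := by group
    have h3 : x * g * (g⁻¹ * y) = x * y := by group
    rw [h2, h1, h3]
  have hσN : σ ∉ N := by
    intro h1
    have h2 := h1 x 1
    rw [mul_one, mul_one] at h2
    exact hne h2
  have hNbot : N = ⊥ := by
    by_contra hcon
    have hnt : Nontrivial N := (Subgroup.nontrivial_iff_ne_bot N).mpr hcon
    have h1 := Perm.alternatingGroup_le_of_normal (α := Ω)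
      (by rw [Nat.card_eq_fintype_card]; exact h5) (N := N) hnt
    exact hσN (h1 (by rwa [Perm.mem_alternatingGroup]))
  obtain ⟨p, hp, hlt, hle⟩ := Nat.exists_prime_lt_and_le_two_mul (Fintype.card Ω / 2) (by omega)
  haveI : Fact p.Prime := ⟨hp⟩
  obtain ⟨c, hc⟩ : ∃ c : Perm Ω, orderOf c = p := by
    refine exists_prime_orderOf_dvd_card p ?_
    rw [Fintype.card_perm]
    exact Nat.dvd_factorial hp.pos (by omega)
  have hcN : c ∉ N := by
    rw [hNbot, Subgroup.mem_bot]
    rintro rfl
    rw [orderOf_one] at hc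
    exact hp.one_lt.ne hc
  have hex : ∃ x y, f (x * c * y) ≠ f (x * y) := by
    by_contra hcon
    push Not at hcon
    exact hcN hcon
  obtain ⟨x', y', hxy⟩ := hex
  have h1 := prime_le hf hp hc hxy
  omega

end Pool.Agent.Q174.CY
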