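import Pool.Agent.Q174.CY.Tree
import Pool.Agent.Q174.CY.Sym2

/-!
# Protocols for functions of small rank on the symmetric group
-/

set_option autoImplicit false

namespace Pool.Agent.Q174.CY

open Finset Equiv Pool.Agent.Q174.TD

lemma prot_of_eq {X Y : Type*} {F : X → Y → Bool} {c : ℕ} {A : Set X} {B : Set Y}
    (h : ∀ x ∈ A, ∀ y ∈ B, ∀ x' ∈ A, ∀ y' ∈ B, F x y = F x' y') : Prot F c A B := by
  by_cases h1 : ∃ x ∈ A, ∃ y ∈ B, F x y = true
  · obtain ⟨x₁, hx₁, y₁, hy₁, hF⟩ := h1
    exact Prot.const _ _ _ true fun x hx y hy => (h x hx y hy x₁ hx₁ y₁ hy₁).trans hF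
  · refine Prot.const _ _ _ false fun x hx y hy => ?_
    by_contra h2
    rw [Bool.not_eq_false] at h2
    exact h1 ⟨x, hx, y, hy, h2⟩

variable {Ω : Type*} [Fintype Ω] [DecidableEq Ω]

/-- a common extension with prescribed sign -/
lemma exists_common {C C' : Finset Ω} {z z' : Perm Ω}
    (hcard : C.card + C'.card + 2 ≤ Fintype.card Ω) (h1 : ∀ c ∈ C ∩ C', z c = z' c)
    (h2 : ∀ c ∈ C, ∀ c' ∈ C', z c = z' c' → c = c') (ε : ℤˣ) :
    ∃ w : Perm Ω, Perm.sign w = ε ∧ (∀ c ∈ C, w c = z c) ∧ ∀ c ∈ C', w c = z' c := by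
  set g : Ω → Ω := fun c => if c ∈ C then z c else z' c with hg
  have hgC : ∀ c ∈ C, g c = z c := fun c hc => by simp [hg, hc]
  have hgC' : ∀ c ∈ C', g c = z' c := by
    intro c hc
    by_cases hcC : c ∈ C
    · rw [hgC c hcC]
      exact h1 c (mem_inter.mpr ⟨hcC, hc⟩)
    · simp [hg, hcC]
  have hinj : Set.InjOn g (C ∪ C' : Finset Ω) := by
    intro a ha b hb hab
    rw [Finset.mem_coe, mem_union] at ha hb
    rcases ha with ha | ha <;> rcases hb with hb | hb
    · rw [hgC a ha, hgC b hb] at hab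
      exact z.injective hab
    · rw [hgC a ha, hgC' b hb] at hab
      exact h2 a ha b hb hab
    · rw [hgC' a ha, hgC b hb] at hab
      exact (h2 b hb a ha hab.symm).symm
    · rw [hgC' a ha, hgC' b hb] at hab
      exact z'.injective hab
  obtain ⟨e, he⟩ := Finset.exists_equiv_extend_of_card_eq (α := Ω) (t := (univ : Finset Ω))
    (Finset.card_univ).symm (s := C ∪ C') (f := g) (Finset.subset_univ _) hinj
  set w : Perm Ω := e.trans (Equiv.subtypeUnivEquiv fun x => mem_univ x) with hw
  have hwg : ∀ c ∈ C ∪ C', w c = g c := fun c hc => he c hc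
  obtain ⟨a, b, ha, hb, hab⟩ : ∃ a b, a ∉ C ∪ C' ∧ b ∉ C ∪ C' ∧ a ≠ b := by
    have h3 : 1 < ((C ∪ C')ᶜ).card := by
      rw [Finset.card_compl]
      have := Finset.card_union_le C C'
      omega
    obtain ⟨a, ha, b, hb, hab⟩ := Finset.one_lt_card.mp h3
    exact ⟨a, b, mem_compl.mp ha, mem_compl.mp hb, hab⟩
  by_cases hs : Perm.sign w = ε
  · exact ⟨w, hs, fun c hc => (hwg c (mem_union_left _ hc)).trans (hgC c hc),
      fun c hc => (hwg c (mem_union_right _ hc)).trans (hgC' c hc)⟩
  · have hsw : ∀ c ∈ C ∪ C', (w * swap a b) c = w c := by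
      intro c hc
      rw [Perm.mul_apply, swap_apply_of_ne_of_ne]
      · rintro rfl; exact ha hc
      · rintro rfl; exact hb hc
    refine ⟨w * swap a b, ?_, fun c hc => ?_, fun c hc => ?_⟩
    · rw [Perm.sign_mul, Perm.sign_swap hab]
      rcases Int.units_eq_one_or (Perm.sign w) with h4 | h4 <;>
        rcases Int.units_eq_one_or ε with h5 | h5
      · exact absurd (h4.trans h5.symm) hs
      · rw [h4, h5, one_mul]
      · rw [h4, h5]; decide
      · exact absurd (h4.trans h5.symm) hs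
    · rw [hsw c (mem_union_left _ hc), hwg c (mem_union_left _ hc), hgC c hc]
    · rw [hsw c (mem_union_right _ hc), hwg c (mem_union_right _ hc), hgC' c hc]

/-- the questions `z c = ?` and `z⁻¹ v = ?` for `z = x y⁻¹` -/
def ansS : Ω ⊕ Ω → Perm Ω → Perm Ω → Ω
  | Sum.inl c, x, y => (x * y⁻¹) c
  | Sum.inr v, x, y => (x * y⁻¹)⁻¹ v

omit [DecidableEq Ω] in
lemma askS (F : Perm Ω → Perm Ω → Bool) {L : ℕ} (hL : Fintype.card Ω ≤ 2 ^ L) (q : Ω ⊕ Ω) :
    Askable F ansS (L + L) q := by
  intro k A B h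
  have hcard : Nat.card Ω ≤ 2 ^ L := by rwa [Nat.card_eq_fintype_card]
  rw [← add_assoc]
  rcases q with c | v
  · refine bob_send hcard (fun y : Perm Ω => y⁻¹ c) fun v => ?_
    refine alice_send hcard (fun x : Perm Ω => x v) fun w => ?_
    refine h _ Set.inter_subset_left _ Set.inter_subset_left ?_
    rintro x ⟨_, hx⟩ y ⟨_, hy⟩ x' ⟨_, hx'⟩ y' ⟨_, hy'⟩
    have hx1 : x v = w := hx
    have hx2 : x' v = w := hx'
    have hy1 : y⁻¹ c = v := hy
    have hy2 : y'⁻¹ c = v := hy'
    simp only [ansS, Perm.mul_apply, hy1, hy2, hx1, hx2]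
  · refine alice_send hcard (fun x : Perm Ω => x⁻¹ v) fun w => ?_
    refine bob_send hcard (fun y : Perm Ω => y w) fun w' => ?_
    refine h _ Set.inter_subset_left _ Set.inter_subset_left ?_
    rintro x ⟨_, hx⟩ y ⟨_, hy⟩ x' ⟨_, hx'⟩ y' ⟨_, hy'⟩
    have hx1 : x⁻¹ v = w := hx
    have hx2 : x'⁻¹ v = w := hx'
    have hy1 : y w = w' := hy
    have hy2 : y' w = w' := hy'
    simp only [ansS, mul_inv_rev, inv_inv, Perm.mul_apply, hy1, hy2, hx1, hx2]

lemma card_units_le : Nat.card ℤˣ ≤ 2 ^ 1 := by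
  rw [Nat.card_eq_fintype_card]
  decide

lemma eq_of_cert {f : Perm Ω → Bool} {z w : Perm Ω} {C : Finset Ω}
    (hC : ∀ σ : Perm Ω, Perm.sign σ = 1 → (∀ ω ∈ C, σ ω = ω) → f (z * σ) = f z)
    (hs : Perm.sign w = Perm.sign z) (h : ∀ c ∈ C, w c = z c) : f w = f z := by
  have h1 := hC (z⁻¹ * w) (by
    rw [Perm.sign_mul, Perm.sign_inv, hs]
    exact Int.units_mul_self _) (fun ω hω => by
    rw [Perm.mul_apply, h ω hω, ← Perm.mul_apply, inv_mul_cancel, Perm.one_apply])
  rwa [mul_inv_cancel_left] at h1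

/-- **Protocols for the symmetric group.** -/
theorem prot_sym {f : Perm Ω → Bool} {r : ℕ} (hf : RankLE f r) :
    Prot (fun x y => f (x * y⁻¹)) (288 * (Nat.log 2 r + 3) ^ 7) Set.univ Set.univ := by
  classical
  set t := Nat.log 2 r with ht
  set s := t + 3 with hs
  by_cases hinv : ∀ x σ, Perm.sign σ = 1 → f (x * σ) = f x
  · -- invariant under the alternating group
    have h2 : Prot (fun x y => f (x * y⁻¹)) (0 + 1 + 1) Set.univ Set.univ := by
      refine alice_send card_units_le (fun x : Perm Ω => Perm.sign x) fun ε => ?_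
      refine bob_send card_units_le (fun x : Perm Ω => Perm.sign x) fun δ => ?_
      refine prot_of_eq ?_
      rintro x ⟨_, hx⟩ y ⟨_, hy⟩ x' ⟨_, hx'⟩ y' ⟨_, hy'⟩
      have hx1 : Perm.sign x = ε := hx
      have hx2 : Perm.sign x' = ε := hx'
      have hy1 : Perm.sign y = δ := hy
      have hy2 : Perm.sign y' = δ := hy'
      refine eq_of_cert (C := ∅) (fun σ hσ _ => hinv _ σ hσ) ?_ (by simp)
      rw [Perm.sign_mul, Perm.sign_mul, Perm.sign_inv, Perm.sign_inv, hx1, hx2, hy1, hy2]
    refine h2.le ?_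
    have : 1 ≤ s ^ 7 := Nat.one_le_pow _ _ (by omega)
    omega
  · push Not at hinv
    obtain ⟨x₀, σ₀, hσ₀, hne₀⟩ := hinv
    have hcardΩ := card_le_of_not_inv hf ⟨x₀, σ₀, hσ₀, hne₀⟩
    have hL : Fintype.card Ω ≤ 2 ^ s := by
      have h3 := Nat.lt_pow_succ_log_self (b := 2) (by norm_num) r
      rw [Nat.succ_eq_add_one, ← ht] at h3
      have h4 : 2 ^ s = 4 * 2 ^ (t + 1) := by rw [hs]; ring
      have h5 : 1 ≤ 2 ^ (t + 1) := Nat.one_le_two_pow
      omega
    set c₀ := t ^ 2 * (6 * t + 2) with hc₀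
    have hc₀s : c₀ + 1 ≤ 6 * s ^ 3 := by
      rw [hc₀, hs]
      nlinarith [Nat.zero_le t, Nat.zero_le (t ^ 2)]
    by_cases hsmall : Fintype.card Ω ≤ 2 * c₀ + 1
    · -- Alice sends everything
      have h2 : Prot (fun x y => f (x * y⁻¹)) (1 + s * Fintype.card Ω) Set.univ Set.univ := by
        refine alice_send (Z := Ω → Ω) ?_ (fun x : Perm Ω => (x : Ω → Ω)) fun g => ?_
        · rw [Nat.card_eq_fintype_card, Fintype.card_fun, pow_mul]
          exact Nat.pow_le_pow_left hL _
        · refine prot_simple (Or.inl ?_)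
          rintro x ⟨_, hx⟩ x' ⟨_, hx'⟩ y _
          have hx1 : (x : Ω → Ω) = g := hx
          have hx2 : (x' : Ω → Ω) = g := hx'
          have h3 : x = x' := DFunLike.coe_injective (hx1.trans hx2.symm)
          rw [h3]
      refine h2.le ?_
      have h3 : 1 ≤ s := by omega
      have h4 : s ^ 4 ≤ s ^ 7 := Nat.pow_le_pow_right h3 (by norm_num)
      calc 1 + s * Fintype.card Ω ≤ 1 + s * (2 * c₀ + 1) := by
            have := Nat.mul_le_mul_left s hsmall
            omega
        _ ≤ 1 + s * (12 * s ^ 3) := by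
            have : 2 * c₀ + 1 ≤ 12 * s ^ 3 := by omega
            have := Nat.mul_le_mul_left s this
            omega
        _ = 1 + 12 * s ^ 4 := by ring
        _ ≤ 288 * s ^ 7 := by
            have : 1 ≤ s ^ 7 := Nat.one_le_pow _ _ (by omega)
            omega
    · push Not at hsmall
      choose C hCcard hC using fun z => cert_sym hf z
      have h2 : Prot (fun x y => f (x * y⁻¹)) ((2 * c₀) * (2 * c₀) * (s + s) + 1 + 1)
          Set.univ Set.univ := by
        refine alice_send card_units_le (fun x : Perm Ω => Perm.sign x) fun ε => ?_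
        refine bob_send card_units_le (fun x : Perm Ω => Perm.sign x) fun δ => ?_
        refine cert_prot (fun x y => f (x * y⁻¹)) ansS (s + s) (2 * c₀)
          (fun x y => (C (x * y⁻¹)).image Sum.inl ∪
            (C (x * y⁻¹)).image fun c => Sum.inr ((x * y⁻¹) c)) ?_ ?_ _ _ ?_
        · intro x y
          refine (Finset.card_union_le _ _).trans ?_
          have h3 : ((C (x * y⁻¹)).image (Sum.inl : Ω → Ω ⊕ Ω)).card ≤ c₀ :=
            Finset.card_image_le.trans (hCcard _)
          have h4 : ((C (x * y⁻¹)).image fun c => (Sum.inr ((x * y⁻¹) c) : Ω ⊕ Ω)).card ≤ c₀ :=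
            Finset.card_image_le.trans (hCcard _)
          omega
        · intro x y q _
          exact askS _ hL q
        · rintro x ⟨_, hx⟩ y ⟨_, hy⟩ x' ⟨_, hx'⟩ y' ⟨_, hy'⟩ h1 h0
          have hx1 : Perm.sign x = ε := hx
          have hx2 : Perm.sign x' = ε := hx'
          have hy1 : Perm.sign y = δ := hy
          have hy2 : Perm.sign y' = δ := hy'
          have hsz : Perm.sign (x * y⁻¹) = Perm.sign (x' * y'⁻¹) := by
            rw [Perm.sign_mul, Perm.sign_mul, Perm.sign_inv, Perm.sign_inv, hx1, hx2, hy1, hy2]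
          by_contra hcon
          push Not at hcon
          set z := x * y⁻¹ with hz
          set z' := x' * y'⁻¹ with hz'
          have e1 : ∀ c ∈ C z ∩ C z', z c = z' c := by
            intro c hc
            rw [mem_inter] at hc
            exact hcon (Sum.inl c) (mem_union_left _ (mem_image_of_mem _ hc.1))
              (mem_union_left _ (mem_image_of_mem _ hc.2))
          have e2 : ∀ c ∈ C z, ∀ c' ∈ C z', z c = z' c' → c = c' := by
            intro c hc c' hc' hcc
            have h3 := hcon (Sum.inr (z c))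
              (mem_union_right _ (mem_image.mpr ⟨c, hc, rfl⟩))
              (mem_union_right _ (mem_image.mpr ⟨c', hc', by rw [hcc]⟩))
            have h4 : z⁻¹ (z c) = z'⁻¹ (z c) := h3
            rw [← Perm.mul_apply, inv_mul_cancel, Perm.one_apply, hcc, ← Perm.mul_apply,
              inv_mul_cancel, Perm.one_apply] at h4
            exact h4
          obtain ⟨w, hws, hw1, hw2⟩ := exists_common (C := C z) (C' := C z') (z := z) (z' := z')
            (by
              have h7 : (C z).card ≤ c₀ := hCcard z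
              have h8 : (C z').card ≤ c₀ := hCcard z'
              omega) e1 e2 (Perm.sign z)
          have h5 := eq_of_cert (hC z) hws hw1
          have h6 := eq_of_cert (hC z') (hws.trans hsz) hw2
          have h1' : f z = true := h1
          have h0' : f z' = false := h0
          rw [h5, h1', h0'] at h6
          exact Bool.noConfusion h6
      refine h2.le ?_
      have h3 : 1 ≤ s := by omega
      calc (2 * c₀) * (2 * c₀) * (s + s) + 1 + 1 = 8 * (c₀ * c₀ * s) + 2 := by ring
        _ ≤ 8 * ((c₀ + 1) * (c₀ + 1) * s) := by nlinarith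
        _ ≤ 8 * ((6 * s ^ 3) * (6 * s ^ 3) * s) :=
            Nat.mul_le_mul_left _ (Nat.mul_le_mul_right _ (Nat.mul_le_mul hc₀s hc₀s))
        _ = 288 * s ^ 7 := by ring

end Pool.Agent.Q174.CY
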