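import Pool.Agent.Q174.CY.PAb
import Pool.Agent.Q174.CY.PSym
import Pool.Agent.Q174.CY.PProd
import Pool.Agent.Q174.CY.Col
import Pool.Agent.Q174.AF.Cor

/-!
# Matrices with a group of symmetries with few orbits
-/

set_option autoImplicit false

namespace Pool.Agent.Q174.CY

open Finset Pool.Agent.Q174.TD Equiv

lemma prot_congr {X Y : Type*} {F F' : X → Y → Bool} {c : ℕ} {A : Set X} {B : Set Y}
    (h : Prot F' c A B) (heq : ∀ x ∈ A, ∀ y ∈ B, F x y = F' x y) : Prot F c A B := by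
  induction h with
  | const c A B b hb => exact Prot.const _ _ _ b fun x hx y hy => (heq x hx y hy).trans (hb x hx y hy)
  | alice c A B S _ _ ih₁ ih₂ =>
    exact Prot.alice _ _ _ S (ih₁ fun x hx y hy => heq x hx.1 y hy)
      (ih₂ fun x hx y hy => heq x hx.1 y hy)
  | bob c A B S _ _ ih₁ ih₂ =>
    exact Prot.bob _ _ _ S (ih₁ fun x hx y hy => heq x hx y hy.1)
      (ih₂ fun x hx y hy => heq x hx y hy.1)

/-- **Few orbits.** -/
theorem orb_prot {X Y G : Type} [Fintype X] [Fintype Y] [Group G] [MulAction G X]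
    [MulAction G Y] (F : X → Y → Bool) (hF : ∀ (g : G) x y, F (g • x) (g • y) = F x y)
    {k l c : ℕ} (b : Fin k → X) (hb : ∀ x, ∃ j, ∃ g : G, g • b j = x) (b' : Fin l → Y)
    (hb' : ∀ y, ∃ j, ∃ g : G, g • b' j = y)
    (hprot : ∀ f : G → Bool,
      RankLE f (Matrix.of fun (x : X) (y : Y) => if F x y then (1 : ℝ) else 0).rank →
      Prot (fun g h => f (g * h⁻¹)) c Set.univ Set.univ) :
    Prot F (c + Nat.clog 2 l + Nat.clog 2 k) Set.univ Set.univ := by
  obtain ⟨U, W, hUW⟩ := rank_fact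
    (Matrix.of fun (x : X) (y : Y) => if F x y then (1 : ℝ) else 0) rfl
  choose j g hg using hb
  choose j' h hh using hb'
  refine alice_send (Z := Fin k) ?_ j fun i => ?_
  · rw [Nat.card_eq_fintype_card, Fintype.card_fin]
    exact Nat.le_pow_clog (by norm_num) k
  refine bob_send (Z := Fin l) ?_ j' fun i' => ?_
  · rw [Nat.card_eq_fintype_card, Fintype.card_fin]
    exact Nat.le_pow_clog (by norm_num) l
  have h1 := hprot (fun z => F (b i) (z • b' i')) ⟨fun k a => U k (a⁻¹ • b i),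
    fun k a => W k (a⁻¹ • b' i'), fun a c => by
      rw [← hUW, Matrix.of_apply]
      have h2 : F (b i) ((a * c⁻¹) • b' i') = F (a⁻¹ • b i) (c⁻¹ • b' i') := by
        rw [← hF a (a⁻¹ • b i) (c⁻¹ • b' i'), smul_inv_smul, mul_smul]
      change (if F (b i) ((a * c⁻¹) • b' i') then (1 : ℝ) else 0) = _
      rw [h2]⟩
  have h2 := Pool.Agent.Q174.AF.prot_comap
    (F := fun x y => F (b i) ((((g x)⁻¹ * ((h y)⁻¹)⁻¹) : G) • b' i'))
    (F' := fun g h : G => F (b i) ((g * h⁻¹) • b' i')) (fun x : X => (g x)⁻¹)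
    (fun y : Y => (h y)⁻¹) (fun x y => rfl) h1
  refine prot_congr (h2.mono (fun x _ => Set.mem_univ _) (fun y _ => Set.mem_univ _)) ?_
  rintro x ⟨_, hx⟩ y ⟨_, hy⟩
  have hx' : j x = i := hx
  have hy' : j' y = i' := hy
  have h3 := hg x
  have h4 := hh y
  rw [hx'] at h3
  rw [hy'] at h4
  change F x y = F (b i) (((g x)⁻¹ * ((h y)⁻¹)⁻¹) • b' i')
  rw [inv_inv, mul_smul, h4, ← h3, ← hF (g x) (b i) _, h3, smul_inv_smul]

/-- abelian groups, multiplicative version -/
theorem prot_comm {G : Type} [Group G] [Finite G] (hcomm : ∀ a b : G, a * b = b * a) {d : ℕ}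
    (s : Fin d → G) (hs : Subgroup.closure (Set.range s) = ⊤) {f : G → Bool} {r : ℕ}
    (hf : RankLE f r) :
    Prot (fun x y => f (x * y⁻¹)) (2 * d * (Nat.log 2 r + 2) ^ 7) Set.univ Set.univ := by
  let inst : CommGroup G := { (inferInstance : Group G) with mul_comm := hcomm }
  obtain ⟨Γ, _, _, φ, hadd, hzero, hmem, hsurj, s', -, hrep⟩ := closure_repr s
    (fun i j => hcomm _ _)
  have hsub : ∀ a b, φ (a - b) = φ a * (φ b)⁻¹ := by
    intro a b
    rw [eq_mul_inv_iff_mul_eq, ← hadd, sub_add_cancel]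
  obtain ⟨u, v, h⟩ := hf
  have hcard : (active fun a : Γ => f (φ a)).card ≤ r := by
    refine card_active_le _ (fun k a => u k (φ a)) (fun k a => v k (φ a)) fun a b => ?_
    rw [hsub, h]
  have h1 := prot_ab (fun a : Γ => f (φ a)) hcard s' hrep
  have hψ : ∀ x : G, ∃ a, φ a = x := fun x => hsurj x (by rw [hs]; exact Subgroup.mem_top x)
  choose ψ hψ using hψ
  refine (Pool.Agent.Q174.AF.prot_comap (F := fun x y => f (x * y⁻¹)) ψ ψ (fun x y => ?_) h1).mono
    (fun x _ => Set.mem_univ _) (fun x _ => Set.mem_univ _)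
  rw [hsub, hψ, hψ]

/-- a function on the alternating group, extended by `false` -/
noncomputable def extA {Ω : Type*} [Fintype Ω] [DecidableEq Ω] (f : alternatingGroup Ω → Bool)
    (σ : Perm Ω) : Bool := by
  classical
  exact if h : σ ∈ alternatingGroup Ω then f ⟨σ, h⟩ else false

lemma extA_rank {Ω : Type*} [Fintype Ω] [DecidableEq Ω] {f : alternatingGroup Ω → Bool} {r : ℕ}
    (hf : RankLE f r) : RankLE (extA f) (r + r) := by
  classical
  obtain ⟨u, v, h⟩ := hf
  -- an odd permutation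
  obtain ⟨τ, hτ⟩ : ∃ τ : Perm Ω, ∀ a : Perm Ω, a ∉ alternatingGroup Ω →
      a * τ⁻¹ ∈ alternatingGroup Ω := by
    by_cases h1 : ∃ τ : Perm Ω, τ ∉ alternatingGroup Ω
    · obtain ⟨τ, hτ⟩ := h1
      refine ⟨τ, fun a ha => ?_⟩
      rw [Perm.mem_alternatingGroup] at hτ ha ⊢
      rw [Perm.sign_mul, Perm.sign_inv, (Int.units_eq_one_or _).resolve_left hτ,
        (Int.units_eq_one_or _).resolve_left ha]
      decide
    · push Not at h1
      exact ⟨1, fun a ha => absurd (h1 a) ha⟩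
  refine ⟨Fin.addCases (fun k a => if ha : a ∈ alternatingGroup Ω then u k ⟨a, ha⟩ else 0)
      (fun k a => if ha : a ∉ alternatingGroup Ω then u k ⟨a * τ⁻¹, hτ a ha⟩ else 0),
    Fin.addCases (fun k a => if ha : a ∈ alternatingGroup Ω then v k ⟨a, ha⟩ else 0)
      (fun k a => if ha : a ∉ alternatingGroup Ω then v k ⟨a * τ⁻¹, hτ a ha⟩ else 0), ?_⟩
  intro a b
  rw [Fin.sum_univ_add]
  simp only [Fin.addCases_left, Fin.addCases_right]
  have hmul : a * b⁻¹ ∈ alternatingGroup Ω ↔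
      (a ∈ alternatingGroup Ω ↔ b ∈ alternatingGroup Ω) := by
    simp only [Perm.mem_alternatingGroup, Perm.sign_mul, Perm.sign_inv]
    rcases Int.units_eq_one_or (Perm.sign a) with h1 | h1 <;>
      rcases Int.units_eq_one_or (Perm.sign b) with h2 | h2 <;> rw [h1, h2] <;> decide
  by_cases ha : a ∈ alternatingGroup Ω <;> by_cases hb : b ∈ alternatingGroup Ω
  · have hab : a * b⁻¹ ∈ alternatingGroup Ω := hmul.mpr (by simp [ha, hb])
    simp only [extA, ha, hb, hab, dif_pos, not_true_eq_false, dif_neg, not_false_eq_true,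
      mul_zero, Finset.sum_const_zero, add_zero]
    rw [← h]
    rfl
  · have hab : a * b⁻¹ ∉ alternatingGroup Ω := fun h1 => hb ((hmul.mp h1).mp ha)
    simp [extA, ha, hb, hab]
  · have hab : a * b⁻¹ ∉ alternatingGroup Ω := fun h1 => ha ((hmul.mp h1).mpr hb)
    simp [extA, ha, hb, hab]
  · have hab : a * b⁻¹ ∈ alternatingGroup Ω := hmul.mpr (by simp [ha, hb])
    simp only [extA, ha, hb, hab, dif_pos, dif_neg, not_false_eq_true,
      mul_zero, Finset.sum_const_zero, zero_add]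
    rw [← h]
    have h1 : (⟨a * τ⁻¹, hτ a ha⟩ : alternatingGroup Ω) * (⟨b * τ⁻¹, hτ b hb⟩)⁻¹ =
        ⟨a * b⁻¹, hab⟩ := by
      refine Subtype.ext ?_
      change a * τ⁻¹ * (b * τ⁻¹)⁻¹ = a * b⁻¹
      group
    rw [h1]

/-- the alternating group -/
theorem prot_alt {Ω : Type*} [Fintype Ω] [DecidableEq Ω] {f : alternatingGroup Ω → Bool}
    {r : ℕ} (hf : RankLE f r) :
    Prot (fun x y => f (x * y⁻¹)) (288 * (Nat.log 2 r + 4) ^ 7) Set.univ Set.univ := by
  classical
  have h1 := prot_sym (extA_rank hf)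
  have h2 : Prot (fun x y => f (x * y⁻¹)) (288 * (Nat.log 2 (r + r) + 3) ^ 7)
      Set.univ Set.univ := by
    refine (Pool.Agent.Q174.AF.prot_comap (F := fun x y => f (x * y⁻¹))
      (fun x : alternatingGroup Ω => (x : Perm Ω)) (fun x : alternatingGroup Ω => (x : Perm Ω))
      (fun x y => ?_) h1).mono (fun x _ => Set.mem_univ _) (fun x _ => Set.mem_univ _)
    have hxy : (x : Perm Ω) * (y : Perm Ω)⁻¹ ∈ alternatingGroup Ω := (x * y⁻¹).2
    simp only [extA, hxy, dif_pos]
    rfl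
  refine h2.le ?_
  refine Nat.mul_le_mul_left _ (Nat.pow_le_pow_left ?_ 7)
  have h3 : Nat.log 2 (r + r) ≤ Nat.log 2 r + 1 := by
    rcases Nat.eq_zero_or_pos r with h0 | h0
    · subst h0; simp
    · rw [← two_mul, mul_comm, Nat.log_mul_base (by norm_num) (by omega)]
  omega

/-- small perfect groups are quasirandom -/
theorem quasi_of_perfect (K : Type) [Group K] (a : ℕ) (h : commutator K = ⊤)
    (hcard : Nat.card K ≤ 2 ^ a) : Quasi a K := by
  refine ⟨h, fun V _ _ _ ρ hρ => ?_⟩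
  refine hcard.trans (Nat.pow_le_pow_left ?_ a)
  by_contra hlt
  push Not at hlt
  obtain ⟨g, hg⟩ := hρ
  -- all endomorphisms commute
  have hcomm : ∀ A B : Module.End ℂ V, A * B = B * A := by
    intro A B
    have h1 : Module.finrank ℂ V ≤ 1 := by omega
    obtain ⟨v, hv⟩ := finrank_le_one_iff.mp h1
    obtain ⟨c, hc⟩ := hv (A v)
    obtain ⟨d, hd⟩ := hv (B v)
    refine LinearMap.ext fun w => ?_
    obtain ⟨e, rfl⟩ := hv w
    rw [Module.End.mul_apply, Module.End.mul_apply, map_smul, map_smul, map_smul, map_smul,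
      ← hc, ← hd, map_smul, map_smul, ← hc, ← hd, smul_comm c d]
  have h2 : commutator K ≤ ρ.ker := by
    rw [commutator_def, Subgroup.commutator_le]
    intro x _ y _
    rw [MonoidHom.mem_ker, commutatorElement_def, map_mul, map_mul, map_mul, hcomm (ρ x) (ρ y),
      mul_assoc (ρ y), ← map_mul, mul_inv_cancel, map_one, mul_one, ← map_mul, mul_inv_cancel,
      map_one]
  rw [h] at h2
  exact hg (MonoidHom.mem_ker.mp (h2 (Subgroup.mem_top g)))

end Pool.Agent.Q174.CY
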