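import Pool.Agent.Q174.CY.Tree
import Pool.Agent.Q174.CY.Grp
import Pool.Agent.Q174.CY.Cert

/-!
# Protocols for functions of small rank on finite abelian groups
-/

set_option autoImplicit false

namespace Pool.Agent.Q174.CY

open Finset Pool.Agent.Q174.TD

variable {Γ : Type*} [AddCommGroup Γ] [Fintype Γ]

omit [Fintype Γ] in
/-- certificates which agree on common primes give the same value -/
lemma conf_grp {r : ℕ} {f : Γ → Bool} {z z' : Γ} {C C' : Finset {p // p ∈ PP r}}
    (hC : ∀ u, f (z + modl (qq r) C • u) = f z) (hC' : ∀ u, f (z' + modl (qq r) C' • u) = f z')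
    (hag : ∀ p ∈ C ∩ C', ∃ w, z' - z = qq r p • w) : f z = f z' := by
  classical
  -- `z' - z` is a multiple of the common modulus
  have h1 : ∀ D : Finset {p // p ∈ PP r}, (∀ p ∈ D, ∃ w, z' - z = qq r p • w) →
      ∃ w, z' - z = modl (qq r) D • w := by
    intro D
    induction D using Finset.induction_on with
    | empty => exact fun _ => ⟨z' - z, by simp [modl]⟩
    | insert p D hp ih =>
      intro hD
      obtain ⟨w₁, hw₁⟩ := hD p (mem_insert_self p D)
      obtain ⟨w₂, hw₂⟩ := ih fun p' hp' => hD p' (mem_insert_of_mem hp')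
      have hco : Nat.Coprime (qq r p) (modl (qq r) D) := by
        have := modl_coprime (qq_coprime r) (S := {p}) (T := D)
          (by rwa [Finset.disjoint_singleton_left])
        simpa [modl] using this
      obtain ⟨a, b, hab⟩ := Nat.isCoprime_iff_coprime.mpr hco
      refine ⟨a • w₂ + b • w₁, ?_⟩
      have e1 : modl (qq r) (insert p D) = qq r p * modl (qq r) D := Finset.prod_insert hp
      rw [e1]
      have e2 : (qq r p * modl (qq r) D) • (a • w₂ + b • w₁) =
          (a * (qq r p : ℤ)) • (modl (qq r) D • w₂) +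
            (b * (modl (qq r) D : ℤ)) • (qq r p • w₁) := by
        rw [smul_add]
        simp only [← natCast_zsmul, smul_smul]
        push_cast
        congr 2 <;> ring
      rw [e2, ← hw₁, ← hw₂, ← add_smul, hab, one_smul]
  obtain ⟨w, hw⟩ := h1 (C ∩ C') hag
  -- coprime parts
  have hco : Nat.Coprime (modl (qq r) C) (modl (qq r) (C' \ C)) :=
    modl_coprime (qq_coprime r) Finset.disjoint_sdiff
  obtain ⟨a, b, hab⟩ := Nat.isCoprime_iff_coprime.mpr hco
  have e1 : modl (qq r) C' = modl (qq r) (C ∩ C') * modl (qq r) (C' \ C) := by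
    rw [← modl_union]
    · congr 1
      ext p
      simp only [mem_union, mem_inter, mem_sdiff]
      tauto
    · rw [Finset.disjoint_left]
      intro p hp hp'
      rw [mem_inter] at hp
      rw [mem_sdiff] at hp'
      exact hp'.2 hp.1
  have h2 := hC (a • (z' - z))
  have h3 := hC' (-(b • w))
  have h4 : z + modl (qq r) C • (a • (z' - z)) = z' + modl (qq r) C' • (-(b • w)) := by
    have e2 : modl (qq r) C • (a • (z' - z)) = (a * (modl (qq r) C : ℤ)) • (z' - z) := by
      rw [← natCast_zsmul, smul_smul, mul_comm]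
    have e3 : modl (qq r) C' • (-(b • w)) =
        -((b * (modl (qq r) (C' \ C) : ℤ)) • (z' - z)) := by
      rw [hw, e1]
      simp only [← natCast_zsmul, smul_smul, smul_neg]
      push_cast
      congr 2
      ring
    have e4 : (a * (modl (qq r) C : ℤ)) = 1 - (b * (modl (qq r) (C' \ C) : ℤ)) := by
      linarith
    rw [e2, e3, e4, sub_smul, one_smul]
    abel
  rw [← h2, h4, h3]

/-- **Protocols for abelian groups.** -/
theorem prot_ab {r d : ℕ} (f : Γ → Bool) (hr : (active f).card ≤ r) (s : Fin d → Γ)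
    (hs : ∀ a : Γ, ∃ n : Fin d → ℤ, a = ∑ i, n i • s i) :
    Prot (fun a b => f (a - b)) (2 * d * (Nat.log 2 r + 2) ^ 7) Set.univ Set.univ := by
  classical
  choose n hn using hs
  choose C hCcard hC using fun z => cert_grp f hr z
  set L := (Nat.log 2 r + 2) * d with hL
  have key := cert_prot (F := fun a b => f (a - b))
    (ans := fun (p : {p // p ∈ PP r}) a b => fun i : Fin d =>
      (n a i % (qq r p : ℤ) - n b i % (qq r p : ℤ))) (L + L)
    ((Nat.log 2 r + 1) ^ 3) (fun a b => C (a - b)) (fun a b => hCcard _) ?_ Set.univ Set.univ ?_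
  · refine key.le ?_
    have h1 : (Nat.log 2 r + 1) ^ 3 * (Nat.log 2 r + 1) ^ 3 ≤ (Nat.log 2 r + 2) ^ 6 := by
      calc (Nat.log 2 r + 1) ^ 3 * (Nat.log 2 r + 1) ^ 3 = (Nat.log 2 r + 1) ^ 6 := by ring
        _ ≤ _ := Nat.pow_le_pow_left (by omega) 6
    calc _ ≤ (Nat.log 2 r + 2) ^ 6 * (L + L) := Nat.mul_le_mul_right _ h1
      _ = _ := by rw [hL]; ring
  · intro a b p _ k A B h
    have hq0 : (0 : ℤ) < qq r p := by exact_mod_cast qq_pos r p
    have hlt : ∀ (a : Γ) (i : Fin d), (n a i % (qq r p : ℤ)).toNat < qq r p := by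
      intro a i
      have h1 := Int.emod_lt_of_pos (n a i) hq0
      have h2 := Int.emod_nonneg (n a i) hq0.ne'
      omega
    have hcardZ : Nat.card (Fin d → Fin (qq r p)) ≤ 2 ^ L := by
      rw [Nat.card_eq_fintype_card, Fintype.card_fun, Fintype.card_fin, Fintype.card_fin, hL,
        pow_mul]
      exact Nat.pow_le_pow_left (qq_le r p) d
    rw [← add_assoc]
    refine alice_send hcardZ (fun a i => ⟨_, hlt a i⟩) fun za => ?_
    refine bob_send hcardZ (fun b i => ⟨_, hlt b i⟩) fun zb => ?_
    refine h _ Set.inter_subset_left _ Set.inter_subset_left ?_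
    rintro x ⟨_, hx⟩ y ⟨_, hy⟩ x' ⟨_, hx'⟩ y' ⟨_, hy'⟩
    funext i
    have h1 := congrArg Fin.val ((congrFun hx i).trans (congrFun hx' i).symm)
    have h2 := congrArg Fin.val ((congrFun hy i).trans (congrFun hy' i).symm)
    simp only at h1 h2
    have h3 := Int.emod_nonneg (n x i) hq0.ne'
    have h4 := Int.emod_nonneg (n x' i) hq0.ne'
    have h5 := Int.emod_nonneg (n y i) hq0.ne'
    have h6 := Int.emod_nonneg (n y' i) hq0.ne'
    simp only
    omega
  · intro a _ b _ a' _ b' _ h1 h2
    by_contra hcon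
    push Not at hcon
    have h3 : f (a - b) = f (a' - b') := by
      refine conf_grp (hC (a - b)) (hC (a' - b')) fun p hp => ?_
      rw [mem_inter] at hp
      have h4 := hcon p hp.1 hp.2
      have h5 : ∀ i, ∃ w : ℤ, (n a' i - n b' i) - (n a i - n b i) = (qq r p : ℤ) * w := by
        intro i
        have h6 := congrFun h4 i
        have e1 := Int.emod_add_mul_ediv (n a i) (qq r p)
        have e2 := Int.emod_add_mul_ediv (n b i) (qq r p)
        have e3 := Int.emod_add_mul_ediv (n a' i) (qq r p)
        have e4 := Int.emod_add_mul_ediv (n b' i) (qq r p)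
        refine ⟨n a' i / qq r p - n b' i / qq r p - n a i / qq r p + n b i / qq r p, ?_⟩
        linarith
      choose w hw using h5
      refine ⟨∑ i, w i • s i, ?_⟩
      have e1 : a' - b' - (a - b) = ∑ i, ((n a' i - n b' i) - (n a i - n b i)) • s i := by
        simp only [sub_smul, Finset.sum_sub_distrib]
        rw [← hn, ← hn, ← hn, ← hn]
      rw [e1, Finset.smul_sum]
      refine Finset.sum_congr rfl fun i _ => ?_
      rw [hw, mul_smul, natCast_zsmul]
    rw [h1, h2] at h3
    exact Bool.noConfusion h3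

end Pool.Agent.Q174.CY
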