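import Pool.Agent.Q174.CY.Grp2
import Pool.Agent.Q174.CY.Cert

/-!
# Boolean functions of small rank on the symmetric group have small certificates
-/

set_option autoImplicit false

namespace Pool.Agent.Q174.CY

open Finset Equiv
open scoped commutatorElement

lemma alt_le_comm {α : Type*} [Fintype α] [DecidableEq α] {σ : Perm α}
    (h : Perm.sign σ = 1) : σ ∈ commutator (Perm α) := by
  have h1 : σ ∈ alternatingGroup α := by rwa [Perm.mem_alternatingGroup]
  rw [← Perm.closure_three_cycles_eq_alternating] at h1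
  refine (Subgroup.closure_le _).mpr ?_ h1
  intro τ hτ
  have hτ' : τ.IsThreeCycle := hτ
  have hconj : IsConj τ τ⁻¹ := by
    rw [Perm.isConj_iff_cycleType_eq, Perm.cycleType_inv]
  obtain ⟨g, hg⟩ := isConj_iff.mp hconj
  have h3 : τ ^ 3 = 1 := by rw [← hτ'.orderOf]; exact pow_orderOf_eq_one τ
  have h4 : ⁅g, τ⁆ = τ := by
    rw [commutatorElement_def, hg]
    have h5 : τ * τ * τ = 1 := by rw [← h3]; simp [pow_succ]
    calc τ⁻¹ * τ⁻¹ = τ⁻¹ * τ⁻¹ * (τ * τ * τ) := by rw [h5, mul_one]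
      _ = τ := by group
  rw [SetLike.mem_coe, ← h4, commutator_def]
  exact Subgroup.commutator_mem_commutator (Subgroup.mem_top g) (Subgroup.mem_top τ)

section blk

variable {Ω : Type*} [Fintype Ω] [DecidableEq Ω]

/-- `σ` moves only points of `B` -/
def On (σ : Perm Ω) (B : Finset Ω) : Prop := ∀ ω, ω ∉ B → σ ω = ω

omit [Fintype Ω] [DecidableEq Ω] in
lemma On.map {σ : Perm Ω} {B : Finset Ω} (h : On σ B) : ∀ ω, σ ω ∈ B ↔ ω ∈ B := by
  intro ω
  constructor
  · intro h1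
    by_contra h2
    rw [h ω h2] at h1
    exact h2 h1
  · intro h1
    by_contra h2
    have h3 := h _ h2
    have h4 := σ.injective h3
    rw [h4] at h2
    exact h2 h1

/-- the restriction to `B` -/
def rst (σ : Perm Ω) {B : Finset Ω} (h : On σ B) : Perm {ω // ω ∈ B} :=
  σ.subtypePerm h.map

omit [Fintype Ω] [DecidableEq Ω] in
lemma rst_apply {σ : Perm Ω} {B : Finset Ω} (h : On σ B) (ω : {ω // ω ∈ B}) :
    (rst σ h ω : Ω) = σ ω := rfl

lemma sign_rst {σ : Perm Ω} {B : Finset Ω} (h : On σ B) :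
    Perm.sign (rst σ h) = Perm.sign σ := by
  have h1 : ∀ ω, σ ω ≠ ω → ω ∈ B := by
    intro ω hne
    by_contra h2
    exact hne (h ω h2)
  have key : ∀ inst : Fintype {ω // ω ∈ B}, @Perm.sign _ _ inst (rst σ h) = Perm.sign σ := by
    intro inst
    have h2 : inst = Subtype.fintype (fun ω => ω ∈ B) := Subsingleton.elim _ _
    subst h2
    exact Perm.sign_subtypePerm σ h.map h1
  exact key _

/-- the disjoint blocks -/
def Dis (𝓑 : Finset (Finset Ω)) : Prop := ∀ B ∈ 𝓑, ∀ B' ∈ 𝓑, B ≠ B' → Disjoint B B'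

/-- the embedding of the disjoint union of the blocks -/
def emb (𝓑 : Finset (Finset Ω)) (hd : Dis 𝓑) :
    (Σ B : {B // B ∈ 𝓑}, {ω // ω ∈ B.1}) ↪ Ω where
  toFun p := p.2.1
  inj' := by
    rintro ⟨B, ω⟩ ⟨B', ω'⟩ h
    have h' : ω.1 = ω'.1 := h
    have h1 : B = B' := by
      by_contra hne
      have h2 := hd B.1 B.2 B'.1 B'.2 (fun h => hne (Subtype.ext h))
      exact Finset.disjoint_left.mp h2 ω.2 (h' ▸ ω'.2)
    subst h1
    have h2 : ω = ω' := Subtype.ext h'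
    rw [h2]

/-- independent permutations of the blocks -/
noncomputable def blk (𝓑 : Finset (Finset Ω)) (hd : Dis 𝓑) :
    (∀ B : {B // B ∈ 𝓑}, Perm {ω // ω ∈ B.1}) →* Perm Ω :=
  (Perm.viaEmbeddingHom (emb 𝓑 hd)).comp
    (Perm.sigmaCongrRightHom fun B : {B // B ∈ 𝓑} => {ω // ω ∈ B.1})

omit [Fintype Ω] in
lemma blk_in {𝓑 : Finset (Finset Ω)} (hd : Dis 𝓑) (n : ∀ B : {B // B ∈ 𝓑}, Perm {ω // ω ∈ B.1})
    (B : {B // B ∈ 𝓑}) (ω : {ω // ω ∈ B.1}) : blk 𝓑 hd n ω.1 = (n B ω).1 := by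
  have h := Perm.viaEmbedding_apply
    (Perm.sigmaCongrRightHom (fun B : {B // B ∈ 𝓑} => {ω // ω ∈ B.1}) n) (emb 𝓑 hd) ⟨B, ω⟩
  exact h

omit [Fintype Ω] in
lemma blk_out {𝓑 : Finset (Finset Ω)} (hd : Dis 𝓑) (n : ∀ B : {B // B ∈ 𝓑}, Perm {ω // ω ∈ B.1})
    (ω : Ω) (hω : ∀ B ∈ 𝓑, ω ∉ B) : blk 𝓑 hd n ω = ω := by
  refine Perm.viaEmbedding_apply_of_notMem
    (Perm.sigmaCongrRightHom (fun B : {B // B ∈ 𝓑} => {ω // ω ∈ B.1}) n) (emb 𝓑 hd) ω ?_
  rintro ⟨⟨B, ω'⟩, h⟩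
  have h' : ω'.1 = ω := h
  exact hω B.1 B.2 (h' ▸ ω'.2)

omit [Fintype Ω] in
lemma blk_single {𝓑 : Finset (Finset Ω)} (hd : Dis 𝓑) (B : {B // B ∈ 𝓑}) (σ : Perm Ω)
    (h : On σ B.1) : blk 𝓑 hd (Pi.mulSingle B (rst σ h)) = σ := by
  refine Equiv.ext fun ω => ?_
  by_cases h1 : ω ∈ B.1
  · have h2 := blk_in hd (Pi.mulSingle B (rst σ h)) B ⟨ω, h1⟩
    rw [Pi.mulSingle_eq_same] at h2
    exact h2
  · rw [h ω h1]
    by_cases h2 : ∃ B' ∈ 𝓑, ω ∈ B'
    · obtain ⟨B', hB', hω⟩ := h2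
      have hne : (⟨B', hB'⟩ : {B // B ∈ 𝓑}) ≠ B := by
        rintro rfl
        exact h1 hω
      have h3 := blk_in hd (Pi.mulSingle B (rst σ h)) ⟨B', hB'⟩ ⟨ω, hω⟩
      rw [Pi.mulSingle_eq_of_ne hne] at h3
      exact h3
    · push Not at h2
      exact blk_out hd _ ω h2

/-- a block with a sensitive even permutation -/
def SB (f : Perm Ω → Bool) (x : Perm Ω) (B : Finset Ω) : Prop :=
  ∃ σ : Perm Ω, Perm.sign σ = 1 ∧ On σ B ∧ f (x * σ) ≠ f x

def MinSB (f : Perm Ω → Bool) (x : Perm Ω) (B : Finset Ω) : Prop :=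
  SB f x B ∧ ∀ B' ⊂ B, ¬ SB f x B'

lemma exists_minSB {f : Perm Ω → Bool} {x : Perm Ω} {B : Finset Ω} (h : SB f x B) :
    ∃ B' ⊆ B, MinSB f x B' := by
  classical
  induction B using Finset.strongInduction with
  | H T ih =>
    by_cases h1 : ∀ T' ⊂ T, ¬ SB f x T'
    · exact ⟨T, Finset.Subset.refl _, h, h1⟩
    · push Not at h1
      obtain ⟨T', h2, h3⟩ := h1
      obtain ⟨T'', h4, h5⟩ := ih T' h2 h3
      exact ⟨T'', h4.trans h2.1, h5⟩

lemma sb_family {f : Perm Ω → Bool} {r : ℕ} (hf : RankLE f r) (x : Perm Ω)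
    (𝓑 : Finset (Finset Ω)) (hd : Dis 𝓑) (hsb : ∀ B ∈ 𝓑, SB f x B) :
    𝓑.card ≤ (Nat.log 2 r) ^ 2 := by
  have hch : ∀ B : {B // B ∈ 𝓑}, ∃ σ : Perm Ω, Perm.sign σ = 1 ∧ On σ B.1 ∧ f (x * σ) ≠ f x :=
    fun B => hsb B.1 B.2
  choose σ hσ1 hσ2 hσ3 using hch
  have h1 := grp_sens hf (blk 𝓑 hd) x (fun B => rst (σ B) (hσ2 B))
    (fun B => alt_le_comm (by rw [sign_rst]; exact hσ1 B))
    (fun B => by rw [blk_single]; exact hσ3 B)
  rwa [Fintype.card_coe] at h1

/-- minimal sensitive blocks are small -/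
lemma minSB_card {f : Perm Ω → Bool} {r : ℕ} (hf : RankLE f r) {x : Perm Ω} {B : Finset Ω}
    (h : MinSB f x B) : B.card ≤ 6 * Nat.log 2 r + 2 := by
  classical
  obtain ⟨⟨σ, hσ1, hσ2, hσ3⟩, hmin⟩ := h
  have hmove : ∀ ω ∈ B, σ ω ≠ ω := by
    intro ω hω hfix
    refine hmin (B.erase ω) (Finset.erase_ssubset hω) ⟨σ, hσ1, fun ω' hω' => ?_, hσ3⟩
    rw [Finset.mem_erase, not_and_or, not_not] at hω'
    rcases hω' with rfl | hω'
    · exact hfix
    · exact hσ2 ω' hω'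
  -- families of triples
  set Trip : Finset Ω → Prop := fun T => ∃ q a, q ∈ B ∧ a ∈ B ∧ q ≠ a ∧ σ q ≠ a ∧
    T = {q, σ q, a} with hTrip
  set 𝓐 : Finset (Finset (Finset Ω)) := univ.filter fun 𝓣 : Finset (Finset Ω) =>
    (∀ T ∈ 𝓣, Trip T) ∧ Dis 𝓣 with h𝓐
  have hne : 𝓐.Nonempty := ⟨∅, by
    rw [h𝓐, mem_filter]
    exact ⟨mem_univ _, fun T hT => absurd hT (Finset.notMem_empty _),
      fun T hT => absurd hT (Finset.notMem_empty _)⟩⟩
  obtain ⟨𝓣, h𝓣, hmax⟩ := Finset.exists_max_image 𝓐 (fun 𝓣 => 𝓣.card) hne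
  simp only [h𝓐, mem_filter, mem_univ, true_and] at h𝓣 hmax
  obtain ⟨htrip, hd⟩ := h𝓣
  -- few triples
  have hm : 𝓣.card ≤ Nat.log 2 r := by
    rcases 𝓣.eq_empty_or_nonempty with hemp | hnon
    · rw [hemp, Finset.card_empty]
      exact Nat.zero_le _
    have hch : ∀ T : {T // T ∈ 𝓣}, ∃ q a, q ∈ B ∧ a ∈ B ∧ q ≠ a ∧ σ q ≠ a ∧ T.1 = {q, σ q, a} :=
      fun T => htrip T.1 T.2
    choose q a hq ha hqa hpa hT using hch
    set c : {T // T ∈ 𝓣} → Perm Ω := fun T => swap (q T) (a T) * swap (q T) (σ (q T)) with hc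
    have hcq : ∀ T, c T (q T) = σ (q T) := by
      intro T
      simp only [hc, Perm.mul_apply, swap_apply_left]
      exact swap_apply_of_ne_of_ne (hmove _ (hq T)) (hpa T)
    have hcsign : ∀ T, Perm.sign (c T) = 1 := by
      intro T
      simp only [hc, Perm.sign_mul, Perm.sign_swap (hqa T),
        Perm.sign_swap (hmove _ (hq T)).symm]
      decide
    have hcOn : ∀ T, On (c T) T.1 := by
      intro T ω hω
      rw [hT T, mem_insert, mem_insert, mem_singleton, not_or, not_or] at hω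
      simp only [hc, Perm.mul_apply]
      rw [swap_apply_of_ne_of_ne hω.1 hω.2.1, swap_apply_of_ne_of_ne hω.1 hω.2.2]
    have hTB : ∀ T : {T // T ∈ 𝓣}, T.1 ⊆ B := by
      intro T ω hω
      rw [hT T, mem_insert, mem_insert, mem_singleton] at hω
      rcases hω with rfl | rfl | rfl
      · exact hq T
      · exact (hσ2.map _).mpr (hq T)
      · exact ha T
    set n : ∀ T : {T // T ∈ 𝓣}, Perm {ω // ω ∈ T.1} := fun T => rst (c T) (hcOn T) with hn
    set π : Perm Ω := σ * (blk 𝓣 hd n)⁻¹ with hπ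
    have hΦout : ∀ (k : ∀ T : {T // T ∈ 𝓣}, Perm {ω // ω ∈ T.1}) (ω : Ω), ω ∉ B →
        blk 𝓣 hd k ω = ω := by
      intro k ω hω
      exact blk_out hd k ω fun T hT' h1 => hω (hTB ⟨T, hT'⟩ h1)
    have hΦsign : ∀ S : Finset {T // T ∈ 𝓣}, Perm.sign (blk 𝓣 hd (mixn n S)) = 1 := by
      intro S
      induction S using Finset.induction_on with
      | empty => rw [mixn_empty, map_one, map_one]
      | insert T S hTS ih =>
        rw [mixn_insert n hTS, map_mul, map_mul, ih, mul_one]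
        simp only [hn]
        rw [blk_single hd T (c T) (hcOn T)]
        exact hcsign T
    have hnuniv : mixn n univ = n := by
      funext T
      simp [mixn]
    have hρ : ∀ S : Finset {T // T ∈ 𝓣}, S ≠ univ → f (x * (π * blk 𝓣 hd (mixn n S))) = f x := by
      intro S hS
      obtain ⟨T₀, hT₀⟩ : ∃ T₀, T₀ ∉ S := by
        by_contra hcon
        push Not at hcon
        exact hS (Finset.eq_univ_iff_forall.mpr hcon)
      by_contra hsens
      refine hmin (B.erase (σ (q T₀)))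
        (Finset.erase_ssubset ((hσ2.map _).mpr (hq T₀))) ⟨_, ?_, ?_, hsens⟩
      · rw [hπ, map_mul, map_mul, map_inv, hΦsign S, hσ1, ← hnuniv, hΦsign univ]
        simp
      · intro ω hω
        rw [Finset.mem_erase, not_and_or, not_not] at hω
        rw [hπ, Perm.mul_apply, Perm.mul_apply]
        rcases hω with rfl | hω
        · have hmem : σ (q T₀) ∈ T₀.1 := by
            rw [hT T₀]
            simp
          have h1 : blk 𝓣 hd (mixn n S) (σ (q T₀)) = σ (q T₀) := by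
            have h2 := blk_in hd (mixn n S) T₀ ⟨σ (q T₀), hmem⟩
            have h3 : mixn n S T₀ = 1 := by simp [mixn, hT₀]
            rw [h3] at h2
            exact h2
          have h4 : blk 𝓣 hd n (q T₀) = σ (q T₀) := by
            have hmem' : q T₀ ∈ T₀.1 := by
              rw [hT T₀]
              simp
            have h2 := blk_in hd n T₀ ⟨q T₀, hmem'⟩
            rw [h2]
            simp only [hn, rst_apply]
            exact hcq T₀
          rw [h1]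
          have h5 : (blk 𝓣 hd n)⁻¹ (σ (q T₀)) = q T₀ := by
            rw [Perm.inv_eq_iff_eq, h4]
          rw [h5]
        · rw [hΦout _ ω hω]
          have h5 : (blk 𝓣 hd n)⁻¹ ω = ω := by
            rw [Perm.inv_eq_iff_eq, hΦout _ ω hω]
          rw [h5, hσ2 ω hω]
    have hempty : (∅ : Finset {T // T ∈ 𝓣}) ≠ univ := by
      obtain ⟨T, hT'⟩ := hnon
      intro h1
      have := Finset.mem_univ (⟨T, hT'⟩ : {T // T ∈ 𝓣})
      rw [← h1] at this
      exact absurd this (Finset.notMem_empty _)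
    have hx' : f (x * π) = f x := by
      have := hρ ∅ hempty
      rwa [mixn_empty, map_one, mul_one] at this
    have h1 := grp_and hf (blk 𝓣 hd) (x * π) n
      (fun T => alt_le_comm (by simp only [hn]; rw [sign_rst]; exact hcsign T))
      (fun S hS => by rw [mul_assoc, hρ S hS, hx'])
      (by rw [mul_assoc, hπ, inv_mul_cancel_right, ← hπ, hx']; exact hσ3)
    rwa [Fintype.card_coe] at h1
  -- maximality
  by_contra hB
  push Not at hB
  set U : Finset Ω := 𝓣.biUnion id with hU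
  have hUcard : U.card ≤ 3 * 𝓣.card := by
    calc U.card ≤ ∑ T ∈ 𝓣, (id T : Finset Ω).card := Finset.card_biUnion_le
      _ ≤ ∑ _T ∈ 𝓣, 3 := Finset.sum_le_sum fun T hT => by
          obtain ⟨q, a, _, _, _, _, rfl⟩ := htrip T hT
          exact Finset.card_le_three
      _ = 3 * 𝓣.card := by rw [Finset.sum_const, smul_eq_mul, mul_comm]
  set D : Finset Ω := B \ U with hD
  have hDcard : 3 * 𝓣.card + 2 < D.card := by
    have := Finset.le_card_sdiff U B
    rw [← hD] at this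
    omega
  obtain ⟨q, hqD, hqU⟩ : ∃ q ∈ D, σ q ∉ U := by
    by_contra hcon
    push Not at hcon
    have h1 : D.card ≤ U.card := Finset.card_le_card_of_injOn σ hcon σ.injective.injOn
    omega
  have hqB : q ∈ B := (mem_sdiff.mp hqD).1
  have hpB : σ q ∈ B := (hσ2.map q).mpr hqB
  obtain ⟨a, ha⟩ : ((D.erase q).erase (σ q)).Nonempty := by
    rw [← Finset.card_pos]
    have h1 := Finset.pred_card_le_card_erase (s := D) (a := q)
    have h2 := Finset.pred_card_le_card_erase (s := D.erase q) (a := σ q)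
    omega
  rw [Finset.mem_erase, Finset.mem_erase] at ha
  have haD := mem_sdiff.mp ha.2.2
  have hTdis : ∀ T ∈ 𝓣, Disjoint {q, σ q, a} T := by
    intro T hT
    rw [Finset.disjoint_left]
    intro ω hω hωT
    have hωU : ω ∈ U := mem_biUnion.mpr ⟨T, hT, hωT⟩
    rw [mem_insert, mem_insert, mem_singleton] at hω
    rcases hω with rfl | rfl | rfl
    · exact (mem_sdiff.mp hqD).2 hωU
    · exact hqU hωU
    · exact haD.2 hωU
  have hTn : ({q, σ q, a} : Finset Ω) ∉ 𝓣 := by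
    intro h1
    have h2 := hTdis _ h1
    rw [Finset.disjoint_self_iff_empty] at h2
    exact absurd h2 (Finset.insert_ne_empty _ _)
  have h4 := hmax (insert {q, σ q, a} 𝓣) ⟨?_, ?_⟩
  · rw [Finset.card_insert_of_notMem hTn] at h4
    omega
  · intro T' hT'
    rw [mem_insert] at hT'
    rcases hT' with rfl | hT'
    · exact ⟨q, a, hqB, haD.1, ha.2.1.symm, ha.1.symm, rfl⟩
    · exact htrip T' hT'
  · intro T₁ hT₁ T₂ hT₂ hne
    rw [mem_insert] at hT₁ hT₂
    rcases hT₁ with rfl | hT₁ <;> rcases hT₂ with rfl | hT₂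
    · exact absurd rfl hne
    · exact hTdis T₂ hT₂
    · exact (hTdis T₁ hT₁).symm
    · exact hd T₁ hT₁ T₂ hT₂ hne

/-- **Certificates on the symmetric group.** -/
theorem cert_sym {f : Perm Ω → Bool} {r : ℕ} (hf : RankLE f r) (x : Perm Ω) :
    ∃ C : Finset Ω, C.card ≤ (Nat.log 2 r) ^ 2 * (6 * Nat.log 2 r + 2) ∧
      ∀ σ : Perm Ω, Perm.sign σ = 1 → (∀ ω ∈ C, σ ω = ω) → f (x * σ) = f x := by
  classical
  set 𝓐 : Finset (Finset (Finset Ω)) := univ.filter fun 𝓕 : Finset (Finset Ω) =>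
    (∀ T ∈ 𝓕, MinSB f x T) ∧ Dis 𝓕 with h𝓐
  have hne : 𝓐.Nonempty := ⟨∅, by
    rw [h𝓐, mem_filter]
    exact ⟨mem_univ _, fun T hT => absurd hT (Finset.notMem_empty _),
      fun T hT => absurd hT (Finset.notMem_empty _)⟩⟩
  obtain ⟨𝓕, h𝓕, hmax⟩ := Finset.exists_max_image 𝓐 (fun 𝓕 => 𝓕.card) hne
  simp only [h𝓐, mem_filter, mem_univ, true_and] at h𝓕 hmax
  obtain ⟨hmb, hdis⟩ := h𝓕
  refine ⟨𝓕.biUnion id, ?_, fun σ hσ1 hσ2 => ?_⟩
  · calc (𝓕.biUnion id).card ≤ ∑ T ∈ 𝓕, (id T : Finset Ω).card := Finset.card_biUnion_le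
      _ ≤ ∑ _T ∈ 𝓕, (6 * Nat.log 2 r + 2) :=
          Finset.sum_le_sum fun T hT => minSB_card hf (hmb T hT)
      _ = 𝓕.card * (6 * Nat.log 2 r + 2) := by rw [Finset.sum_const, smul_eq_mul]
      _ ≤ _ := Nat.mul_le_mul_right _ (sb_family hf x 𝓕 hdis fun T hT => (hmb T hT).1)
  · by_contra hcon
    have h1 : SB f x (univ.filter fun ω => σ ω ≠ ω) := by
      refine ⟨σ, hσ1, fun ω hω => ?_, hcon⟩
      by_contra h2
      exact hω (mem_filter.mpr ⟨mem_univ _, h2⟩)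
    obtain ⟨T, hT, hTm⟩ := exists_minSB h1
    have hTC : ∀ T' ∈ 𝓕, Disjoint T T' := by
      intro T' hT'
      rw [Finset.disjoint_left]
      intro i hi hi'
      have h2 := hT hi
      rw [mem_filter] at h2
      exact h2.2 (hσ2 i (mem_biUnion.mpr ⟨T', hT', hi'⟩))
    have hTn : T ∉ 𝓕 := by
      intro h2
      have h3 := hTC T h2
      rw [Finset.disjoint_self_iff_empty] at h3
      rw [h3] at hTm
      obtain ⟨⟨τ, _, h4, h5⟩, _⟩ := hTm
      have h6 : τ = 1 := Equiv.ext fun ω => h4 ω (Finset.notMem_empty ω)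
      rw [h6, mul_one] at h5
      exact h5 rfl
    have h4 := hmax (insert T 𝓕) ⟨?_, ?_⟩
    · rw [Finset.card_insert_of_notMem hTn] at h4
      omega
    · intro T' hT'
      rw [mem_insert] at hT'
      rcases hT' with rfl | hT'
      · exact hTm
      · exact hmb T' hT'
    · intro T₁ hT₁ T₂ hT₂ hne
      rw [mem_insert] at hT₁ hT₂
      rcases hT₁ with rfl | hT₁ <;> rcases hT₂ with rfl | hT₂
      · exact absurd rfl hne
      · exact hTC T₂ hT₂
      · exact (hTC T₁ hT₁).symm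
      · exact hdis T₁ hT₁ T₂ hT₂ hne

end blk

end Pool.Agent.Q174.CY
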