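import Pool.Agent.Q174.TD.Prot

/-!
# Protocols from certificates
-/

set_option autoImplicit false

namespace Pool.Agent.Q174.CY

open Finset Pool.Agent.Q174.TD

section tree

variable {X Y Q Z : Type*} [DecidableEq Q]

/-- the answer to `q` is known on the rectangle -/
def Known (ans : Q → X → Y → Z) (A : Set X) (B : Set Y) (q : Q) : Prop :=
  ∀ x ∈ A, ∀ y ∈ B, ∀ x' ∈ A, ∀ y' ∈ B, ans q x y = ans q x' y'

/-- the question `q` can be asked at the cost of `L` bits -/
def Askable (F : X → Y → Bool) (ans : Q → X → Y → Z) (L : ℕ) (q : Q) : Prop :=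
  ∀ (k : ℕ) (A : Set X) (B : Set Y), (∀ A' ⊆ A, ∀ B' ⊆ B, Known ans A' B' q → Prot F k A' B') →
    Prot F (k + L) A B

omit [DecidableEq Q] in
lemma Known.mono {ans : Q → X → Y → Z} {A A' : Set X} {B B' : Set Y} {q : Q}
    (h : Known ans A B q) (hA : A' ⊆ A) (hB : B' ⊆ B) : Known ans A' B' q :=
  fun x hx y hy x' hx' y' hy' => h x (hA hx) y (hB hy) x' (hA hx') y' (hB hy')

lemma ask_all {F : X → Y → Bool} {ans : Q → X → Y → Z} {L : ℕ} (C : Finset Q)
    (hC : ∀ q ∈ C, Askable F ans L q) (k : ℕ) (A : Set X) (B : Set Y)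
    (h : ∀ A' ⊆ A, ∀ B' ⊆ B, (∀ q ∈ C, Known ans A' B' q) → Prot F k A' B') :
    Prot F (k + C.card * L) A B := by
  induction C using Finset.induction_on generalizing A B with
  | empty =>
    rw [Finset.card_empty, zero_mul, add_zero]
    exact h A (Set.Subset.refl _) B (Set.Subset.refl _) (by simp)
  | insert q C hq ih =>
    rw [Finset.card_insert_of_notMem hq, add_mul, one_mul, ← add_assoc]
    refine hC q (mem_insert_self q C) _ A B fun A' hA' B' hB' hk => ?_
    refine ih (fun q' hq' => hC q' (mem_insert_of_mem hq')) A' B' fun A'' hA'' B'' hB'' hk' => ?_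
    refine h A'' (hA''.trans hA') B'' (hB''.trans hB') fun q' hq' => ?_
    rw [mem_insert] at hq'
    rcases hq' with rfl | hq'
    · exact hk.mono hA'' hB''
    · exact hk' q' hq'

/-- **Protocols from certificates.** -/
theorem cert_prot (F : X → Y → Bool) (ans : Q → X → Y → Z) (L m : ℕ)
    (Cert : X → Y → Finset Q) (hcard : ∀ x y, (Cert x y).card ≤ m)
    (hask : ∀ x y, ∀ q ∈ Cert x y, Askable F ans L q) (A₀ : Set X) (B₀ : Set Y)
    (hconf : ∀ x ∈ A₀, ∀ y ∈ B₀, ∀ x' ∈ A₀, ∀ y' ∈ B₀, F x y = true → F x' y' = false →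
      ∃ q ∈ Cert x y, q ∈ Cert x' y' ∧ ans q x y ≠ ans q x' y') :
    Prot F (m * m * L) A₀ B₀ := by
  have key : ∀ (s : ℕ) (A : Set X) (B : Set Y) (K : Finset Q), A ⊆ A₀ → B ⊆ B₀ →
      (∀ q ∈ K, Known ans A B q) →
      (∀ x ∈ A, ∀ y ∈ B, F x y = false → (Cert x y \ K).card ≤ s) →
      Prot F (s * m * L) A B := by
    intro s
    induction s with
    | zero =>
      intro A B K hA hB hK hs
      by_cases h1 : ∃ x ∈ A, ∃ y ∈ B, F x y = true
      · obtain ⟨x₁, hx₁, y₁, hy₁, hF⟩ := h1
        refine Prot.const _ _ _ true fun x hx y hy => ?_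
        by_contra h2
        rw [Bool.not_eq_true] at h2
        obtain ⟨q, hq, hq', hne⟩ := hconf x₁ (hA hx₁) y₁ (hB hy₁) x (hA hx) y (hB hy) hF h2
        have h3 := hs x hx y hy h2
        rw [Nat.le_zero, Finset.card_eq_zero, Finset.sdiff_eq_empty_iff_subset] at h3
        exact hne (hK q (h3 hq') x₁ hx₁ y₁ hy₁ x hx y hy)
      · refine Prot.const _ _ _ false fun x hx y hy => ?_
        by_contra h2
        rw [Bool.not_eq_false] at h2
        exact h1 ⟨x, hx, y, hy, h2⟩
    | succ s ih =>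
      intro A B K hA hB hK hs
      by_cases h1 : ∃ x ∈ A, ∃ y ∈ B, F x y = true
      · obtain ⟨x₁, hx₁, y₁, hy₁, hF⟩ := h1
        have h2 : Prot F (s * m * L + (Cert x₁ y₁).card * L) A B := by
          refine ask_all (Cert x₁ y₁) (fun q hq => hask x₁ y₁ q hq) _ A B ?_
          intro A' hA' B' hB' hk
          refine ih A' B' (K ∪ Cert x₁ y₁) (hA'.trans hA) (hB'.trans hB) ?_ ?_
          · intro q hq
            rw [mem_union] at hq
            rcases hq with hq | hq
            · exact (hK q hq).mono hA' hB'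
            · exact hk q hq
          · intro x hx y hy hF0
            obtain ⟨q, hq, hq', hne⟩ := hconf x₁ (hA hx₁) y₁ (hB hy₁) x (hA (hA' hx)) y
              (hB (hB' hy)) hF hF0
            have hqK : q ∉ K := fun h => hne (hK q h x₁ hx₁ y₁ hy₁ x (hA' hx) y (hB' hy))
            have h3 := hs x (hA' hx) y (hB' hy) hF0
            have h4 : (Cert x y \ (K ∪ Cert x₁ y₁)) ⊆ (Cert x y \ K).erase q := by
              intro p hp
              rw [mem_sdiff, mem_union, not_or] at hp
              rw [Finset.mem_erase, mem_sdiff]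
              exact ⟨fun h => hp.2.2 (h ▸ hq), hp.1, hp.2.1⟩
            have h5 := Finset.card_le_card h4
            rw [Finset.card_erase_of_mem (mem_sdiff.mpr ⟨hq', hqK⟩)] at h5
            omega
        refine h2.le ?_
        have h3 : (Cert x₁ y₁).card * L ≤ m * L := Nat.mul_le_mul_right _ (hcard _ _)
        calc s * m * L + (Cert x₁ y₁).card * L ≤ s * m * L + m * L := Nat.add_le_add_left h3 _
          _ = (s + 1) * m * L := by ring
      · refine Prot.const _ _ _ false fun x hx y hy => ?_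
        by_contra h2
        rw [Bool.not_eq_false] at h2
        exact h1 ⟨x, hx, y, hy, h2⟩
  refine key m A₀ B₀ ∅ (Set.Subset.refl _) (Set.Subset.refl _) (by simp) ?_
  intro x _ y _ _
  rw [Finset.sdiff_empty]
  exact hcard x y

end tree

section index

variable {X Y : Type*}

/-- Alice sends the value of a function with at most `2 ^ L` values -/
lemma alice_send {F : X → Y → Bool} {k L : ℕ} {A : Set X} {B : Set Y} {Z : Type*} [Finite Z]
    (hZ : Nat.card Z ≤ 2 ^ L) (g : X → Z) (h : ∀ z, Prot F k (A ∩ {x | g x = z}) B) :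
    Prot F (k + L) A B := by
  classical
  haveI := Fintype.ofFinite Z
  rw [Nat.card_eq_fintype_card] at hZ
  let e := Fintype.equivFin Z
  refine Prot.alice_index L (fun x => (e (g x)).val) 0 (fun x _ => ⟨Nat.zero_le _, ?_⟩) ?_
  · rw [zero_add]
    exact lt_of_lt_of_le (e (g x)).isLt hZ
  · intro i
    by_cases hi : i < Fintype.card Z
    · refine (h (e.symm ⟨i, hi⟩)).mono ?_ le_rfl
      rintro x ⟨hx, hx'⟩
      refine ⟨hx, ?_⟩
      simp only [Set.mem_setOf_eq] at hx' ⊢
      rw [Equiv.eq_symm_apply]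
      exact Fin.ext hx'
    · refine Prot.const _ _ _ true ?_
      rintro x ⟨hx, hx'⟩
      simp only [Set.mem_setOf_eq] at hx'
      have := (e (g x)).isLt
      omega

/-- Bob sends the value of a function with at most `2 ^ L` values -/
lemma bob_send {F : X → Y → Bool} {k L : ℕ} {A : Set X} {B : Set Y} {Z : Type*} [Finite Z]
    (hZ : Nat.card Z ≤ 2 ^ L) (g : Y → Z) (h : ∀ z, Prot F k A (B ∩ {y | g y = z})) :
    Prot F (k + L) A B := by
  classical
  haveI := Fintype.ofFinite Z
  rw [Nat.card_eq_fintype_card] at hZ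
  let e := Fintype.equivFin Z
  refine Prot.bob_index L (fun x => (e (g x)).val) 0 (fun x _ => ⟨Nat.zero_le _, ?_⟩) ?_
  · rw [zero_add]
    exact lt_of_lt_of_le (e (g x)).isLt hZ
  · intro i
    by_cases hi : i < Fintype.card Z
    · refine (h (e.symm ⟨i, hi⟩)).mono le_rfl ?_
      rintro x ⟨hx, hx'⟩
      refine ⟨hx, ?_⟩
      simp only [Set.mem_setOf_eq] at hx' ⊢
      rw [Equiv.eq_symm_apply]
      exact Fin.ext hx'
    · refine Prot.const _ _ _ true ?_
      rintro x _ y ⟨hy, hy'⟩
      simp only [Set.mem_setOf_eq] at hy'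
      have := (e (g y)).isLt
      omega

end index

end Pool.Agent.Q174.CY
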